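import Mathlib

namespace Pool.Agent.Helper91.PG

/-- Inverse semigroups. -/
class InvSem (S : Type*) extends Semigroup S, Inv S where
  mim : ∀ s : S, s * s⁻¹ * s = s
  imi : ∀ s : S, s⁻¹ * s * s⁻¹ = s⁻¹
  comm : ∀ e f : S, e * e = e → f * f = f → e * f = f * e

variable {S : Type*} [InvSem S]

open InvSem

lemma idem_dom (s : S) : (s⁻¹ * s) * (s⁻¹ * s) = s⁻¹ * s := by
  rw [← mul_assoc, imi]

lemma idem_ran (s : S) : (s * s⁻¹) * (s * s⁻¹) = s * s⁻¹ := by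
  rw [← mul_assoc, mim]

lemma mul_dom (s : S) : s * (s⁻¹ * s) = s := by rw [← mul_assoc, mim]

lemma inv_mul_ran (s : S) : s⁻¹ * (s * s⁻¹) = s⁻¹ := by rw [← mul_assoc, imi]

lemma idem_mul {e f : S} (he : e * e = e) (hf : f * f = f) : (e * f) * (e * f) = e * f := by
  calc (e * f) * (e * f) = e * (f * e) * f := by simp only [mul_assoc]
    _ = e * (e * f) * f := by rw [comm f e hf he]
    _ = (e * e) * (f * f) := by simp only [mul_assoc]
    _ = e * f := by rw [he, hf]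

lemma inv_unique {s t : S} (h1 : s * t * s = s) (h2 : t * s * t = t) : t = s⁻¹ := by
  have ts : (t * s) * (t * s) = t * s := by rw [← mul_assoc, h2]
  have st : (s * t) * (s * t) = s * t := by rw [← mul_assoc, h1]
  have a : t = t * s * s⁻¹ := by
    calc t = t * (s * t) := by rw [← mul_assoc, h2]
      _ = t * ((s * s⁻¹ * s) * t) := by rw [mim]
      _ = t * ((s * s⁻¹) * (s * t)) := by simp only [mul_assoc]
      _ = t * ((s * t) * (s * s⁻¹)) := by rw [comm _ _ (idem_ran s) st]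
      _ = (t * s * t) * (s * s⁻¹) := by simp only [mul_assoc]
      _ = t * s * s⁻¹ := by rw [h2, mul_assoc]
  have b : s⁻¹ = t * s * s⁻¹ := by
    calc s⁻¹ = (s⁻¹ * s) * s⁻¹ := by rw [imi]
      _ = (s⁻¹ * (s * t * s)) * s⁻¹ := by rw [h1]
      _ = ((s⁻¹ * s) * (t * s)) * s⁻¹ := by simp only [mul_assoc]
      _ = ((t * s) * (s⁻¹ * s)) * s⁻¹ := by rw [comm _ _ (idem_dom s) ts]
      _ = (t * s) * (s⁻¹ * s * s⁻¹) := by simp only [mul_assoc]
      _ = t * s * s⁻¹ := by rw [imi]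
  rw [b]; exact a

lemma inv_inv' (s : S) : (s⁻¹)⁻¹ = s := (inv_unique (imi s) (mim s)).symm

lemma inv_idem {e : S} (he : e * e = e) : e⁻¹ = e := (inv_unique (by rw [he, he]) (by rw [he, he])).symm

lemma mul_inv' (s t : S) : (s * t)⁻¹ = t⁻¹ * s⁻¹ := by
  symm
  apply inv_unique
  · calc s * t * (t⁻¹ * s⁻¹) * (s * t) = s * ((t * t⁻¹) * (s⁻¹ * s)) * t := by
          simp only [mul_assoc]
      _ = s * ((s⁻¹ * s) * (t * t⁻¹)) * t := by rw [comm _ _ (idem_ran t) (idem_dom s)]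
      _ = (s * s⁻¹ * s) * (t * t⁻¹ * t) := by simp only [mul_assoc]
      _ = s * t := by rw [mim, mim]
  · calc t⁻¹ * s⁻¹ * (s * t) * (t⁻¹ * s⁻¹) = t⁻¹ * ((s⁻¹ * s) * (t * t⁻¹)) * s⁻¹ := by
          simp only [mul_assoc]
      _ = t⁻¹ * ((t * t⁻¹) * (s⁻¹ * s)) * s⁻¹ := by rw [comm _ _ (idem_ran t) (idem_dom s)]
      _ = (t⁻¹ * t * t⁻¹) * (s⁻¹ * s * s⁻¹) := by simp only [mul_assoc]
      _ = t⁻¹ * s⁻¹ := by rw [imi, imi]

/-- conjugate of an idempotent is an idempotent -/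
lemma idem_conj (s : S) {x : S} (hx : x * x = x) : (s * x * s⁻¹) * (s * x * s⁻¹) = s * x * s⁻¹ := by
  calc (s * x * s⁻¹) * (s * x * s⁻¹) = s * (x * (s⁻¹ * s)) * (x * s⁻¹) := by
        simp only [mul_assoc]
    _ = s * ((s⁻¹ * s) * x) * (x * s⁻¹) := by rw [comm _ _ hx (idem_dom s)]
    _ = (s * s⁻¹ * s) * ((x * x) * s⁻¹) := by simp only [mul_assoc]
    _ = s * x * s⁻¹ := by rw [mim, hx, mul_assoc]

/-- if `x ≤ s⁻¹ s` then `(s x)⁻¹ (s x) = x` -/
lemma dom_restrict {s x : S} (hx : x * x = x) (h : s⁻¹ * s * x = x) :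
    (s * x)⁻¹ * (s * x) = x := by
  rw [mul_inv', inv_idem hx]
  calc x * s⁻¹ * (s * x) = x * (s⁻¹ * s * x) := by simp only [mul_assoc]
    _ = x := by rw [h, hx]

lemma ran_restrict {s x : S} (hx : x * x = x) :
    (s * x) * (s * x)⁻¹ = s * x * s⁻¹ := by
  rw [mul_inv', inv_idem hx]
  calc s * x * (x * s⁻¹) = s * (x * x) * s⁻¹ := by simp only [mul_assoc]
    _ = s * x * s⁻¹ := by rw [hx]

/-- `s⁻¹ (s x s⁻¹) s = x` for `x ≤ s⁻¹ s` -/
lemma conj_back {s x : S} (hx : x * x = x) (h : s⁻¹ * s * x = x) :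
    s⁻¹ * (s * x * s⁻¹) * s = x := by
  calc s⁻¹ * (s * x * s⁻¹) * s = (s⁻¹ * s * x) * (s⁻¹ * s) := by simp only [mul_assoc]
    _ = x * (s⁻¹ * s) := by rw [h]
    _ = (s⁻¹ * s) * x := comm _ _ hx (idem_dom s)
    _ = x := h

/-- `s x s⁻¹ ≤ s s⁻¹` -/
lemma conj_le {s x : S} (hx : x * x = x) : s * s⁻¹ * (s * x * s⁻¹) = s * x * s⁻¹ := by
  calc s * s⁻¹ * (s * x * s⁻¹) = (s * s⁻¹ * s) * x * s⁻¹ := by simp only [mul_assoc]
    _ = s * x * s⁻¹ := by rw [mim]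

lemma conj_conj {s t x : S} : s * (t * x * t⁻¹) * s⁻¹ = (s * t) * x * (s * t)⁻¹ := by
  rw [mul_inv']; simp only [mul_assoc]

/-- `x ≤ dom (s t)` iff `x ≤ dom t` and `t x t⁻¹ ≤ dom s` -/
lemma dom_mul_iff {s t x : S} (hx : x * x = x) :
    (s * t)⁻¹ * (s * t) * x = x ↔
      t⁻¹ * t * x = x ∧ s⁻¹ * s * (t * x * t⁻¹) = t * x * t⁻¹ := by
  constructor
  · intro h
    have h1 : t⁻¹ * t * x = x := by
      calc t⁻¹ * t * x = t⁻¹ * t * ((s * t)⁻¹ * (s * t) * x) := by rw [h]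
        _ = (t⁻¹ * t * t⁻¹) * (s⁻¹ * (s * t)) * x := by rw [mul_inv']; simp only [mul_assoc]
        _ = (s * t)⁻¹ * (s * t) * x := by rw [imi, mul_inv']; simp only [mul_assoc]
        _ = x := h
    refine ⟨h1, ?_⟩
    have h3 : t⁻¹ * (s⁻¹ * (s * (t * x))) = x := by
      have := h
      rw [mul_inv'] at this
      simpa only [mul_assoc] using this
    calc s⁻¹ * s * (t * x * t⁻¹) = (s⁻¹ * s) * ((t * t⁻¹) * (t * x * t⁻¹)) := by
          rw [conj_le hx]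
      _ = ((s⁻¹ * s) * (t * t⁻¹)) * (t * x * t⁻¹) := by simp only [mul_assoc]
      _ = ((t * t⁻¹) * (s⁻¹ * s)) * (t * x * t⁻¹) := by
          rw [comm _ _ (idem_dom s) (idem_ran t)]
      _ = t * (t⁻¹ * (s⁻¹ * (s * (t * x)))) * t⁻¹ := by simp only [mul_assoc]
      _ = t * x * t⁻¹ := by rw [h3]
  · rintro ⟨h1, h2⟩
    calc (s * t)⁻¹ * (s * t) * x = (s * t)⁻¹ * (s * t) * (t⁻¹ * t * x) := by rw [h1]
      _ = t⁻¹ * (s⁻¹ * s * ((t * t⁻¹) * t * x)) := by rw [mul_inv']; simp only [mul_assoc]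
      _ = t⁻¹ * (s⁻¹ * s * (t * (t⁻¹ * t * x))) := by simp only [mul_assoc]
      _ = t⁻¹ * (s⁻¹ * s * (t * (x * (t⁻¹ * t)))) := by
          rw [comm _ _ (idem_dom t) hx]
      _ = t⁻¹ * (s⁻¹ * s * (t * x * t⁻¹)) * t := by simp only [mul_assoc]
      _ = t⁻¹ * (t * x * t⁻¹) * t := by rw [h2]
      _ = x := conj_back hx h1

/-- an element of the R-class of `x ≤ dom s` -/
lemma ran_mul {s x y : S} (hy : y * y⁻¹ = x) : (s * y) * (s * y)⁻¹ = s * x * s⁻¹ := by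
  rw [mul_inv', ← hy]; simp only [mul_assoc]

lemma inv_mul_cancel_of {s x y : S} (h : s⁻¹ * s * x = x) (hy : y * y⁻¹ = x) :
    s⁻¹ * (s * y) = y := by
  have hxy : x * y = y := by rw [← hy, mim]
  calc s⁻¹ * (s * y) = s⁻¹ * s * (x * y) := by rw [hxy]; simp only [mul_assoc]
    _ = (s⁻¹ * s * x) * y := by simp only [mul_assoc]
    _ = y := by rw [h, hxy]

/-! ### Rank of an idempotent -/

variable [Finite S]

/-- number of idempotents below `x` -/
noncomputable def rank (x : S) : ℕ := Set.ncard {z : S | z * z = z ∧ x * z = z}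

lemma rank_lt {x z : S} (hx : x * x = x) (hz : z * z = z) (h : x * z = z) (hne : z ≠ x) :
    rank z < rank x := by
  apply Set.ncard_lt_ncard _ (Set.toFinite _)
  refine ⟨?_, ?_⟩
  · rintro w ⟨hw, hzw⟩
    refine ⟨hw, ?_⟩
    calc x * w = x * (z * w) := by rw [hzw]
      _ = (x * z) * w := by rw [mul_assoc]
      _ = w := by rw [h, hzw]
  · intro hsub
    have : x ∈ {w : S | w * w = w ∧ z * w = w} := hsub ⟨hx, hx⟩
    apply hne
    rw [← h, comm x z hx hz]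
    exact this.2

lemma rank_le {x z : S} (h : x * z = z) :
    rank z ≤ rank x := by
  apply Set.ncard_le_ncard _ (Set.toFinite _)
  rintro w ⟨hw, hzw⟩
  refine ⟨hw, ?_⟩
  calc x * w = x * (z * w) := by rw [hzw]
    _ = (x * z) * w := by rw [mul_assoc]
    _ = w := by rw [h, hzw]

/-- rank is invariant under partial conjugation -/
lemma rank_conj_le {s x : S} (hx : x * x = x) (h : s⁻¹ * s * x = x) :
    rank x ≤ rank (s * x * s⁻¹) := by
  apply Set.ncard_le_ncard_of_injOn (fun z => s * z * s⁻¹)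
  · rintro z ⟨hz, hxz⟩
    refine ⟨idem_conj s hz, ?_⟩
    calc s * x * s⁻¹ * (s * z * s⁻¹) = s * (x * (s⁻¹ * s)) * z * s⁻¹ := by
          simp only [mul_assoc]
      _ = s * (s⁻¹ * s * x) * z * s⁻¹ := by rw [comm _ _ hx (idem_dom s)]
      _ = s * (x * z) * s⁻¹ := by rw [h]; simp only [mul_assoc]
      _ = s * z * s⁻¹ := by rw [hxz]
  · rintro z ⟨hz, hxz⟩ w ⟨hw, hxw⟩ hzw
    have hz' : s⁻¹ * s * z = z := by
      calc s⁻¹ * s * z = (s⁻¹ * s * x) * z := by rw [mul_assoc _ x, hxz]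
        _ = z := by rw [h, hxz]
    have hw' : s⁻¹ * s * w = w := by
      calc s⁻¹ * s * w = (s⁻¹ * s * x) * w := by rw [mul_assoc _ x, hxw]
        _ = w := by rw [h, hxw]
    rw [← conj_back hz hz', ← conj_back hw hw']
    simp only at hzw
    rw [hzw]

lemma rank_conj {s x : S} (hx : x * x = x) (h : s⁻¹ * s * x = x) :
    rank (s * x * s⁻¹) = rank x := by
  apply le_antisymm _ (rank_conj_le hx h)
  have h1 : (s⁻¹)⁻¹ * s⁻¹ * (s * x * s⁻¹) = s * x * s⁻¹ := by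
    rw [inv_inv', conj_le hx]
  have := rank_conj_le (s := s⁻¹) (idem_conj s hx) h1
  rwa [inv_inv', conj_back hx h] at this

lemma rank_le_card (x : S) : rank x ≤ Nat.card S := by
  rw [← Set.ncard_univ]
  exact Set.ncard_le_ncard (Set.subset_univ _) (Set.toFinite _)

end Pool.Agent.Helper91.PG
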