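import Pool.Agent.Helper91.R1

namespace Pool.Agent.Helper91.PG

open InvSem Pointwise

universe u

variable {S : Type u} [InvSem S] [Finite S]

/-- The condition `(∗)`. -/
def Star (S : Type u) [Semigroup S] : Prop :=
  ∀ s t : S, s * t * s = s → t * s * t = t →
    s * ((s * t) * (t * s)) = (s * t) * (t * s) → s * s = s

/-- Approximations to an embedding. -/
structure Approx (n : ℕ) (G : Type u) [Group G] (φ : S → Set G) : Prop where
  ne : ∀ s, (φ s).Nonempty
  mul : ∀ s t, φ (s * t) = φ s * φ t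
  one : ∀ s, (1 : G) ∈ φ s ↔ ∀ x, x * x = x → rank x < n → s⁻¹ * s * x = x → s * x = x
  sep : ∀ e f z : S, e * e = e → f * f = f → z * z = z → rank z < n →
    e * z = z → f * z ≠ z → φ e ≠ φ f

section group
variable {G : Type u} [Group G] [Finite G] {φ : S → Set G} {n : ℕ}

lemma Approx.one_idem (h : Approx n G φ) {e : S} (he : e * e = e) : (1 : G) ∈ φ e := by
  rw [h.one]
  intro x _ _ hx
  rwa [inv_idem he, he] at hx

lemma Approx.mul_mem (h : Approx n G φ) {s t : S} {a b : G} (ha : a ∈ φ s) (hb : b ∈ φ t) :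
    a * b ∈ φ (s * t) := by
  rw [h.mul]; exact Set.mul_mem_mul ha hb

lemma Approx.pow_mem (h : Approx n G φ) {e : S} (he : e * e = e) {a : G} (ha : a ∈ φ e) (k : ℕ) :
    a ^ k ∈ φ e := by
  induction k with
  | zero => rw [pow_zero]; exact h.one_idem he
  | succ k ih => rw [pow_succ, ← he]; exact h.mul_mem ih ha

lemma Approx.inv_mem_idem (h : Approx n G φ) {e : S} (he : e * e = e) {a : G} (ha : a ∈ φ e) :
    a⁻¹ ∈ φ e := by
  have h1 : a⁻¹ = a ^ (orderOf a - 1) := by
    rw [inv_eq_iff_mul_eq_one, ← pow_succ']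
    have : 0 < orderOf a := orderOf_pos a
    rw [Nat.sub_add_cancel this, pow_orderOf_eq_one]
  rw [h1]
  exact h.pow_mem he ha _

lemma Approx.inv_mem (h : Approx n G φ) {s : S} {a : G} (ha : a ∈ φ s) : a⁻¹ ∈ φ s⁻¹ := by
  obtain ⟨w, hw⟩ := h.ne s⁻¹
  have h1 : (w * a)⁻¹ ∈ φ (s⁻¹ * s) := h.inv_mem_idem (idem_dom s) (h.mul_mem hw ha)
  have h2 : (w * a)⁻¹ * w ∈ φ (s⁻¹ * s * s⁻¹) := h.mul_mem h1 hw
  rw [imi] at h2
  simpa using h2

end group

/-! ### The step -/

/-- idempotents of rank `n` -/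
abbrev D (S : Type u) [InvSem S] [Finite S] (n : ℕ) : Type u := {x : S // x * x = x ∧ rank x = n}

section step

variable {G : Type u} [Group G] [Finite G] {φ : S → Set G} {n : ℕ}

/-- The equivalence relation on `G × D`. -/
def stepSetoid (h : Approx n G φ) : Setoid (G × D S n) where
  r p q := ∃ s : S, s⁻¹ * s * p.2.1 = p.2.1 ∧ s * p.2.1 * s⁻¹ = q.2.1 ∧ q.1⁻¹ * p.1 ∈ φ s
  iseqv := by
    refine ⟨?_, ?_, ?_⟩
    · rintro ⟨g, x, hx, hr⟩
      refine ⟨x, ?_, ?_, ?_⟩
      · simp only; rw [inv_idem hx, hx, hx]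
      · simp only; rw [inv_idem hx, hx, hx]
      · simp only [inv_mul_cancel]; exact h.one_idem hx
    · rintro ⟨g, x, hx, hr⟩ ⟨g', x', hx', hr'⟩ ⟨s, h1, h2, h3⟩
      simp only at h1 h2 h3
      refine ⟨s⁻¹, ?_, ?_, ?_⟩
      · simp only
        rw [inv_inv', ← h2]
        exact conj_le hx
      · simp only
        rw [inv_inv', ← h2]
        exact conj_back hx h1
      · simp only
        have := h.inv_mem h3
        rwa [mul_inv_rev, inv_inv] at this
    · rintro ⟨g, x, hx, hr⟩ ⟨g', x', hx', hr'⟩ ⟨g'', x'', hx'', hr''⟩ ⟨s, h1, h2, h3⟩ ⟨t, h4, h5, h6⟩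
      simp only at h1 h2 h3 h4 h5 h6
      refine ⟨t * s, ?_, ?_, ?_⟩
      · simp only
        rw [dom_mul_iff hx]
        exact ⟨h1, by rw [h2]; exact h4⟩
      · simp only
        rw [← conj_conj, h2, h5]
      · simp only
        have := h.mul_mem h6 h3
        rwa [mul_assoc, mul_inv_cancel_left] at this

/-- The set `Y`. -/
def Y (h : Approx n G φ) : Type u := Quotient (stepSetoid h)

instance (h : Approx n G φ) : Finite (Y h) := by
  unfold Y; infer_instance

/-- class -/
def cls (h : Approx n G φ) (g : G) (x : D S n) : Y h := Quotient.mk (stepSetoid h) (g, x)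

instance (h : Approx n G φ) : MulAction G (Y h) where
  smul g := Quotient.map (fun p => (g * p.1, p.2)) (by
    rintro ⟨g1, x⟩ ⟨g2, x'⟩ ⟨s, h1, h2, h3⟩
    refine ⟨s, h1, h2, ?_⟩
    simp only at h3 ⊢
    rw [mul_inv_rev, mul_assoc, inv_mul_cancel_left]
    exact h3)
  one_smul := by
    intro y
    induction y using Quotient.inductionOn with
    | h p =>
      change Quotient.mk (stepSetoid h) (1 * p.1, p.2) = _
      rw [one_mul]
  mul_smul := by
    intro g g' y
    induction y using Quotient.inductionOn with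
    | h p =>
      change Quotient.mk (stepSetoid h) (g * g' * p.1, p.2) =
        Quotient.mk (stepSetoid h) (g * (g' * p.1), p.2)
      rw [mul_assoc]

lemma smul_cls (h : Approx n G φ) (a g : G) (x : D S n) : a • cls h g x = cls h (a * g) x := rfl

/-- base point -/
def bp (h : Approx n G φ) (x : D S n) : Y h := cls h 1 x

/-- the conjugate idempotent -/
noncomputable def cj (s : S) (x : D S n) (hs : s⁻¹ * s * x.1 = x.1) : D S n :=
  ⟨s * x.1 * s⁻¹, idem_conj s x.2.1, by rw [rank_conj x.2.1 hs]; exact x.2.2⟩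

lemma smul_bp (h : Approx n G φ) {s : S} {a : G} (ha : a ∈ φ s) (x : D S n)
    (hs : s⁻¹ * s * x.1 = x.1) : a • bp h x = bp h (cj s x hs) := by
  unfold bp
  rw [smul_cls]
  apply Quotient.sound
  refine ⟨s, hs, rfl, ?_⟩
  simpa using ha

lemma bp_inj (hstar : Star S) (h : Approx n G φ) : Function.Injective (bp h) := by
  rintro ⟨x, hx, hr⟩ ⟨x', hx', hr'⟩ hxx
  obtain ⟨s, h1, h2, h3⟩ := Quotient.exact hxx
  simp only [inv_one, mul_one] at h1 h2 h3
  rw [h.one] at h3
  by_contra hne
  have hne' : x ≠ x' := fun h' => hne (Subtype.ext h')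
  have hw : (x * x') * (x * x') = x * x' := idem_mul hx hx'
  have hxw : x * (x * x') = x * x' := by rw [← mul_assoc, hx]
  have hrw : rank (x * x') < n := by
    rw [← hr]
    apply rank_lt hx hw hxw
    intro hwx
    have : rank x < rank x' := rank_lt hx' hx (by rw [comm _ _ hx' hx]; exact hwx) hne'
    omega
  have hsw : s⁻¹ * s * (x * x') = x * x' := by rw [← mul_assoc, h1]
  have hs := h3 _ hw hrw hsw
  have hd : (s * x)⁻¹ * (s * x) = x := dom_restrict hx h1
  have hrn : (s * x) * (s * x)⁻¹ = x' := by rw [ran_restrict hx, h2]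
  have key := hstar (s * x) (s * x)⁻¹ (mim _) (imi _) (by
    rw [hd, hrn]
    calc s * x * (x' * x) = s * (x * (x * x')) := by
          rw [comm _ _ hx' hx]; simp only [mul_assoc]
      _ = s * (x * x') := by rw [hxw]
      _ = x' * x := by rw [hs, comm _ _ hx hx'])
  apply hne'
  rw [← hd, ← hrn, inv_idem key]

end step

end Pool.Agent.Helper91.PG
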