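import Pool.Agent.Helper91.R2

set_option linter.unusedSectionVars false

namespace Pool.Agent.Helper91.PG

open InvSem Pointwise

universe u

variable {S : Type u} [InvSem S] [Finite S]
variable {G : Type u} [Group G] [Finite G] {φ : S → Set G} {n : ℕ}

/-- The subgroup `G'`. -/
def bigSub (h : Approx n G φ) : Subgroup (G × Equiv.Perm (Y h × Option S)) where
  carrier := {p | ∀ y v, (p.2 (y, v)).1 = p.1 • y}
  mul_mem' := by
    rintro p q hp hq y v
    simp only [Set.mem_ofPred_eq] at hp hq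
    have h1 : (p * q).2 (y, v) = p.2 (q.2 (y, v)) := rfl
    have h2 : (p * q).1 = p.1 * q.1 := rfl
    rw [h1, h2, mul_smul, ← hq y v, ← hp _ (q.2 (y, v)).2]
  one_mem' := by
    intro y v
    simp
  inv_mem' := by
    rintro p hp y v
    simp only [Set.mem_ofPred_eq] at hp
    have h1 : p⁻¹.2 (y, v) = p.2.symm (y, v) := rfl
    have h2 : p⁻¹.1 = p.1⁻¹ := rfl
    rw [h1, h2, eq_inv_smul_iff, ← hp _ (p.2.symm (y, v)).2]
    simp

/-- The bigger group -/
abbrev Big (h : Approx n G φ) : Type u := bigSub h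

/-- The element over `g` with given fibre permutations. -/
def mk (h : Approx n G φ) (g : G) (σ : Y h → Equiv.Perm (Option S)) : Big h :=
  ⟨(g, Equiv.prodShear (MulAction.toPerm g) σ), by intro y v; rfl⟩

lemma mk_fst (h : Approx n G φ) (g : G) (σ : Y h → Equiv.Perm (Option S)) :
    (mk h g σ).1.1 = g := rfl

lemma mk_snd (h : Approx n G φ) (g : G) (σ : Y h → Equiv.Perm (Option S)) (y : Y h) (v : Option S) :
    (mk h g σ).1.2 (y, v) = (g • y, σ y v) := rfl

/-- fibre permutation -/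
def fib (h : Approx n G φ) (p : Big h) (y : Y h) : Equiv.Perm (Option S) where
  toFun v := (p.1.2 (y, v)).2
  invFun v := (p.1.2.symm (p.1.1 • y, v)).2
  left_inv := by
    intro v
    have h1 : (p.1.2 (y, v)).1 = p.1.1 • y := p.2 y v
    simp only
    rw [← h1]
    simp
  right_inv := by
    intro v
    have h1 : (p.1.2.symm (p.1.1 • y, v)).1 = y := by
      have := p.2 (p.1.2.symm (p.1.1 • y, v)).1 (p.1.2.symm (p.1.1 • y, v)).2
      simp only [Prod.mk.eta, Equiv.apply_symm_apply] at this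
      exact (smul_left_cancel _ this).symm
    simp only
    have h2 : (y, (p.1.2.symm (p.1.1 • y, v)).2) = p.1.2.symm (p.1.1 • y, v) :=
      Prod.ext h1.symm rfl
    rw [h2]
    simp

lemma fib_spec (h : Approx n G φ) (p : Big h) (y : Y h) (v : Option S) :
    p.1.2 (y, v) = (p.1.1 • y, fib h p y v) := Prod.ext (p.2 y v) rfl

/-- the new map -/
def phi' (h : Approx n G φ) (s : S) : Set (Big h) :=
  {p | p.1.1 ∈ φ s ∧ ∀ (x : D S n) (hx : s⁻¹ * s * x.1 = x.1) (y : S), y * y⁻¹ = x.1 →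
    p.1.2 (bp h x, some y) = (bp h (cj s x hx), some (s * y))}

/-- in terms of fibres -/
lemma mem_phi'_iff (h : Approx n G φ) (s : S) (p : Big h) :
    p ∈ phi' h s ↔ p.1.1 ∈ φ s ∧ ∀ (x : D S n) (_ : s⁻¹ * s * x.1 = x.1) (y : S), y * y⁻¹ = x.1 →
    fib h p (bp h x) (some y) = some (s * y) := by
  constructor
  · rintro ⟨h1, h2⟩
    refine ⟨h1, ?_⟩
    intro x hx y hy
    have := h2 x hx y hy
    rw [fib_spec] at this
    exact (Prod.ext_iff.mp this).2
  · rintro ⟨h1, h2⟩
    refine ⟨h1, ?_⟩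
    intro x hx y hy
    rw [fib_spec, h2 x hx y hy, smul_bp h h1 x hx]

/-- extension of injective partial maps -/
lemma exists_ext (R : Set S) (f : S → S) (hf : Set.InjOn f R) :
    ∃ σ : Equiv.Perm (Option S), ∀ y ∈ R, σ (some y) = some (f y) := by
  classical
  let R' : Set (Option S) := some '' R
  let f' : Option S → Option S := Option.map f
  have hf' : Set.InjOn f' R' := by
    rintro _ ⟨a, ha, rfl⟩ _ ⟨b, hb, rfl⟩ hab
    simp only [f', Option.map_some, Option.some.injEq] at hab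
    rw [hf ha hb hab]
  have hb : Set.BijOn f' R' (f' '' R') := hf'.bijOn_image
  have : Fintype (Option S) := Fintype.ofFinite _
  let e : {x // x ∈ R'} ≃ {x // x ∈ f' '' R'} := hb.equiv
  refine ⟨e.extendSubtype, ?_⟩
  intro y hy
  have hy' : some y ∈ R' := ⟨y, hy, rfl⟩
  rw [Equiv.extendSubtype_apply_of_mem e (some y) hy']
  rfl

lemma injOn_left (s : S) (x : S) (hx : s⁻¹ * s * x = x) :
    Set.InjOn (fun y => s * y) {y : S | y * y⁻¹ = x} := by
  intro y hy y' hy' hyy
  simp only at hyy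
  rw [← inv_mul_cancel_of hx hy, ← inv_mul_cancel_of hx hy', hyy]

/-- choice of fibre permutations realizing `s`, with default `σ0` -/
lemma exists_fibres (hstar : Star S) (h : Approx n G φ) (s : S)
    (σ0 : Y h → Equiv.Perm (Option S)) :
    ∃ σ : Y h → Equiv.Perm (Option S),
      (∀ (x : D S n), s⁻¹ * s * x.1 = x.1 → ∀ y, y * y⁻¹ = x.1 →
        σ (bp h x) (some y) = some (s * y)) ∧
      (∀ y, (∀ x : D S n, s⁻¹ * s * x.1 = x.1 → bp h x ≠ y) → σ y = σ0 y) := by
  classical
  have key : ∀ y : Y h, ∃ τ : Equiv.Perm (Option S),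
      (∀ (x : D S n), s⁻¹ * s * x.1 = x.1 → bp h x = y → ∀ y, y * y⁻¹ = x.1 →
        τ (some y) = some (s * y)) ∧
      ((∀ x : D S n, s⁻¹ * s * x.1 = x.1 → bp h x ≠ y) → τ = σ0 y) := by
    intro y
    by_cases hy : ∃ x : D S n, s⁻¹ * s * x.1 = x.1 ∧ bp h x = y
    · obtain ⟨x, hx, rfl⟩ := hy
      obtain ⟨τ, hτ⟩ := exists_ext _ _ (injOn_left s x.1 hx)
      refine ⟨τ, ?_, ?_⟩
      · intro x' hx' hxx y hy
        have := bp_inj hstar h hxx
        subst this
        exact hτ y hy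
      · intro h'
        exact absurd rfl (h' x hx)
    · refine ⟨σ0 y, ?_, fun _ => rfl⟩
      intro x hx hxy
      exact absurd ⟨x, hx, hxy⟩ hy
  choose σ hσ1 hσ2 using key
  exact ⟨σ, fun x hx y hy => hσ1 _ x hx rfl y hy, fun y hy => hσ2 y hy⟩

lemma exists_lift (hstar : Star S) (h : Approx n G φ) {s : S} {a : G} (ha : a ∈ φ s) :
    ∃ p ∈ phi' h s, p.1.1 = a := by
  obtain ⟨σ, hσ, _⟩ := exists_fibres hstar h s (fun _ => 1)
  refine ⟨mk h a σ, ?_, rfl⟩
  rw [mem_phi'_iff]
  refine ⟨ha, ?_⟩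
  intro x hx y hy
  exact hσ x hx y hy

lemma phi'_mul_sub (h : Approx n G φ) {s t : S} {p q : Big h} (hp : p ∈ phi' h s)
    (hq : q ∈ phi' h t) : p * q ∈ phi' h (s * t) := by
  refine ⟨h.mul_mem hp.1 hq.1, ?_⟩
  intro x hx y hy
  have h1 := (dom_mul_iff x.2.1).mp hx
  have e1 := hq.2 x h1.1 y hy
  have e2 := hp.2 (cj t x h1.1) h1.2 (t * y) (ran_mul hy)
  have e3 : (p * q).1.2 (bp h x, some y) = p.1.2 (q.1.2 (bp h x, some y)) := rfl
  rw [e3, e1, e2]
  congr 2
  · apply Subtype.ext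
    exact conj_conj
  · rw [mul_assoc]

lemma phi'_mul_sup (hstar : Star S) (h : Approx n G φ) {s t : S} {p : Big h}
    (hp : p ∈ phi' h (s * t)) : ∃ p1 ∈ phi' h s, ∃ p2 ∈ phi' h t, p1 * p2 = p := by
  classical
  have hp1 := hp.1
  rw [h.mul] at hp1
  obtain ⟨a, ha, b, hb, hab⟩ := hp1
  simp only at hab
  -- default choice
  have key0 : ∀ y : Y h, ∃ τ : Equiv.Perm (Option S), ∀ z : D S n, s⁻¹ * s * z.1 = z.1 →
      b • y = bp h z → ∀ z', z' * z'⁻¹ = z.1 → fib h p y (τ.symm (some z')) = some (s * z') := by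
    intro y
    by_cases hy : ∃ z : D S n, s⁻¹ * s * z.1 = z.1 ∧ b • y = bp h z
    · obtain ⟨z, hz, hyz⟩ := hy
      obtain ⟨τ, hτ⟩ := exists_ext _ _ (injOn_left s z.1 hz)
      refine ⟨(fib h p y).trans τ.symm, ?_⟩
      intro z1 hz1 hyz1 z' hz'
      have : z1 = z := bp_inj hstar h (by rw [← hyz1, ← hyz])
      subst this
      rw [← hτ z' hz']
      simp
    · refine ⟨1, ?_⟩
      intro z hz hyz
      exact absurd ⟨z, hz, hyz⟩ hy
  choose σ0 hσ0 using key0
  obtain ⟨σ, hσ1, hσ2⟩ := exists_fibres hstar h t σ0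
  have hq : mk h b σ ∈ phi' h t := by
    rw [mem_phi'_iff]
    exact ⟨hb, fun x hx y hy => hσ1 x hx y hy⟩
  refine ⟨p * (mk h b σ)⁻¹, ?_, mk h b σ, hq, by rw [inv_mul_cancel_right]⟩
  have hfst : (p * (mk h b σ)⁻¹).1.1 = a := by
    change p.1.1 * b⁻¹ = a
    rw [← hab, mul_inv_cancel_right]
  refine ⟨by rw [hfst]; exact ha, ?_⟩
  intro z hz z' hz'
  -- compute
  have e0 : (mk h b σ).1.2.symm (bp h z, some z') =
      (b⁻¹ • bp h z, (σ (b⁻¹ • bp h z)).symm (some z')) := by
    rw [Equiv.symm_apply_eq, mk_snd]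
    simp
  have e1 : (p * (mk h b σ)⁻¹).1.2 (bp h z, some z') =
      p.1.2 ((mk h b σ).1.2.symm (bp h z, some z')) := rfl
  rw [e1, e0, fib_spec, smul_smul, ← hab, mul_inv_cancel_right, smul_bp h ha z hz]
  congr 1
  set y := b⁻¹ • bp h z with hy
  have hby : b • y = bp h z := by rw [hy, smul_inv_smul]
  by_cases hc : ∃ x : D S n, t⁻¹ * t * x.1 = x.1 ∧ bp h x = y
  · obtain ⟨x, hx, hxy⟩ := hc
    have hzx : cj t x hx = z := by
      apply bp_inj hstar h
      rw [← smul_bp h hb x hx, hxy, hby]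
    have hzx' : t * x.1 * t⁻¹ = z.1 := congrArg Subtype.val hzx
    have hst : (s * t)⁻¹ * (s * t) * x.1 = x.1 := by
      rw [dom_mul_iff x.2.1]
      exact ⟨hx, by rw [hzx']; exact hz⟩
    -- z' = t y'
    have hz1 : z'⁻¹ * z' = z'⁻¹ * z' := rfl
    have hzt : (t⁻¹)⁻¹ * t⁻¹ * z.1 = z.1 := by
      rw [inv_inv', ← hzx']; exact conj_le x.2.1
    have hcan : t * (t⁻¹ * z') = z' := by
      have := inv_mul_cancel_of hzt hz'
      rwa [inv_inv'] at this
    have hran : (t⁻¹ * z') * (t⁻¹ * z')⁻¹ = x.1 := by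
      rw [ran_mul hz', ← hzx', inv_inv']
      exact conj_back x.2.1 hx
    have e2 := hσ1 x hx (t⁻¹ * z') hran
    rw [hcan, hxy] at e2
    have e3 : (σ y).symm (some z') = some (t⁻¹ * z') := by
      rw [Equiv.symm_apply_eq]; exact e2.symm
    rw [e3, ← hxy]
    have e4 := ((mem_phi'_iff h _ _).mp hp).2 x hst (t⁻¹ * z') hran
    rw [e4, mul_assoc, hcan]
  · have hc' : ∀ x : D S n, t⁻¹ * t * x.1 = x.1 → bp h x ≠ y := by
      intro x hx hxy
      exact hc ⟨x, hx, hxy⟩
    rw [hσ2 y hc']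
    exact hσ0 y z hz hby z' hz'

lemma mul_of_ran {y x : S} (hy : y * y⁻¹ = x) : x * y = y := by rw [← hy, mim]

lemma step (hstar : Star S) (h : Approx n G φ) : Approx (n + 1) (Big h) (phi' h) where
  ne := by
    intro s
    obtain ⟨a, ha⟩ := h.ne s
    obtain ⟨p, hp, _⟩ := exists_lift hstar h ha
    exact ⟨p, hp⟩
  mul := by
    intro s t
    ext p
    constructor
    · intro hp
      obtain ⟨p1, h1, p2, h2, h12⟩ := phi'_mul_sup hstar h hp
      exact ⟨p1, h1, p2, h2, h12⟩
    · rintro ⟨p1, h1, p2, h2, h12⟩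
      simp only at h12
      rw [← h12]
      exact phi'_mul_sub h h1 h2
  one := by
    intro s
    constructor
    · rintro ⟨h1, h2⟩ x hx hr hsx
      have h1' : (1 : G) ∈ φ s := h1
      rcases Nat.lt_succ_iff_lt_or_eq.mp hr with hr | hr
      · exact (h.one s).mp h1' x hx hr hsx
      · have := h2 ⟨x, hx, hr⟩ hsx x (by rw [inv_idem hx]; exact hx)
        have h3 : some x = some (s * x) := (Prod.ext_iff.mp this).2
        exact (Option.some.inj h3).symm
    · intro h1
      rw [mem_phi'_iff]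
      refine ⟨(h.one s).mpr (fun x hx hr hsx => h1 x hx (Nat.lt_succ_of_lt hr) hsx), ?_⟩
      intro x hx y hy
      have h2 := h1 x.1 x.2.1 (by rw [x.2.2]; exact Nat.lt_succ_self n) hx
      have h3 : s * y = y := by
        rw [← mul_of_ran hy, ← mul_assoc, h2]
      rw [h3]
      rfl
  sep := by
    intro e f z he hf hz hr hez hfz heq
    rcases Nat.lt_succ_iff_lt_or_eq.mp hr with hr | hr
    · apply h.sep e f z he hf hz hr hez hfz
      ext a
      constructor
      · intro ha
        obtain ⟨p, hp, rfl⟩ := exists_lift hstar h ha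
        rw [heq] at hp
        exact hp.1
      · intro ha
        obtain ⟨p, hp, rfl⟩ := exists_lift hstar h ha
        rw [← heq] at hp
        exact hp.1
    · classical
      let z' : D S n := ⟨z, hz, hr⟩
      let σ : Y h → Equiv.Perm (Option S) := fun y =>
        if y = bp h z' then Equiv.swap (some z) none else 1
      have hp : mk h 1 σ ∈ phi' h f := by
        rw [mem_phi'_iff]
        refine ⟨h.one_idem hf, ?_⟩
        intro x hx y hy
        have hxz : bp h x ≠ bp h z' := by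
          intro h'
          have := bp_inj hstar h h'
          apply hfz
          have h'' : x.1 = z := congrArg Subtype.val this
          rw [h'', inv_idem hf, hf] at hx
          exact hx
        have h1 : fib h (mk h 1 σ) (bp h x) (some y) = σ (bp h x) (some y) := rfl
        rw [h1]
        simp only [σ, if_neg hxz]
        rw [inv_idem hf, hf] at hx
        have h3 : f * y = y := by
          rw [← mul_of_ran hy, ← mul_assoc, hx]
        rw [h3]
        rfl
      rw [← heq, mem_phi'_iff] at hp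
      have h1 := hp.2 z' (by rw [inv_idem he, he]; exact hez) z (by rw [inv_idem hz, hz])
      have h2 : fib h (mk h 1 σ) (bp h z') (some z) = σ (bp h z') (some z) := rfl
      rw [h2] at h1
      simp only [σ, if_true, Equiv.swap_apply_left] at h1
      exact absurd h1 (by simp)

end Pool.Agent.Helper91.PG
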