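import Pool.Agent.Helper91.R3

set_option linter.unusedSectionVars false

namespace Pool.Agent.Helper91.PG

open InvSem Pointwise

universe u

variable {S : Type u} [InvSem S] [Finite S]

lemma exists_approx (hstar : Star S) (n : ℕ) :
    ∃ (G : Type u) (_ : Group G) (_ : Finite G) (φ : S → Set G), Approx n G φ := by
  induction n with
  | zero =>
    refine ⟨PUnit, inferInstance, inferInstance, fun _ => Set.univ, ?_⟩
    constructor
    · intro s; exact ⟨1, trivial⟩
    · intro s t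
      ext x
      simp only [Set.mem_univ, true_iff]
      exact ⟨1, trivial, 1, trivial, rfl⟩
    · intro s
      simp
    · intro e f z _ _ _ hz
      simp at hz
  | succ n ih =>
    obtain ⟨G, hG, hF, φ, h⟩ := ih
    exact ⟨Big h, inferInstance, inferInstance, phi' h, step hstar h⟩

/-- The embedding of an inverse semigroup satisfying `(∗)`. -/
theorem exists_embedding (hstar : Star S) :
    ∃ (G : Type u) (_ : Group G) (_ : Finite G) (φ : S → Set G),
      Function.Injective φ ∧ ∀ s t, φ (s * t) = φ s * φ t := by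
  obtain ⟨G, hG, hF, φ, h⟩ := exists_approx (S := S) hstar (Nat.card S + 1)
  refine ⟨G, hG, hF, φ, ?_, h.mul⟩
  have hrk : ∀ x : S, rank x < Nat.card S + 1 := fun x => Nat.lt_succ_of_le (rank_le_card x)
  have hone : ∀ s : S, (1 : G) ∈ φ s → s * s = s := by
    intro s hs
    have h1 := (h.one s).mp hs (s⁻¹ * s) (idem_dom s) (hrk _) (idem_dom s)
    rw [mul_dom] at h1
    rw [h1]
    exact idem_dom s
  have hsep : ∀ e f : S, e * e = e → f * f = f → φ e = φ f → e = f := by
    intro e f he hf hef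
    by_contra hne
    by_cases h1 : f * e = e
    · have h2 : e * f ≠ f := by
        intro h2
        apply hne
        rw [← h1, comm f e hf he, h2]
      exact h.sep f e f hf he hf (hrk _) hf h2 hef.symm
    · exact h.sep e f e he hf he (hrk _) he h1 hef
  have hinv : ∀ s : S, φ s⁻¹ = (φ s)⁻¹ := by
    intro s
    ext a
    rw [Set.mem_inv]
    constructor
    · intro ha
      have := h.inv_mem ha
      rwa [inv_inv'] at this
    · intro ha
      have := h.inv_mem ha
      rwa [inv_inv] at this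
  intro s t hst
  have hd : s⁻¹ * s = t⁻¹ * t := by
    apply hsep _ _ (idem_dom s) (idem_dom t)
    rw [h.mul, h.mul, hinv, hinv, hst]
  have hr : s * s⁻¹ = t * t⁻¹ := by
    apply hsep _ _ (idem_ran s) (idem_ran t)
    rw [h.mul, h.mul, hinv, hinv, hst]
  have h1 : (s⁻¹ * t) * (s⁻¹ * t) = s⁻¹ * t := by
    apply hone
    rw [h.mul, ← hst, ← h.mul]
    exact h.one_idem (idem_dom s)
  have h2 : s⁻¹ * t = t⁻¹ * t := by
    calc s⁻¹ * t = (s⁻¹ * t)⁻¹ * (s⁻¹ * t) := by rw [inv_idem h1, h1]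
      _ = t⁻¹ * (s * s⁻¹) * t := by rw [mul_inv', inv_inv']; simp only [mul_assoc]
      _ = (t⁻¹ * t * t⁻¹) * t := by rw [hr]; simp only [mul_assoc]
      _ = t⁻¹ * t := by rw [imi]
  calc s = s * (s⁻¹ * s) := (mul_dom s).symm
    _ = s * (s⁻¹ * t) := by rw [hd, h2]
    _ = (t * t⁻¹) * t := by rw [← mul_assoc, hr]
    _ = t := mim t

end Pool.Agent.Helper91.PG

namespace Pool.Agent.Helper91.PG

open Pointwise

/-- `φ` realises `S` as a semigroup of subsets of `G`. -/
structure SetEmb (S : Type*) [Semigroup S] (G : Type*) [Group G] (φ : S → Set G) : Prop where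
  inj : Function.Injective φ
  mul : ∀ s t, φ (s * t) = φ s * φ t

section necessity

variable {S : Type*} [Semigroup S] {G : Type*} [Group G]

lemma sub_one_mem (hG : ∀ g : G, IsOfFinOrder g) {A : Set G} (hA : A * A = A) (hne : A.Nonempty) :
    (1 : G) ∈ A ∧ ∀ a ∈ A, a⁻¹ ∈ A := by
  have hpow : ∀ a ∈ A, ∀ k : ℕ, a ^ (k + 1) ∈ A := by
    intro a ha k
    induction k with
    | zero => simpa using ha
    | succ k ih =>
      rw [pow_succ, ← hA]
      exact Set.mul_mem_mul ih ha
  have h1 : ∀ a ∈ A, (1 : G) ∈ A := by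
    intro a ha
    have hpos : 0 < orderOf a := (hG a).orderOf_pos
    have := hpow a ha (orderOf a - 1)
    rwa [Nat.sub_add_cancel hpos, pow_orderOf_eq_one] at this
  obtain ⟨a0, ha0⟩ := hne
  refine ⟨h1 a0 ha0, ?_⟩
  intro a ha
  have hpos : 0 < orderOf a := (hG a).orderOf_pos
  have e1 : a⁻¹ = a ^ (orderOf a - 1) := by
    rw [inv_eq_iff_mul_eq_one, ← pow_succ']
    rw [Nat.sub_add_cancel hpos, pow_orderOf_eq_one]
  rw [e1]
  rcases Nat.eq_zero_or_pos (orderOf a - 1) with h | h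
  · rw [h, pow_zero]; exact h1 a ha
  · have := hpow a ha (orderOf a - 1 - 1)
    rwa [Nat.sub_add_cancel h] at this

/-- Idempotents commute. -/
lemma idem_comm_of (hG : ∀ g : G, IsOfFinOrder g) {φ : S → Set G} (h : SetEmb S G φ)
    (hreg : ∀ s : S, ∃ t, s * t * s = s) {e f : S} (he : e * e = e) (hf : f * f = f) :
    e * f = f * e := by
  apply h.inj
  have hE : φ e * φ e = φ e := by rw [← h.mul, he]
  have hF : φ f * φ f = φ f := by rw [← h.mul, hf]
  rcases (φ e).eq_empty_or_nonempty with hem | hne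
  · rw [h.mul, h.mul, hem]; simp
  rcases (φ f).eq_empty_or_nonempty with hfm | hnf
  · rw [h.mul, h.mul, hfm]; simp
  obtain ⟨hE1, hEi⟩ := sub_one_mem hG hE hne
  obtain ⟨hF1, hFi⟩ := sub_one_mem hG hF hnf
  obtain ⟨w, hw⟩ := hreg (e * f)
  have hA1 : (1 : G) ∈ φ (e * f) := by
    rw [h.mul]; exact ⟨1, hE1, 1, hF1, one_mul 1⟩
  -- M = w * (e f)
  have hM : φ (w * (e * f)) * φ (w * (e * f)) = φ (w * (e * f)) := by
    rw [← h.mul]; congr 1
    calc w * (e * f) * (w * (e * f)) = w * ((e * f) * w * (e * f)) := by simp only [mul_assoc]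
      _ = w * (e * f) := by rw [hw]
  have hAM : φ (e * f) * φ (w * (e * f)) = φ (e * f) := by
    rw [← h.mul, ← mul_assoc, hw]
  have hMne : (φ (w * (e * f))).Nonempty := by
    rw [Set.nonempty_iff_ne_empty]
    intro hem
    rw [hem, Set.mul_empty] at hAM
    rw [← hAM] at hA1
    exact hA1
  obtain ⟨hM1, hMi⟩ := sub_one_mem hG hM hMne
  have hWne : (φ w).Nonempty := by
    rw [h.mul] at hMne
    exact Set.Nonempty.of_mul_left hMne
  obtain ⟨a0, ha0⟩ := hWne
  have hsub : φ (e * f) ⊆ φ (w * (e * f)) := by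
    intro a ha
    have h1 : a0 ∈ φ (w * (e * f)) := by
      rw [h.mul]; exact ⟨a0, ha0, 1, hA1, mul_one _⟩
    have h2 : a0 * a ∈ φ (w * (e * f)) := by
      rw [h.mul]; exact ⟨a0, ha0, a, ha, rfl⟩
    have h3 : a0⁻¹ * (a0 * a) ∈ φ (w * (e * f)) * φ (w * (e * f)) :=
      ⟨_, hMi _ h1, _, h2, rfl⟩
    rw [hM, inv_mul_cancel_left] at h3
    exact h3
  have hsup : φ (w * (e * f)) ⊆ φ (e * f) := by
    intro m hm
    rw [← hAM]
    exact ⟨1, hA1, m, hm, one_mul m⟩
  have heq : φ (e * f) = φ (w * (e * f)) := Set.Subset.antisymm hsub hsup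
  have hinv : ∀ a ∈ φ (e * f), a⁻¹ ∈ φ (e * f) := by
    intro a ha
    rw [heq] at ha ⊢
    exact hMi a ha
  apply Set.Subset.antisymm
  · intro a ha
    have h1 := hinv a ha
    rw [h.mul] at h1
    obtain ⟨x, hx, y, hy, hxy⟩ := h1
    simp only at hxy
    rw [h.mul]
    refine ⟨y⁻¹, hFi y hy, x⁻¹, hEi x hx, ?_⟩
    simp only
    rw [← mul_inv_rev, hxy, inv_inv]
  · intro a ha
    rw [h.mul] at ha
    obtain ⟨x, hx, y, hy, hxy⟩ := ha
    simp only at hxy
    have h1 : y⁻¹ * x⁻¹ ∈ φ (e * f) := by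
      rw [h.mul]; exact ⟨_, hEi y hy, _, hFi x hx, rfl⟩
    have h2 := hinv _ h1
    rwa [← mul_inv_rev, inv_inv, hxy] at h2

/-- Condition `(∗)` is necessary. -/
lemma star_of (hG : ∀ g : G, IsOfFinOrder g) {φ : S → Set G} (h : SetEmb S G φ)
    {s t : S} (hs : s * t * s = s) (ht : t * s * t = t)
    (hst : s * ((s * t) * (t * s)) = (s * t) * (t * s)) : s * s = s := by
  apply h.inj
  have he : (s * t) * (s * t) = s * t := by rw [← mul_assoc, hs]
  have hf : (t * s) * (t * s) = t * s := by rw [← mul_assoc, ht]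
  rcases (φ s).eq_empty_or_nonempty with hem | hne
  · rw [h.mul, hem]; simp
  have htne : (φ t).Nonempty := by
    rw [Set.nonempty_iff_ne_empty]
    intro h0
    have : φ s = ∅ := by rw [← hs, h.mul, h.mul, h0]; simp
    rw [this] at hne
    exact Set.not_nonempty_empty hne
  have hE : φ (s * t) * φ (s * t) = φ (s * t) := by rw [← h.mul, he]
  have hF : φ (t * s) * φ (t * s) = φ (t * s) := by rw [← h.mul, hf]
  obtain ⟨hE1, hEi⟩ := sub_one_mem hG hE (by rw [h.mul]; exact hne.mul htne)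
  obtain ⟨hF1, hFi⟩ := sub_one_mem hG hF (by rw [h.mul]; exact htne.mul hne)
  have hEm : ∀ x ∈ φ (s * t), ∀ y ∈ φ (s * t), x * y ∈ φ (s * t) := by
    intro x hx y hy; rw [← hE]; exact ⟨x, hx, y, hy, rfl⟩
  have hFm : ∀ x ∈ φ (t * s), ∀ y ∈ φ (t * s), x * y ∈ φ (t * s) := by
    intro x hx y hy; rw [← hF]; exact ⟨x, hx, y, hy, rfl⟩
  -- multiplication facts
  have hEA : ∀ x ∈ φ (s * t), ∀ y ∈ φ s, x * y ∈ φ s := by
    intro x hx y hy
    have : x * y ∈ φ (s * t * s) := by rw [h.mul]; exact ⟨x, hx, y, hy, rfl⟩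
    rwa [hs] at this
  have hAF : ∀ x ∈ φ s, ∀ y ∈ φ (t * s), x * y ∈ φ s := by
    intro x hx y hy
    have : x * y ∈ φ (s * (t * s)) := by rw [h.mul]; exact ⟨x, hx, y, hy, rfl⟩
    rwa [← mul_assoc, hs] at this
  obtain ⟨b, hb⟩ := htne
  -- `A = a F` and `A = E a` for each `a ∈ A`
  have hA1 : ∀ a ∈ φ s, ∀ a' ∈ φ s, a⁻¹ * a' ∈ φ (t * s) := by
    intro a ha a' ha'
    have h1 : b * a ∈ φ (t * s) := by rw [h.mul]; exact ⟨b, hb, a, ha, rfl⟩
    have h2 : b * a' ∈ φ (t * s) := by rw [h.mul]; exact ⟨b, hb, a', ha', rfl⟩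
    have h3 := hFm _ (hFi _ h1) _ h2
    have e : (b * a)⁻¹ * (b * a') = a⁻¹ * a' := by group
    rwa [e] at h3
  have hA2 : ∀ a ∈ φ s, ∀ a' ∈ φ s, a' * a⁻¹ ∈ φ (s * t) := by
    intro a ha a' ha'
    have h1 : a * b ∈ φ (s * t) := by rw [h.mul]; exact ⟨a, ha, b, hb, rfl⟩
    have h2 : a' * b ∈ φ (s * t) := by rw [h.mul]; exact ⟨a', ha', b, hb, rfl⟩
    have h3 := hEm _ h2 _ (hEi _ h1)
    have e : a' * b * (a * b)⁻¹ = a' * a⁻¹ := by group
    rwa [e] at h3
  obtain ⟨a, ha⟩ := hne
  -- a ∈ H K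
  have h1 : a ∈ φ ((s * t) * (t * s)) := by
    rw [← hst, h.mul]
    refine ⟨a, ha, 1, ?_, mul_one a⟩
    rw [h.mul]
    exact ⟨1, hE1, 1, hF1, one_mul 1⟩
  rw [h.mul] at h1
  obtain ⟨x, hx, k, hk, hxk⟩ := h1
  simp only at hxk
  -- `x = a k⁻¹ ∈ A`
  have hxA : x ∈ φ s := by
    have := hAF a ha k⁻¹ (hFi k hk)
    rwa [← hxk, mul_inv_cancel_right] at this
  -- so `1 ∈ A`
  have h1A : (1 : G) ∈ φ s := by
    have := hEA x⁻¹ (hEi x hx) x hxA
    rwa [inv_mul_cancel] at this
  rw [h.mul]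
  apply Set.Subset.antisymm
  · rintro _ ⟨y, hy, z, hz, rfl⟩
    have hy' : y ∈ φ (s * t) := by
      have := hA2 1 h1A y hy
      rwa [inv_one, mul_one] at this
    exact hEA y hy' z hz
  · intro y hy
    exact ⟨1, h1A, y, hy, one_mul y⟩

end necessity

/-- A regular semigroup with commuting idempotents is an inverse semigroup. -/
@[instance_reducible] noncomputable def invSemOf (S : Type*) [sg : Semigroup S] (hreg : ∀ s : S, ∃ t, s * t * s = s)
    (hcomm : ∀ e f : S, e * e = e → f * f = f → e * f = f * e) : InvSem S where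
  toSemigroup := sg
  inv s := (hreg s).choose * s * (hreg s).choose
  mim s := by
    change s * ((hreg s).choose * s * (hreg s).choose) * s = s
    have h := (hreg s).choose_spec
    calc s * ((hreg s).choose * s * (hreg s).choose) * s
        = (s * (hreg s).choose * s) * (hreg s).choose * s := by simp only [mul_assoc]
      _ = s := by rw [h, h]
  imi s := by
    change (hreg s).choose * s * (hreg s).choose * s * ((hreg s).choose * s * (hreg s).choose) =
      (hreg s).choose * s * (hreg s).choose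
    have h := (hreg s).choose_spec
    calc (hreg s).choose * s * (hreg s).choose * s * ((hreg s).choose * s * (hreg s).choose)
        = (hreg s).choose * (s * (hreg s).choose * s) * ((hreg s).choose * s * (hreg s).choose) := by
          simp only [mul_assoc]
      _ = (hreg s).choose * s * ((hreg s).choose * s * (hreg s).choose) := by rw [h]
      _ = (hreg s).choose * (s * (hreg s).choose * s) * (hreg s).choose := by
          simp only [mul_assoc]
      _ = (hreg s).choose * s * (hreg s).choose := by rw [h]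
  comm := hcomm

end Pool.Agent.Helper91.PG
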