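import Mathlib

namespace Pool.Agent.Helper91

open Set Topology Equiv

/-- Spaces with the topological properties of the Cantor space that we use. -/
class CLike (X : Type*) [TopologicalSpace X] : Prop
    extends CompactSpace X, T2Space X, TotallyDisconnectedSpace X where
  inf : ∀ U : Set X, IsOpen U → U.Nonempty → U.Infinite

variable {X : Type*} [TopologicalSpace X]

/-- small clopen neighbourhood avoiding a finite set -/
lemma exists_clopen_avoid [CLike X] {x : X} {U : Set X} (hU : IsOpen U) (hx : x ∈ U)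
    {F : Set X} (hF : F.Finite) (hxF : x ∉ F) :
    ∃ V, IsClopen V ∧ x ∈ V ∧ V ⊆ U ∧ ∀ y ∈ F, y ∉ V := by
  obtain ⟨V, hV, hxV, hVU⟩ := compact_exists_isClopen_in_isOpen
    (hU.inter hF.isClosed.isOpen_compl) (⟨hx, hxF⟩ : x ∈ U ∩ Fᶜ)
  exact ⟨V, hV, hxV, fun y hy => (hVU hy).1, fun y hy hyV => (hVU hyV).2 hy⟩

/-- a point of a nonempty open set avoiding a finite set -/
lemma exists_mem_avoid [CLike X] {U : Set X} (hU : IsOpen U) (hne : U.Nonempty)
    {F : Set X} (hF : F.Finite) : ∃ y ∈ U, y ∉ F := by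
  have h := (CLike.inf U hU hne).sdiff hF
  obtain ⟨y, hy⟩ := h.nonempty
  exact ⟨y, hy.1, hy.2⟩

/-- a nonempty clopen subset of a nonempty open set missing another point of it -/
lemma exists_clopen_proper [CLike X] {U : Set X} (hU : IsOpen U) (hne : U.Nonempty) :
    ∃ V, IsClopen V ∧ V.Nonempty ∧ V ⊆ U ∧ ∃ y ∈ U, y ∉ V := by
  obtain ⟨x, hx⟩ := hne
  obtain ⟨y, hy, hyx⟩ := exists_mem_avoid hU ⟨x, hx⟩ (Set.finite_singleton x)
  obtain ⟨V, hV, hxV, hVU, hav⟩ := exists_clopen_avoid hU hx (Set.finite_singleton y)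
    (by simpa using fun h => hyx (by simp [h]))
  exact ⟨V, hV, ⟨x, hxV⟩, hVU, y, hy, hav y rfl⟩

/-- Vigorous group of permutations acting by continuous maps. -/
structure Vig (G : Subgroup (Perm X)) : Prop where
  cont : ∀ g ∈ G, Continuous g
  vig : ∀ A B C : Set X, IsClopen A → IsClopen B → IsClopen C → B.Nonempty → C.Nonempty →
    B ⊂ A → C ⊂ A → ∃ g ∈ G, (∀ x ∈ B, g x ∈ C) ∧ ∀ x ∉ A, g x = x

lemma mem_symm {G : Subgroup (Perm X)} {g : Perm X} (hg : g ∈ G) : g.symm ∈ G := G.inv_mem hg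

lemma symm_fix {g : Perm X} {x : X} (h : g x = x) : g.symm x = x := by
  rw [Equiv.symm_apply_eq]; exact h.symm

/-- convenient form of vigour -/
lemma Vig.move {G : Subgroup (Perm X)} (hG : Vig G) {D A E : Set X} (hD : IsClopen D)
    (hA : IsClopen A) (hE : IsClopen E) (hAD : A ⊆ D) (hED : E ⊆ D) (hEne : E.Nonempty)
    (hAne : ∃ y ∈ D, y ∉ A) : ∃ g ∈ G, (∀ x ∈ A, g x ∈ E) ∧ ∀ x ∉ D, g x = x := by
  by_cases hA0 : A.Nonempty
  · by_cases hE' : ∃ y ∈ D, y ∉ E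
    · obtain ⟨g, hg, h1, h2⟩ := hG.vig D A E hD hA hE hA0 hEne
        ⟨hAD, fun h => by obtain ⟨y, hy, hyA⟩ := hAne; exact hyA (h hy)⟩
        ⟨hED, fun h => by obtain ⟨y, hy, hyE⟩ := hE'; exact hyE (h hy)⟩
      exact ⟨g, hg, h1, h2⟩
    · push Not at hE'
      exact ⟨1, G.one_mem, fun x hx => hE' x (hAD hx), fun x _ => rfl⟩
  · refine ⟨1, G.one_mem, fun x hx => ?_, fun x _ => rfl⟩
    exact absurd ⟨x, hx⟩ hA0

/-- image of a clopen set -/
lemma Vig.clopen_inv {G : Subgroup (Perm X)} (hG : Vig G) {g : Perm X} (hg : g ∈ G)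
    {I : Set X} (hI : IsClopen I) : IsClopen {x | g.symm x ∈ I} :=
  hI.preimage (hG.cont _ (mem_symm hg))

lemma Vig.clopen_pre {G : Subgroup (Perm X)} (hG : Vig G) {g : Perm X} (hg : g ∈ G)
    {I : Set X} (hI : IsClopen I) : IsClopen {x | g x ∈ I} :=
  hI.preimage (hG.cont _ hg)

/-- Cutting down the support of `g` keeping its values on `I`. -/
lemma Vig.cut {G : Subgroup (Perm X)} (hG : Vig G) {g : Perm X} (hg : g ∈ G)
    {I F E : Set X} (hI : IsClopen I) (hF : IsClopen F) (hE : IsClopen E)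
    (hIg : ∀ x ∈ I, g x ∉ I) (hFne : F.Nonempty) (hgF : ∀ x ∈ F, g x = x)
    (hEne : E.Nonempty) (hE1 : ∀ x ∈ E, x ∉ I) (hE2 : ∀ x ∈ E, g.symm x ∉ I) :
    ∃ g' ∈ G, (∀ x ∈ I, g' x = g x) ∧ (∀ x, x ∉ I → g.symm x ∉ I → x ∉ E → g' x = x) := by
  set D : Set X := {x | x ∉ I ∧ g.symm x ∉ I} with hD
  have hDc : IsClopen D := hI.compl.inter (hG.clopen_inv hg hI).compl
  have hFI : ∀ x ∈ F, x ∉ I := fun x hx hxI => hIg x hxI (by rw [hgF x hx]; exact hxI)
  have hFI2 : ∀ x ∈ F, g.symm x ∉ I := by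
    intro x hx hxI
    rw [symm_fix (hgF x hx)] at hxI
    exact hFI x hx hxI
  obtain ⟨h, hh, h1, h2⟩ := hG.move (D := D) (A := D \ F) (E := E) hDc (hDc.diff hF) hE
    sdiff_subset (fun x hx => ⟨hE1 x hx, hE2 x hx⟩) hEne
    (by obtain ⟨y, hy⟩ := hFne; exact ⟨y, ⟨hFI y hy, hFI2 y hy⟩, fun h => h.2 hy⟩)
  have h2' : ∀ x ∉ D, h.symm x = x := fun x hx => symm_fix (h2 x hx)
  refine ⟨h * g * h⁻¹, G.mul_mem (G.mul_mem hh hg) (G.inv_mem hh), ?_, ?_⟩
  · intro x hx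
    have hx1 : x ∉ D := fun hd => hd.1 hx
    have hx2 : g x ∉ D := fun hd => hd.2 (by simpa using hx)
    change h (g (h.symm x)) = g x
    rw [h2' x hx1, h2 _ hx2]
  · intro x hxI hxI2 hxE
    have hxD : x ∈ D := ⟨hxI, hxI2⟩
    change h (g (h.symm x)) = x
    by_cases hd : h.symm x ∈ D
    · by_cases hf : h.symm x ∈ F
      · rw [hgF _ hf]; simp
      · exfalso
        have := h1 _ ⟨hd, hf⟩
        rw [Equiv.apply_symm_apply] at this
        exact hxE this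
    · exfalso
      have h3 := h2 _ hd
      rw [Equiv.apply_symm_apply] at h3
      exact hd (h3 ▸ hxD)

end Pool.Agent.Helper91
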