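import Pool.Agent.Helper91.V9

set_option linter.unusedSectionVars false

namespace Pool.Agent.Helper91

open Set Topology Equiv Filter

variable {X : Type*} [TopologicalSpace X] [CLike X]

/-- From a cycle `z` and an element `w` whose supports meet in one piece `Z` one gets the
`3`-cycles on three consecutive pieces. -/
lemma cyc_tri {H : Subgroup (Perm X)} {z w : Perm X} {n : ℕ} {Z : Set X} (hz : IsCyc z n Z)
    (hzH : z ∈ H) (hwH : w ∈ H) (ha : ∀ x ∈ Z, w x ∉ Z)
    (hb : ∀ x, z x ≠ x → w x ≠ x → x ∈ Z) {s : ℕ} (hs : s + 2 < n) :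
    ∃ d ∈ H, (∀ x ∈ Z, d ((z ^ s) x) = (z ^ (s + 1)) x) ∧
      (∀ x ∈ Z, d ((z ^ (s + 1)) x) = (z ^ (s + 2)) x) ∧
      (∀ x ∈ Z, d ((z ^ (s + 2)) x) = (z ^ s) x) ∧
      (∀ y, (∀ x ∈ Z, (z ^ s) x ≠ y) → (∀ x ∈ Z, (z ^ (s + 1)) x ≠ y) →
        (∀ x ∈ Z, (z ^ (s + 2)) x ≠ y) → d y = y) := by
  have hz1 : ∀ x ∈ Z, z x ∉ Z := fun x hx => by
    have := hz.disj 1 (by omega) (by omega) x hx
    rwa [pow_one] at this
  have hzw : ∀ x ∈ Z, z (w x) = w x := by
    intro x hx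
    by_contra h
    apply ha x hx
    apply hb _ h
    intro h2
    have := w.injective h2
    exact ha x hx (by rw [this]; exact hx)
  have hzrw : ∀ (r : ℕ), ∀ x ∈ Z, (z ^ r) (w x) = w x := by
    intro r x hx
    induction r with
    | zero => rfl
    | succ r ih => rw [pow_succ_apply', ih, hzw x hx]
  have hwz : ∀ (r : ℕ), ∀ x ∈ Z, ∀ y ∈ Z, w x ≠ (z ^ r) y := by
    intro r x hx y hy he
    have h1 := hzw x hx
    rw [he, ← pow_succ_apply', pow_succ] at h1
    have h2 : z y = y := (z ^ r).injective h1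
    exact hz1 y hy (by rw [h2]; exact hy)
  obtain ⟨c1, c2, c3, c4⟩ := comm_tri (a := z) (b := w) (I := Z) hz1 ha hb
  set c : Perm X := z * w * z⁻¹ * w⁻¹ with hc
  have hcH : c ∈ H := H.mul_mem (H.mul_mem (H.mul_mem hzH hwH) (H.inv_mem hzH)) (H.inv_mem hwH)
  -- conjugates of `c`
  have conj : ∀ r : ℕ, ∃ q ∈ H, (∀ x ∈ Z, q ((z ^ r) x) = (z ^ (r + 1)) x) ∧
      (∀ x ∈ Z, q ((z ^ (r + 1)) x) = w x) ∧ (∀ x ∈ Z, q (w x) = (z ^ r) x) ∧
      (∀ y, (∀ x ∈ Z, (z ^ r) x ≠ y) → (∀ x ∈ Z, (z ^ (r + 1)) x ≠ y) →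
        (∀ x ∈ Z, w x ≠ y) → q y = y) := by
    intro r
    have ap : ∀ y, (z ^ r * c * (z ^ r)⁻¹) y = (z ^ r) (c ((z ^ r).symm y)) := fun _ => rfl
    refine ⟨z ^ r * c * (z ^ r)⁻¹, H.mul_mem (H.mul_mem (H.pow_mem hzH r) hcH)
      (H.inv_mem (H.pow_mem hzH r)), ?_, ?_, ?_, ?_⟩
    · intro x hx
      rw [ap, Equiv.symm_apply_apply, c1 x hx, pow_succ]; rfl
    · intro x hx
      have e : (z ^ (r + 1)) x = (z ^ r) (z x) := by rw [pow_succ]; rfl
      rw [ap, e, Equiv.symm_apply_apply, c2 x hx, hzrw r x hx]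
    · intro x hx
      have e : (z ^ r).symm (w x) = w x := symm_fix (hzrw r x hx)
      rw [ap, e, c3 x hx]
    · intro y h1 h2 h3
      rw [ap, c4, Equiv.apply_symm_apply]
      · intro h; exact h1 _ h (Equiv.apply_symm_apply _ _)
      · intro h
        apply h2 _ h
        have e : (z ^ (r + 1)) (z.symm ((z ^ r).symm y)) = (z ^ r) (z (z.symm ((z ^ r).symm y))) := by
          rw [pow_succ]; rfl
        rw [e, Equiv.apply_symm_apply, Equiv.apply_symm_apply]
      · intro h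
        apply h3 _ h
        have e := hzrw r _ h
        rw [Equiv.apply_symm_apply, Equiv.apply_symm_apply] at e
        rw [Equiv.apply_symm_apply, ← e]
  obtain ⟨q, hqH, q1, q2, q3, q4⟩ := conj s
  obtain ⟨p, hpH, p1, p2, p3, p4⟩ := conj (s + 1)
  have uq : ∀ r t : ℕ, r < n → t < n → r ≠ t → ∀ x ∈ Z, ∀ y ∈ Z, (z ^ r) x ≠ (z ^ t) y :=
    fun r t hr ht hrt x hx y hy he => hrt (hz.uniq hr ht hx hy he)
  have ap : ∀ y, (p * q⁻¹ * p⁻¹) y = p (q.symm (p.symm y)) := fun _ => rfl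
  have ps : ∀ x ∈ Z, p ((z ^ s) x) = (z ^ s) x := fun x hx =>
    p4 _ (fun y hy => uq _ _ (by omega) (by omega) (by omega) y hy x hx)
      (fun y hy => uq _ _ (by omega) (by omega) (by omega) y hy x hx)
      (fun y hy => hwz s y hy x hx)
  have qs : ∀ x ∈ Z, q ((z ^ (s + 2)) x) = (z ^ (s + 2)) x := fun x hx =>
    q4 _ (fun y hy => uq _ _ (by omega) (by omega) (by omega) y hy x hx)
      (fun y hy => uq _ _ (by omega) (by omega) (by omega) y hy x hx)
      (fun y hy => hwz (s + 2) y hy x hx)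
  refine ⟨p * q⁻¹ * p⁻¹, H.mul_mem (H.mul_mem hpH (H.inv_mem hqH)) (H.inv_mem hpH),
    ?_, ?_, ?_, ?_⟩
  · intro x hx
    have e1 : p.symm ((z ^ s) x) = (z ^ s) x := symm_fix (ps x hx)
    have e2 : q.symm ((z ^ s) x) = w x := by rw [Equiv.symm_apply_eq, q3 x hx]
    rw [ap, e1, e2, p3 x hx]
  · intro x hx
    have e1 : p.symm ((z ^ (s + 1)) x) = w x := by rw [Equiv.symm_apply_eq, p3 x hx]
    have e2 : q.symm (w x) = (z ^ (s + 1)) x := by rw [Equiv.symm_apply_eq, q2 x hx]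
    rw [ap, e1, e2, p1 x hx]
  · intro x hx
    have e1 : p.symm ((z ^ (s + 2)) x) = (z ^ (s + 1)) x := by
      rw [Equiv.symm_apply_eq, p1 x hx]
    have e2 : q.symm ((z ^ (s + 1)) x) = (z ^ s) x := by rw [Equiv.symm_apply_eq, q1 x hx]
    rw [ap, e1, e2, ps x hx]
  · intro y h1 h2 h3
    by_cases hw : ∃ x ∈ Z, w x = y
    · obtain ⟨x, hx, rfl⟩ := hw
      have e1 : p.symm (w x) = (z ^ (s + 2)) x := by rw [Equiv.symm_apply_eq, p2 x hx]
      have e2 : q.symm ((z ^ (s + 2)) x) = (z ^ (s + 2)) x := symm_fix (qs x hx)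
      rw [ap, e1, e2, p2 x hx]
    · push Not at hw
      have e1 : p y = y := p4 y h2 h3 hw
      have e2 : q y = y := q4 y h1 h2 hw
      rw [ap, symm_fix e1, symm_fix e2, e1]

/-- transporting the `3`-cycle -/
lemma transport_tri {G : Subgroup (Perm X)} {z d α g t h : Perm X} {T : Set X} {s : ℕ}
    (ht : IsTri G t T)
    (d1 : ∀ u ∈ T, d ((z ^ s) (h u)) = (z ^ (s + 1)) (h u))
    (d2 : ∀ u ∈ T, d ((z ^ (s + 1)) (h u)) = (z ^ (s + 2)) (h u))
    (d3 : ∀ u ∈ T, d ((z ^ (s + 2)) (h u)) = (z ^ s) (h u))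
    (d4 : ∀ y, (∀ u ∈ T, (z ^ s) (h u) ≠ y) → (∀ u ∈ T, (z ^ (s + 1)) (h u) ≠ y) →
        (∀ u ∈ T, (z ^ (s + 2)) (h u) ≠ y) → d y = y)
    (a1 : ∀ u ∈ T, α ((z ^ s) (h u)) = g u)
    (a2 : ∀ u ∈ T, α ((z ^ (s + 1)) (h u)) = g (t u))
    (a3 : ∀ u ∈ T, α ((z ^ (s + 2)) (h u)) = g (t (t u))) :
    α * d * α⁻¹ = g * t * g⁻¹ := by
  apply Equiv.ext
  intro y
  change α (d (α.symm y)) = g (t (g.symm y))
  by_cases h1 : g.symm y ∈ T
  · have e := a1 _ h1
    rw [Equiv.apply_symm_apply] at e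
    have e' : α.symm y = (z ^ s) (h (g.symm y)) := by rw [Equiv.symm_apply_eq, e]
    rw [e', d1 _ h1, a2 _ h1]
  · by_cases h2 : t (t (g.symm y)) ∈ T
    · -- `g.symm y = t u`
      have e := a2 _ h2
      rw [ht.cube, Equiv.apply_symm_apply] at e
      have e' : α.symm y = (z ^ (s + 1)) (h (t (t (g.symm y)))) := by
        rw [Equiv.symm_apply_eq, e]
      rw [e', d2 _ h2, a3 _ h2, ht.cube]
    · by_cases h3 : t (g.symm y) ∈ T
      · have e := a3 _ h3
        rw [ht.cube, Equiv.apply_symm_apply] at e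
        have e' : α.symm y = (z ^ (s + 2)) (h (t (g.symm y))) := by
          rw [Equiv.symm_apply_eq, e]
        rw [e', d3 _ h3, a1 _ h3]
      · rw [ht.fix _ h1 h3 h2, Equiv.apply_symm_apply, d4, Equiv.apply_symm_apply]
        · intro u hu he
          apply h1
          have := a1 u hu
          rw [he, Equiv.apply_symm_apply] at this
          rw [this, Equiv.symm_apply_apply]; exact hu
        · intro u hu he
          apply h2
          have := a2 u hu
          rw [he, Equiv.apply_symm_apply] at this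
          rw [this, Equiv.symm_apply_apply, ht.cube]; exact hu
        · intro u hu he
          apply h3
          have := a3 u hu
          rw [he, Equiv.apply_symm_apply] at this
          rw [this, Equiv.symm_apply_apply, ht.cube]; exact hu

/-- sets all of whose `3`-cycles lie in `H` -/
def Good (G H : Subgroup (Perm X)) (D : Set X) : Prop := IsClopen D ∧ TG G D ≤ H

lemma Good.conj {G H : Subgroup (Perm X)} (hG : Vig G) {D : Set X} (h : Good G H D) {g : Perm X}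
    (hgG : g ∈ G) (hgH : g ∈ H) : Good G H {x | g x ∈ D} := by
  refine ⟨hG.clopen_pre hgG h.1, fun t ht => ?_⟩
  have h1 : g * t * g⁻¹ ∈ TG G D := by
    refine TG_conj hG hgG (fun x hx hc => hx ?_) ht
    have hc' : g (g.symm x) ∈ D := hc
    rwa [Equiv.apply_symm_apply] at hc'
  have h2 := H.mul_mem (H.mul_mem (H.inv_mem hgH) (h.2 h1)) hgH
  have e : g⁻¹ * (g * t * g⁻¹) * g = t := by group
  rwa [e] at h2

lemma Good.biUnion {G H : Subgroup (Perm X)} (hG : Vig G)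
    (hgen : G ≤ Subgroup.closure (SFix G)) {κ : Type*} (s : Finset κ) (D : κ → Set X) {x0 : X}
    (hD : ∀ a ∈ s, Good G H (D a)) (hx : ∀ a ∈ s, x0 ∈ D a) (hs : s.Nonempty) :
    Good G H (⋃ a ∈ s, D a) := by
  classical
  induction hs using Finset.Nonempty.cons_induction with
  | singleton a => simpa using hD a (by simp)
  | cons a s ha hs ih =>
    have h1 := ih (fun b hb => hD b (Finset.mem_cons_of_mem hb))
      (fun b hb => hx b (Finset.mem_cons_of_mem hb))
    have h2 := hD a (Finset.mem_cons_self a s)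
    obtain ⟨b, hb⟩ := hs
    have hne : (D a ∩ ⋃ b ∈ s, D b).Nonempty := by
      refine ⟨x0, hx a (Finset.mem_cons_self a s), ?_⟩
      simp only [mem_iUnion]
      exact ⟨b, hb, hx b (Finset.mem_cons_of_mem hb)⟩
    have e : (⋃ c ∈ Finset.cons a s ha, D c) = D a ∪ ⋃ b ∈ s, D b := by
      ext y
      simp only [mem_iUnion, mem_union, Finset.mem_cons]
      constructor
      · rintro ⟨c, rfl | hc, hy⟩
        · exact Or.inl hy
        · exact Or.inr ⟨c, hc, hy⟩
      · rintro (hy | ⟨c, hc, hy⟩)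
        · exact ⟨a, Or.inl rfl, hy⟩
        · exact ⟨c, Or.inr hc, hy⟩
    rw [e]
    exact ⟨h2.1.union h1.1, hG.union_le hgen h2.1 h1.1 hne h2.2 h1.2⟩

/-- **Growth**: from one good set to the whole space. -/
lemma Vig.grow {G H : Subgroup (Perm X)} (hG : Vig G) (hs : IsSimpleGroup G) {ν : Type*}
    [Finite ν] (N : Option (Option ν) → ℕ) (c : Option (Option ν) → Perm X)
    (V : Option (Option ν) → Set X) (hcG : ∀ v, c v ∈ G) (hVne : ∀ v, (V v).Nonempty)
    (hcyc : ∀ v, IsCyc (c v) (N v) (V v))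
    (hdisj : ∀ u v s t, s < N u → t < N v → ∀ x ∈ V u, ∀ y ∈ V v,
        (c u ^ s) x = (c v ^ t) y → u = v ∧ s = t)
    (hcov : ∀ y, ∃ v, ∃ s < N v, ∃ x ∈ V v, (c v ^ s) x = y)
    (hcH : ∀ v, c v ∈ H) {α : Perm X} (hαG : α ∈ G) (hαH : α ∈ H) {D : Set X}
    (hD : Good G H D) {r : ℕ} (hr : ∀ v, r < N v) (hα : ∀ v, ∀ x ∈ V v, α ((c v ^ r) x) ∈ D) :
    G ≤ H := by
  classical
  have := Fintype.ofFinite ν
  have hgen := hG.gen hs
  set A : Option (Option ν) := none with hA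
  -- `c u` fixes the pieces of the other cycles
  have hfix : ∀ u v, u ≠ v → ∀ t, ∀ y ∈ V v, c u ((c v ^ t) y) = (c v ^ t) y := by
    intro u v huv t y hy
    rw [← (hcyc v).mod t y]
    refine (hcyc u).fix _ fun s hs x hx he => huv ?_
    exact (hdisj u v s _ hs (Nat.mod_lt _ (hcyc v).pos) x hx y hy he).1
  have hfixp : ∀ u v, u ≠ v → ∀ (l : ℕ) t, ∀ y ∈ V v, (c u ^ l) ((c v ^ t) y) = (c v ^ t) y := by
    intro u v huv l t y hy
    induction l with
    | zero => rfl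
    | succ l ih => rw [pow_succ_apply', ih, hfix u v huv t y hy]
  set M : Set X := {x | (α * c A ^ r) x ∈ D} with hM
  have hMgood : Good G H M := hD.conj hG (G.mul_mem hαG (G.pow_mem (hcG A) r))
    (H.mul_mem hαH (H.pow_mem (hcH A) r))
  have hMA : ∀ x ∈ V A, x ∈ M := fun x hx => hα A x hx
  have hMv : ∀ v, v ≠ A → ∀ x ∈ V v, (c v ^ r) x ∈ M := by
    intro v hv x hx
    change α ((c A ^ r) ((c v ^ r) x)) ∈ D
    rw [hfixp A v (Ne.symm hv) r r x hx]
    exact hα v x hx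
  -- translates
  set K : ℕ := 2 * (∑ v, N v) + 1 with hK
  have hNK : ∀ v, 2 * N v < K := by
    intro v
    have : N v ≤ ∑ v, N v := Finset.single_le_sum (f := N) (fun _ _ => Nat.zero_le _)
      (Finset.mem_univ v)
    omega
  set F : Option (Option ν) × ℕ → Set X := fun p => {x | ((c p.1 ^ p.2)⁻¹ : Perm X) x ∈ M} with hF
  have hFgood : ∀ p, Good G H (F p) := fun p =>
    hMgood.conj hG (G.inv_mem (G.pow_mem (hcG p.1) p.2)) (H.inv_mem (H.pow_mem (hcH p.1) p.2))
  have hinv : ∀ (g : Perm X) (x : X), g⁻¹ x = g.symm x := fun _ _ => rfl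
  obtain ⟨xA, hxA⟩ := hVne A
  obtain ⟨xB0, hxB0⟩ := hVne (some none)
  set xB : X := (c (some none) ^ r) xB0 with hxB
  -- every point of the cycle `v` lies in some translate
  have hin : ∀ v s, s < N v → ∀ x ∈ V v, (∀ y ∈ V v, (c v ^ r) y ∈ M) →
      ∃ l < K, (c v ^ s) x ∈ F (v, l) := by
    intro v s hs x hx hy
    refine ⟨s + (N v - r), ?_, ?_⟩
    · have := hNK v; omega
    · change ((c v ^ (s + (N v - r)))⁻¹ : Perm X) ((c v ^ s) x) ∈ M
      have e : (c v ^ s) x = (c v ^ (s + (N v - r))) ((c v ^ r) x) := by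
        rw [← pow_add_apply]
        have hrv := hr v
        rw [show s + (N v - r) + r = s + N v by omega, pow_add, (hcyc v).pow, mul_one]
      rw [e, hinv, Equiv.symm_apply_apply]
      exact hy x hx
  have hin0 : ∀ s, s < N A → ∀ x ∈ V A, ∃ l < K, (c A ^ s) x ∈ F (A, l) := by
    intro s hs x hx
    refine ⟨s, ?_, ?_⟩
    · have := hNK A; omega
    · change ((c A ^ s)⁻¹ : Perm X) ((c A ^ s) x) ∈ M
      rw [hinv, Equiv.symm_apply_apply]
      exact hMA x hx
  -- the union of translates under the cycles other than `A`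
  set S1 : Finset (Option (Option ν) × ℕ) :=
    (Finset.univ.filter (fun v => v ≠ A)) ×ˢ Finset.range K with hS1
  have g1 : Good G H (⋃ p ∈ S1, F p) := by
    refine Good.biUnion hG hgen S1 F (x0 := xA) (fun p _ => hFgood p) ?_ ?_
    · rintro ⟨v, l⟩ hp
      simp only [hS1, Finset.mem_product, Finset.mem_filter, Finset.mem_univ, true_and] at hp
      change ((c v ^ l)⁻¹ : Perm X) xA ∈ M
      have e : (c v ^ l) xA = xA := hfixp v A hp.1 l 0 xA hxA
      rw [hinv, symm_fix e]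
      exact hMA xA hxA
    · exact ⟨(some none, 0), by simp [hS1, hA, hK]⟩
  set S2 : Finset (Option (Option ν) × ℕ) := ({A} : Finset _) ×ˢ Finset.range K with hS2
  have g2 : Good G H (⋃ p ∈ S2, F p) := by
    refine Good.biUnion hG hgen S2 F (x0 := xB) (fun p _ => hFgood p) ?_ ?_
    · rintro ⟨v, l⟩ hp
      simp only [hS2, Finset.mem_product, Finset.mem_singleton] at hp
      obtain ⟨rfl, -⟩ := hp
      change ((c A ^ l)⁻¹ : Perm X) xB ∈ M
      have e : (c A ^ l) xB = xB := hfixp A (some none) (by simp [hA]) l r xB0 hxB0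
      rw [hinv, symm_fix e]
      exact hMv (some none) (by simp [hA]) xB0 hxB0
    · exact ⟨(A, 0), by simp [hS2, hK]⟩
  have m1 : xA ∈ ⋃ p ∈ S1, F p := by
    simp only [mem_iUnion]
    refine ⟨(some none, 0), by simp [hS1, hA, hK], ?_⟩
    change ((c (some none) ^ 0)⁻¹ : Perm X) xA ∈ M
    simpa using hMA xA hxA
  have m2 : xA ∈ ⋃ p ∈ S2, F p := by
    simp only [mem_iUnion]
    refine ⟨(A, 0), by simp [hS2, hK], ?_⟩
    change ((c A ^ 0)⁻¹ : Perm X) xA ∈ M
    simpa using hMA xA hxA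
  have hU : (⋃ p ∈ S1, F p) ∪ (⋃ p ∈ S2, F p) = univ := by
    rw [eq_univ_iff_forall]
    intro y
    obtain ⟨v, s, hsv, x, hx, rfl⟩ := hcov y
    by_cases hv : v = A
    · right
      subst hv
      obtain ⟨l, hl, h⟩ := hin0 s hsv x hx
      simp only [mem_iUnion]
      exact ⟨(A, l), by simp [hS2, hl], h⟩
    · left
      obtain ⟨l, hl, h⟩ := hin v s hsv x hx (hMv v hv)
      simp only [mem_iUnion]
      exact ⟨(v, l), by simp [hS1, hl, hv], h⟩
  have h3 := hG.union_le hgen g1.1 g2.1 ⟨xA, m1, m2⟩ g1.2 g2.2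
  rw [hU] at h3
  exact (hG.le_TG hs).trans h3

end Pool.Agent.Helper91
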