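import Pool.Agent.Helper91.V10

set_option linter.unusedSectionVars false

namespace Pool.Agent.Helper91

open Set Topology Equiv Filter

section labels

variable {k m L0 b : ℕ} {n : Fin k × Bool → ℕ}

/-- labels of the pieces of the cycle system -/
abbrev Lab (n : Fin k × Bool → ℕ) (b : ℕ) : Type :=
  (v : Option (Option (Fin k × Bool))) × Fin (NN n b v)

/-- indices of the source pieces -/
abbrev Src (n : Fin k × Bool → ℕ) (b m : ℕ) : Type :=
  Lab n b ⊕ (Fin k ⊕ (Fin k × Fin m))

lemma div_lt_aux {s m : ℕ} (h0 : ¬ s = 0) (h : s ≤ 3 * m) : (s - 1) / 3 < m := by omega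

/-- which source a piece belongs to -/
def src (n : Fin k × Bool → ℕ) (b m L0 : ℕ) (l : Lab n b) : Option (Src n b m) :=
  match l.1 with
  | none => if L0 ≤ l.2.1 ∧ l.2.1 < L0 + k then some (Sum.inl l) else none
  | some none => if L0 ≤ l.2.1 ∧ l.2.1 < L0 + k then some (Sum.inl l) else none
  | some (some (i, true)) => if l.2.1 = 0 then some (Sum.inr (Sum.inl i)) else some (Sum.inl l)
  | some (some (i, false)) =>
      if h0 : l.2.1 = 0 then none
      else if h : l.2.1 ≤ 3 * m then
        some (Sum.inr (Sum.inr (i, ⟨(l.2.1 - 1) / 3, div_lt_aux h0 h⟩)))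
      else some (Sum.inl l)

lemma src_inl {l l' : Lab n b} (h : src n b m L0 l = some (Sum.inl l')) : l = l' := by
  obtain ⟨v, s⟩ := l
  rcases v with _ | _ | ⟨i, β⟩
  · simp only [src] at h
    split_ifs at h with h1
    · simpa using h
  · simp only [src] at h
    split_ifs at h with h1
    · simpa using h
  · cases β
    · simp only [src] at h
      split_ifs at h with h1 h2
      · simp at h
      · simpa using h
    · simp only [src] at h
      split_ifs at h with h1
      · simp at h
      · simpa using h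

lemma src_w {l : Lab n b} {i : Fin k} (h : src n b m L0 l = some (Sum.inr (Sum.inl i))) :
    l.1 = some (some (i, true)) ∧ l.2.1 = 0 := by
  obtain ⟨v, s⟩ := l
  rcases v with _ | _ | ⟨i, β⟩
  · simp only [src] at h
    split_ifs at h with h1
    · simp at h
  · simp only [src] at h
    split_ifs at h with h1
    · simp at h
  · cases β
    · simp only [src] at h
      split_ifs at h with h1 h2
      · simp at h
      · simp at h
    · simp only [src] at h
      split_ifs at h with h1
      · simp only [Option.some.injEq, Sum.inr.injEq, Sum.inl.injEq] at h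
        subst h
        exact ⟨rfl, h1⟩
      · simp at h

lemma src_z {l : Lab n b} {i : Fin k} {j : Fin m}
    (h : src n b m L0 l = some (Sum.inr (Sum.inr (i, j)))) :
    l.1 = some (some (i, false)) ∧ 3 * j.1 + 1 ≤ l.2.1 ∧ l.2.1 ≤ 3 * j.1 + 3 := by
  obtain ⟨v, s⟩ := l
  rcases v with _ | _ | ⟨i, β⟩
  · simp only [src] at h
    split_ifs at h with h1
    · simp at h
  · simp only [src] at h
    split_ifs at h with h1
    · simp at h
  · cases β
    · simp only [src] at h
      split_ifs at h with h1 h2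
      · simp only [Option.some.injEq, Sum.inr.injEq, Prod.mk.injEq] at h
        obtain ⟨rfl, rfl⟩ := h
        simp only
        refine ⟨trivial, ?_, ?_⟩ <;> omega
      · simp at h
    · simp only [src] at h
      split_ifs at h with h1
      · simp at h
      · simp at h

/-- owner of a source -/
def own (hk : 0 < k) (L0 : ℕ) : Src n b m → Fin k
  | Sum.inl l => if h : L0 ≤ l.2.1 ∧ l.2.1 < L0 + k then ⟨l.2.1 - L0, by omega⟩ else
      match l.1 with
      | some (some (i, _)) => i
      | _ => ⟨0, hk⟩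
  | Sum.inr (Sum.inl i) => i
  | Sum.inr (Sum.inr (i, _)) => i

/-- connecting pieces -/
lemma src_conn (hL : 3 * m < L0) {l : Lab n b} (h1 : L0 ≤ l.2.1) (h2 : l.2.1 < L0 + k) :
    src n b m L0 l = some (Sum.inl l) := by
  obtain ⟨v, s⟩ := l
  simp only at h1 h2
  rcases v with _ | _ | ⟨i, β⟩
  · simp only [src]; rw [if_pos ⟨h1, h2⟩]
  · simp only [src]; rw [if_pos ⟨h1, h2⟩]
  · cases β
    · simp only [src]; rw [dif_neg (by omega), dif_neg (by omega)]
    · simp only [src]; rw [if_neg (by omega)]

lemma own_conn (hk : 0 < k) {l : Lab n b} {i : Fin k} (h : l.2.1 = L0 + i.1) :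
    own (m := m) hk L0 (Sum.inl l) = i := by
  have h1 : L0 ≤ l.2.1 ∧ l.2.1 < L0 + k := by
    have := i.2; omega
  simp only [own]
  rw [dif_pos h1]
  apply Fin.ext
  simp only
  omega

lemma src_wpos {l : Lab n b} {i : Fin k} (h1 : l.1 = some (some (i, true))) (h2 : l.2.1 ≠ 0) :
    src n b m L0 l = some (Sum.inl l) := by
  obtain ⟨v, s⟩ := l
  simp only at h1 h2
  subst h1
  simp only [src]; rw [if_neg h2]

lemma src_w0 {l : Lab n b} {i : Fin k} (h1 : l.1 = some (some (i, true))) (h2 : l.2.1 = 0) :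
    src n b m L0 l = some (Sum.inr (Sum.inl i)) := by
  obtain ⟨v, s⟩ := l
  simp only at h1 h2
  subst h1
  simp only [src]; rw [if_pos h2]

lemma src_zpos {l : Lab n b} {i : Fin k} (h1 : l.1 = some (some (i, false))) (h2 : l.2.1 ≠ 0) :
    ∃ a, src n b m L0 l = some a ∧ ∀ l' : Lab n b, l'.1 = some (some (i, true)) →
      a ≠ Sum.inl l' := by
  obtain ⟨v, s⟩ := l
  simp only at h1 h2
  subst h1
  simp only [src]
  rw [dif_neg h2]
  by_cases h3 : s.1 ≤ 3 * m
  · rw [dif_pos h3]
    exact ⟨_, rfl, fun l' _ => by simp⟩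
  · rw [dif_neg h3]
    refine ⟨_, rfl, fun l' hl' he => ?_⟩
    simp only [Sum.inl.injEq] at he
    rw [← he] at hl'
    simp at hl'

lemma src_zj {l : Lab n b} {i : Fin k} {j : Fin m} (h1 : l.1 = some (some (i, false)))
    (h2 : 3 * j.1 + 1 ≤ l.2.1) (h3 : l.2.1 ≤ 3 * j.1 + 3) :
    src n b m L0 l = some (Sum.inr (Sum.inr (i, j))) := by
  obtain ⟨v, s⟩ := l
  simp only at h1 h2 h3
  subst h1
  have hj := j.2
  simp only [src]
  rw [dif_neg (by omega), dif_pos (by omega)]
  have : (s.1 - 1) / 3 = j.1 := by omega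
  simp only [this]

lemma src_none_A {l : Lab n b} (h1 : l.1 = none) (h2 : l.2.1 < L0) :
    src n b m L0 l = none := by
  obtain ⟨v, s⟩ := l
  simp only at h1 h2
  subst h1
  simp only [src]; rw [if_neg (by omega)]

lemma src_none_z {l : Lab n b} {i : Fin k} (h1 : l.1 = some (some (i, false)))
    (h2 : l.2.1 = 0) : src n b m L0 l = none := by
  obtain ⟨v, s⟩ := l
  simp only at h1 h2
  subst h1
  simp only [src]; rw [dif_pos h2]

end labels

/-- lengths: pairwise coprime odd numbers -/
lemma exists_lengths (κ : Type*) [Finite κ] (L : ℕ) : ∃ (n : κ → ℕ) (b : ℕ), (∀ v, Odd (n v)) ∧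
    Odd b ∧ (∀ v, L ≤ NN n b v) ∧ (∀ u v, u ≠ v → Nat.Coprime (NN n b u) (NN n b v)) := by
  classical
  obtain ⟨N, ⟨e⟩⟩ := Finite.exists_equiv_fin κ
  set b : ℕ := 2 * L + 1 with hb
  set B : ℕ := 2 * b + 1 with hB
  set n : κ → ℕ := fun v => Nat.nth Nat.Prime (B + 1 + (e v).1) with hn
  have hmono : StrictMono (Nat.nth Nat.Prime) := Nat.nth_strictMono Nat.infinite_setOfPred_prime
  have hp : ∀ v, (n v).Prime := fun v => Nat.prime_nth_prime _
  have hgt : ∀ v, B < n v := fun v => by
    have := hmono.le_apply (x := B + 1 + (e v).1)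
    change B < Nat.nth Nat.Prime (B + 1 + (e v).1)
    omega
  have hinj : ∀ u v, u ≠ v → n u ≠ n v := by
    intro u v huv h
    have h1 := hmono.injective h
    have h2 : (e u).1 = (e v).1 := by omega
    exact huv (e.injective (Fin.ext h2))
  have hc1 : ∀ v (x : ℕ), 0 < x → x ≤ B → Nat.Coprime x (n v) := fun v x hx hxB =>
    (Nat.coprime_of_lt_prime (by omega) (lt_of_le_of_lt hxB (hgt v)) (hp v)).symm
  have hbb : Nat.Coprime B b := by
    rw [hB, mul_comm]
    simp
  refine ⟨n, b, ?_, ⟨L, rfl⟩, ?_, ?_⟩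
  · intro v
    exact (hp v).odd_of_ne_two (by have := hgt v; omega)
  · rintro (_ | _ | v)
    · change L ≤ 2 * b + 1; omega
    · change L ≤ b; omega
    · change L ≤ n v; have := hgt v; omega
  · rintro (_ | _ | u) (_ | _ | v) huv
    · exact absurd rfl huv
    · exact hbb
    · exact hc1 v B (by omega) le_rfl
    · exact hbb.symm
    · exact absurd rfl huv
    · exact hc1 v b (by omega) (by omega)
    · exact (hc1 u B (by omega) le_rfl).symm
    · exact (hc1 u b (by omega) (by omega)).symm
    · change Nat.Coprime (n u) (n v)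
      exact (Nat.coprime_primes (hp u) (hp v)).2 (hinj u v (fun e => huv (by rw [e])))

end Pool.Agent.Helper91
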