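import Pool.Agent.Helper91.V11

set_option linter.unusedSectionVars false

namespace Pool.Agent.Helper91

open Set Topology Equiv Filter

variable {X : Type*} [TopologicalSpace X] [CLike X]

lemma e_lt {k m : ℕ} (i : Fin k) (j : Fin m) : 1 + i.1 * m + j.1 < 3 * m * (k + 1) + 1 := by
  have h1 := i.2
  have h2 := j.2
  have h3 : (i.1 + 1) * m ≤ k * m := Nat.mul_le_mul_right m h1
  have h4 : (i.1 + 1) * m = i.1 * m + m := by ring
  have h5 : 3 * m * (k + 1) = 3 * (k * m) + 3 * m := by ring
  omega

lemma e_inj {k m : ℕ} {i i' : Fin k} {j j' : Fin m} (h : 1 + i.1 * m + j.1 = 1 + i'.1 * m + j'.1) :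
    i = i' ∧ j = j' := by
  have h1 := j.2
  have h2 := j'.2
  have h3 : i.1 = i'.1 := by
    rcases lt_trichotomy i.1 i'.1 with hlt | heq | hgt
    · have : (i.1 + 1) * m ≤ i'.1 * m := Nat.mul_le_mul_right m hlt
      have h4 : (i.1 + 1) * m = i.1 * m + m := by ring
      omega
    · exact heq
    · have : (i'.1 + 1) * m ≤ i.1 * m := Nat.mul_le_mul_right m hgt
      have h4 : (i'.1 + 1) * m = i'.1 * m + m := by ring
      omega
  refine ⟨Fin.ext h3, Fin.ext ?_⟩
  rw [h3] at h
  omega

/-- The core theorem. -/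
theorem Vig.uniform {G : Subgroup (Perm X)} (hG : Vig G) (hs : IsSimpleGroup G) (hfg : G.FG)
    {k : ℕ} (hk : 0 < k) : ∃ σ ∈ G, ∀ α : Fin k → Perm X, (∀ i, α i ∈ G) → (∀ i, α i ≠ 1) →
      ∃ ε ∈ G, ∀ i, G ≤ Subgroup.closure {ε⁻¹ * α i * ε, σ} := by
  classical
  have hgen := hG.gen hs
  have hne : (univ : Set X).Nonempty := by
    have := hs.toNontrivial
    by_contra h
    rw [Set.not_nonempty_iff_eq_empty, Set.univ_eq_empty_iff] at h
    obtain ⟨a, b, hab⟩ := exists_pair_ne G
    apply hab
    apply Subtype.ext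
    ext x
    exact (h.false x).elim
  obtain ⟨D0, hD0, hD0ne, -, y0, -, hy0⟩ := exists_clopen_proper (X := X) isOpen_univ hne
  obtain ⟨t, T, ht, hTne, hTD, htfix, -⟩ := hG.exists_tri_in hD0 hD0ne
  have htG : t ∈ G := hG.tri_mem hgen ht
  have hsupp : ∀ x ∈ triSupp t T, x ∈ D0 := by
    intro x hx
    by_contra hc
    have e := htfix x hc
    rcases hx with h | h | h
    · exact hc (hTD h)
    · rw [e] at h; exact hc (hTD h)
    · rw [e, e] at h; exact hc (hTD h)
  have hT2 : ∃ y, y ∉ T := ⟨y0, fun h => hy0 (hTD h)⟩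
  have hS2 : ∃ y, y ∉ triSupp t T := ⟨y0, fun h => hy0 (hsupp _ h)⟩
  have htT : ∀ (r : ℕ), ∀ u ∈ T, (t ^ r) u ∈ triSupp t T := by
    intro r u hu
    induction r with
    | zero => exact Or.inl hu
    | succ r ih =>
      rw [pow_succ_apply']
      simp only [triSupp, mem_ofPred_eq] at ih ⊢
      rw [ht.cube]; tauto
  obtain ⟨m, g, hgG, hGg⟩ := exists_conj_gen hs hfg htG (ht.ne_one hTne)
  obtain ⟨L0, hL0⟩ : ∃ L0, L0 = 3 * m * (k + 1) + 1 := ⟨_, rfl⟩
  have hL3 : 3 * m < L0 := by
    have : 3 * m * (k + 1) = 3 * (m * k) + 3 * m := by ring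
    omega
  obtain ⟨n, b, hn, hb, hL, hcop⟩ := exists_lengths (Fin k × Bool) (L0 + k)
  have hkne : Nonempty (Fin k × Bool) := ⟨(⟨0, hk⟩, true)⟩
  obtain ⟨c, V, h, hcG, hVc, hVne, hcyc, hh, huniq, hcov⟩ :=
    hG.exists_sys hgen ht.clopen hTne hT2 n hn hb
  obtain ⟨σ, hσ, hcσ⟩ := exists_crt G c (NN n b) hcG
    (fun u v => by
      by_cases huv : u = v
      · subst huv; exact Commute.refl _
      · exact cyc_commute (hcyc u) (hcyc v) fun s t' hs ht' x hx y hy he =>
          huv (huniq u v s t' hs ht' x hx y hy he).1)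
    (fun v => (hcyc v).pow) hcop
  refine ⟨σ, hσ, ?_⟩
  obtain ⟨D', hD'V, hD'c, hD'ne, bb, hbb, hbbD, hTGD'⟩ :=
    hG.exists_copy hgen ht hS2 g hgG hGg (hVc none) (hVne none)
  -- labels
  have hlab : ∀ y, ∃ l : Lab n b, ∃ x ∈ V l.1, (c l.1 ^ l.2.1) x = y := by
    intro y
    obtain ⟨v, s, hsv, x, hx, he⟩ := hcov y
    exact ⟨⟨v, ⟨s, hsv⟩⟩, x, hx, he⟩
  choose lab labx hlabV hlabe using hlab
  have labeq : ∀ (v : Option (Option (Fin k × Bool))) (s : ℕ) (hsv : s < NN n b v), ∀ x ∈ V v,
      lab ((c v ^ s) x) = ⟨v, ⟨s, hsv⟩⟩ := by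
    intro v s hsv x hx
    have := huniq _ v _ s (lab ((c v ^ s) x)).2.2 hsv _ (hlabV _) x hx (hlabe _)
    obtain ⟨h1, h2⟩ := this
    rcases hl : lab ((c v ^ s) x) with ⟨v', s'⟩
    rw [hl] at h1 h2
    simp only at h1 h2
    subst h1
    congr 1
    exact Fin.ext h2
  have labpos : ∀ v, 0 < NN n b v := fun v => (hcyc v).pos
  have labeq0 : ∀ v, ∀ x ∈ V v, lab x = ⟨v, ⟨0, labpos v⟩⟩ := fun v x hx => by
    have := labeq v 0 (labpos v) x hx
    simpa using this
  have labmem : ∀ y (v : Option (Option (Fin k × Bool))) (s : ℕ), (lab y).1 = v →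
      (lab y).2.1 = s → ∃ x ∈ V v, (c v ^ s) x = y := by
    intro y v s h1 h2
    have e1 := hlabV y
    have e2 := hlabe y
    rw [h2] at e2
    rw [h1] at e1 e2
    exact ⟨_, e1, e2⟩
  have labc : ∀ A : Set (Lab n b), IsClopen {y | lab y ∈ A} := by
    intro A
    have e : {y | lab y ∈ A} = ⋃ l : {l // l ∈ A}, {y | (c l.1.1 ^ l.1.2.1).symm y ∈ V l.1.1} := by
      ext y
      simp only [mem_ofPred_eq, mem_iUnion]
      constructor
      · intro hy
        refine ⟨⟨lab y, hy⟩, ?_⟩
        change (c (lab y).1 ^ (lab y).2.1).symm y ∈ V (lab y).1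
        have e3 : (c (lab y).1 ^ (lab y).2.1).symm y = labx y := by
          rw [Equiv.symm_apply_eq]; exact (hlabe y).symm
        rw [e3]; exact hlabV y
      · rintro ⟨⟨l, hl⟩, hy⟩
        simp only at hy
        have := labeq l.1 l.2.1 l.2.2 _ hy
        rw [Equiv.apply_symm_apply] at this
        rw [this]; exact hl
    rw [e]
    exact isClopen_iUnion_of_finite fun l =>
      hG.clopen_inv (G.pow_mem (hcG _) _) (hVc _)
  -- sources
  set P : Src n b m → Set X := fun a => {y | src n b m L0 (lab y) = some a} with hP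
  have hPc : ∀ a, IsClopen (P a) := fun a => labc {l | src n b m L0 l = some a}
  -- sites
  obtain ⟨S, yS, S1, S2, S3, S4, S5, S6⟩ := exists_sites (κ := Lab n b) hD'c.isOpen hD'ne
  have hfs : ∀ l : Lab n b, ∃ f ∈ G, ∀ y, lab y = l → f y ∈ S l := by
    intro l
    have hy : ∃ y, lab y ≠ l := by
      obtain ⟨xA, hxA⟩ := hVne none
      obtain ⟨xB, hxB⟩ := hVne (some none)
      by_cases hl : lab xA = l
      · refine ⟨xB, fun hl2 => ?_⟩
        rw [← hl, labeq0 _ _ hxA, labeq0 _ _ hxB] at hl2
        have := congrArg Sigma.fst hl2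
        simp at this
      · exact ⟨xA, hl⟩
    obtain ⟨y, hy⟩ := hy
    obtain ⟨f, hf, hf1, -⟩ := hG.move (D := univ) (A := {y | lab y ∈ ({l} : Set (Lab n b))})
      isClopen_univ (labc {l}) (S1 l) (subset_univ _) (subset_univ _) (S2 l)
      ⟨y, trivial, fun h => hy h⟩
    exact ⟨f, hf, fun y hy => hf1 y hy⟩
  choose fs hfsG hfs using hfs
  -- the maps on the triples of pieces of `z_i`
  have hfz : ∀ (i : Fin k) (j : Fin m), ∃ f ∈ G, ∀ r : ℕ, r < 3 → ∀ u ∈ T,
      f ((c (some (some (i, false))) ^ (3 * j.1 + 1 + r)) (h (i, false) u)) =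
        (c none ^ (1 + i.1 * m + j.1)) (bb j ((t ^ r) u)) := by
    intro i j
    set z := c (some (some (i, false))) with hz
    have hzN : ∀ r < 3, 3 * j.1 + 1 + r < NN n b (some (some (i, false))) := by
      intro r hr
      have h1 := hL (some (some (i, false)))
      have h2 := j.2
      omega
    have hVz : V (some (some (i, false))) = {y | (h (i, false)).symm y ∈ T} := (hh (i, false)).2
    have hmV : ∀ u ∈ T, h (i, false) u ∈ V (some (some (i, false))) := by
      intro u hu
      rw [hVz]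
      change (h (i, false)).symm (h (i, false) u) ∈ T
      rw [Equiv.symm_apply_apply]; exact hu
    set Q : ℕ → Perm X := fun r => z ^ (3 * j.1 + 1 + r) * h (i, false) with hQ
    have hQG : ∀ r, Q r ∈ G := fun r => G.mul_mem (G.pow_mem (hcG _) _) (hh (i, false)).1
    have hQa : ∀ r u, Q r u = (z ^ (3 * j.1 + 1 + r)) (h (i, false) u) := fun _ _ => rfl
    have hQd : ∀ r < 3, ∀ r' < 3, r ≠ r' → ∀ u ∈ T, ∀ u' ∈ T, Q r u ≠ Q r' u' := by
      intro r hr r' hr' hrr u hu u' hu' he
      have := (huniq _ _ _ _ (hzN r hr) (hzN r' hr') _ (hmV u hu) _ (hmV u' hu') he).2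
      omega
    set R : ℕ → Perm X := fun r => c none ^ (1 + i.1 * m + j.1) * bb j * t ^ r with hR
    have hRG : ∀ r, R r ∈ G := fun r =>
      G.mul_mem (G.mul_mem (G.pow_mem (hcG _) _) (hbb j)) (G.pow_mem htG r)
    have hRa : ∀ r u, R r u = (c none ^ (1 + i.1 * m + j.1)) (bb j ((t ^ r) u)) := fun _ _ => rfl
    have htd : ∀ r < 3, ∀ r' < 3, r ≠ r' → ∀ u ∈ T, ∀ u' ∈ T, (t ^ r) u ≠ (t ^ r') u' := by
      have main : ∀ r r', r < r' → r' < 3 → ∀ u ∈ T, ∀ u' ∈ T, (t ^ r) u ≠ (t ^ r') u' := by
        intro r r' hrr hr' u hu u' hu' he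
        obtain ⟨q, rfl⟩ : ∃ q, r' = r + (q + 1) := ⟨r' - r - 1, by omega⟩
        rw [pow_add_apply] at he
        have he' := (t ^ r).injective he
        have hq : q = 0 ∨ q = 1 := by omega
        rcases hq with rfl | rfl
        · have e : (t ^ (0 + 1)) u' = t u' := rfl
          rw [e] at he'
          exact ht.d1 u' hu' (he' ▸ hu)
        · have e : (t ^ (1 + 1)) u' = t (t u') := rfl
          rw [e] at he'
          exact ht.d2 u' hu' (he' ▸ hu)
      intro r hr r' hr' hrr u hu u' hu' he
      rcases lt_or_gt_of_ne hrr with hlt | hgt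
      · exact main r r' hlt hr' u hu u' hu' he
      · exact main r' r hgt hr u' hu' u hu he.symm
    obtain ⟨f, hf, hf1⟩ := hG.extMulti hgen (D := univ) isClopen_univ (Finset.range 3)
      (fun r => {y | (Q r).symm y ∈ T}) (fun r => R r * (Q r)⁻¹)
      (fun r _ => hG.clopen_inv (hQG r) ht.clopen) (fun _ _ => subset_univ _)
      (fun r _ => G.mul_mem (hRG r) (G.inv_mem (hQG r))) (fun _ _ _ _ => trivial)
      (fun r hr r' hr' hrr x hx hx' => by
        have hx1 : (Q r).symm x ∈ T := hx
        have hx2 : (Q r').symm x ∈ T := hx'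
        apply hQd r (Finset.mem_range.1 hr) r' (Finset.mem_range.1 hr') hrr _ hx1 _ hx2
        rw [Equiv.apply_symm_apply, Equiv.apply_symm_apply])
      (fun r hr r' hr' hrr x hx y hy he => by
        have hx1 : (Q r).symm x ∈ T := hx
        have hy1 : (Q r').symm y ∈ T := hy
        have he' : R r ((Q r).symm x) = R r' ((Q r').symm y) := he
        rw [hRa, hRa] at he'
        have he2 := (bb j).injective ((c none ^ (1 + i.1 * m + j.1)).injective he')
        exact htd r (Finset.mem_range.1 hr) r' (Finset.mem_range.1 hr') hrr _ hx1 _ hy1 he2)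
      (by
        obtain ⟨xA, hxA⟩ := hVne none
        refine ⟨xA, trivial, fun r hr hc => ?_⟩
        have hc1 : (Q r).symm xA ∈ T := hc
        have e : (z ^ (3 * j.1 + 1 + r)) (h (i, false) ((Q r).symm xA)) = (c none ^ 0) xA := by
          rw [← hQa, Equiv.apply_symm_apply]; rfl
        have := (huniq _ _ _ _ (hzN r (Finset.mem_range.1 hr)) (labpos none) _
          (hmV _ hc1) _ hxA e).1
        simp at this)
      (by
        obtain ⟨xB, hxB⟩ := hVne (some none)
        refine ⟨xB, trivial, fun r hr hc => ?_⟩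
        have hc1 : (Q r).symm ((R r * (Q r)⁻¹).symm xB) ∈ T := hc
        have e1 : (Q r).symm ((R r * (Q r)⁻¹).symm xB) = (R r).symm xB := by
          rw [Equiv.symm_apply_eq]; rfl
        rw [e1] at hc1
        have e : (c none ^ (1 + i.1 * m + j.1)) (bb j ((t ^ r) ((R r).symm xB))) =
            (c (some none) ^ 0) xB := by
          rw [← hRa, Equiv.apply_symm_apply]; rfl
        have hlt : 1 + i.1 * m + j.1 < NN n b none := by
          have h1 := e_lt i j
          have h2 := hL none
          omega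
        have := (huniq _ _ _ _ hlt (labpos (some none)) _
          (hD'V (hbbD j _ (htT r _ hc1))) _ hxB e).1
        simp at this)
    refine ⟨f, hG.TG_le hgen _ hf, fun r hr u hu => ?_⟩
    have := hf1 r (Finset.mem_range.2 hr) (Q r u)
      (by change (Q r).symm (Q r u) ∈ T; rw [Equiv.symm_apply_apply]; exact hu)
    rw [← hQa, this]
    change R r ((Q r).symm (Q r u)) = _
    rw [Equiv.symm_apply_apply]
    exact hRa r u
  choose fz hfzG hfz using hfz
  -- the maps
  set f : Src n b m → Perm X := fun a => match a with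
    | Sum.inl l => fs l
    | Sum.inr (Sum.inl i) => h (i, false) * (h (i, true))⁻¹
    | Sum.inr (Sum.inr (i, j)) => fz i j with hf
  have hfG : ∀ a, f a ∈ G := by
    rintro (l | i | ⟨i, j⟩)
    · exact hfsG l
    · exact G.mul_mem (hh (i, false)).1 (G.inv_mem (hh (i, true)).1)
    · exact hfzG i j
  have hlt : ∀ (i : Fin k) (j : Fin m), 1 + i.1 * m + j.1 < NN n b none := by
    intro i j
    have h1 := e_lt i j
    have h2 := hL none
    omega
  set tl : Src n b m → Lab n b := fun a => match a with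
    | Sum.inl _ => ⟨none, ⟨0, labpos none⟩⟩
    | Sum.inr (Sum.inl i) => ⟨some (some (i, false)), ⟨0, labpos _⟩⟩
    | Sum.inr (Sum.inr (i, j)) => ⟨none, ⟨1 + i.1 * m + j.1, hlt i j⟩⟩ with htl
  have hPsite : ∀ l, ∀ x ∈ P (Sum.inl l), lab x = l := fun l x hx => src_inl hx
  have hfw : ∀ (i : Fin k) x, x ∈ V (some (some (i, true))) →
      (h (i, false) * (h (i, true))⁻¹) x ∈ V (some (some (i, false))) := by
    intro i x hx
    rw [(hh (i, true)).2] at hx
    rw [(hh (i, false)).2]
    change (h (i, false)).symm (h (i, false) ((h (i, true)).symm x)) ∈ T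
    rw [Equiv.symm_apply_apply]; exact hx
  have key : ∀ a, ∀ x ∈ P a, lab (f a x) = tl a := by
    rintro (l | i | ⟨i, j⟩) x hx
    · have h1 := hPsite l x hx
      have h2 := hD'V (S3 _ (hfs l x h1))
      exact labeq0 none _ h2
    · obtain ⟨h1, h2⟩ := src_w hx
      obtain ⟨x0, hx0, he⟩ := labmem x _ 0 h1 h2
      have he' : x0 = x := he
      subst he'
      exact labeq0 _ _ (hfw i x0 hx0)
    · obtain ⟨h1, h2, h3⟩ := src_z hx
      obtain ⟨r, hr, hre⟩ : ∃ r < 3, (lab x).2.1 = 3 * j.1 + 1 + r :=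
        ⟨(lab x).2.1 - (3 * j.1 + 1), by omega, by omega⟩
      obtain ⟨x0, hx0, he⟩ := labmem x _ _ h1 hre
      rw [(hh (i, false)).2] at hx0
      have hx0' : (h (i, false)).symm x0 ∈ T := hx0
      have h4 := hfz i j r hr _ hx0'
      rw [Equiv.apply_symm_apply, he] at h4
      change lab (fz i j x) = _
      rw [h4]
      exact labeq none _ (hlt i j) _ (hD'V (hbbD j _ (htT r _ hx0')))
  have srctl : ∀ a, src n b m L0 (tl a) = none := by
    rintro (l | i | ⟨i, j⟩)
    · exact src_none_A rfl (by change 0 < L0; omega)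
    · exact src_none_z rfl rfl
    · exact src_none_A rfl (by
        change 1 + i.1 * m + j.1 < L0
        have := e_lt i j
        omega)
  intro α hα hα1
  obtain ⟨ε, hε, E1, E2⟩ := hG.place hgen P f (own hk L0) hPc hfG
    (fun a b hab x hx hx' => by
      have h1 : src n _ m L0 (lab x) = some a := hx
      have h2 : src n _ m L0 (lab x) = some b := hx'
      rw [h1] at h2
      exact hab (Option.some.inj h2))
    (fun a a' hab x hx y hy he => by
      have h1 := key a x hx
      have h2 := key a' y hy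
      rw [he, h2] at h1
      rcases a with l | i | ⟨i, j⟩ <;> rcases a' with l' | i' | ⟨i', j'⟩
      · have hl : l ≠ l' := fun e => hab (by rw [e])
        have e1 := hfs l x (hPsite l x hx)
        have e2 := hfs l' y (hPsite l' y hy)
        have he' : fs l x = fs l' y := he
        exact S4 l l' hl _ e1 (he' ▸ e2)
      · have := congrArg Sigma.fst h1; simp [htl] at this
      · rw [Sigma.mk.inj_iff] at h1
        have h3 := eq_of_heq h1.2
        have h4 := congrArg Fin.val h3
        simp at h4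
      · have := congrArg Sigma.fst h1; simp [htl] at this
      · have h3 := congrArg Sigma.fst h1
        simp only [htl, Option.some.injEq, Prod.mk.injEq, and_true] at h3
        exact hab (by rw [h3])
      · have := congrArg Sigma.fst h1; simp [htl] at this
      · rw [Sigma.mk.inj_iff] at h1
        have h3 := eq_of_heq h1.2
        have h4 := congrArg Fin.val h3
        simp at h4
        omega
      · have := congrArg Sigma.fst h1; simp [htl] at this
      · rw [Sigma.mk.inj_iff] at h1
        have h3 := eq_of_heq h1.2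
        have h4 := congrArg Fin.val h3
        simp only at h4
        obtain ⟨h5, h6⟩ := e_inj h4
        exact hab (by rw [h5, h6]))
    (fun a a' x hx hc => by
      have hc' : src n _ m L0 (lab (f a x)) = some a' := hc
      rw [key a x hx, srctl a] at hc'
      simp at hc')
    (by
      have hyA : lab yS = ⟨none, ⟨0, labpos none⟩⟩ := labeq0 none _ (hD'V S5)
      refine ⟨yS, fun a ha => ?_, fun a ha => ?_⟩
      · have ha' : src n _ m L0 (lab yS) = some a := ha
        rw [hyA, src_none_A rfl (by change 0 < L0; omega)] at ha'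
        simp at ha'
      · have h1 := key a _ ha
        rw [Equiv.apply_symm_apply, hyA] at h1
        rcases a with l | i | ⟨i, j⟩
        · have h2 := hfs l _ (hPsite l _ ha)
          have h3 : fs l ((fs l).symm yS) = yS := Equiv.apply_symm_apply _ _
          have h4 : fs l ((fs l).symm yS) ∈ S l := h2
          rw [h3] at h4
          exact S6 l h4
        · have := congrArg Sigma.fst h1; simp [htl] at this
        · rw [Sigma.mk.inj_iff] at h1
          have h3 := eq_of_heq h1.2
          have h4 := congrArg Fin.val h3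
          simp at h4
          omega) α hα hα1
  refine ⟨ε, hε, fun i => ?_⟩
  set α' : Perm X := ε⁻¹ * α i * ε with hα'
  have α'a : ∀ x, α' x = ε.symm (α i (ε x)) := fun _ => rfl
  have hα'G : α' ∈ G := G.mul_mem (G.mul_mem (G.inv_mem hε) (hα i)) hε
  set H : Subgroup (Perm X) := Subgroup.closure {α', σ} with hH
  have hα'H : α' ∈ H := Subgroup.subset_closure (by simp)
  have hσH : σ ∈ H := Subgroup.subset_closure (by simp)
  have hcH : ∀ v, c v ∈ H := by
    intro v
    have h1 : Subgroup.zpowers σ ≤ H := by rw [Subgroup.zpowers_le]; exact hσH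
    exact h1 (hcσ v)
  -- values of `α'`
  have val : ∀ a, own hk L0 a = i → ∀ x ∈ P a, α' x = f a x := by
    intro a ha x hx
    rw [α'a, ← ha]
    exact E1 a x hx
  set z : Perm X := c (some (some (i, false))) with hz
  set w : Perm X := c (some (some (i, true))) with hw
  set Z : Set X := V (some (some (i, false))) with hZ
  set W : Set X := V (some (some (i, true))) with hW
  have hN0 : ∀ v, L0 + k ≤ NN n b v := hL
  have hαW : ∀ u ∈ W, α' u = (h (i, false) * (h (i, true))⁻¹) u := by
    intro u hu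
    have hu' : u ∈ P (Sum.inr (Sum.inl i)) := by
      change src n b m L0 (lab u) = _
      rw [labeq0 _ u hu]
      exact src_w0 rfl rfl
    exact val _ rfl u hu'
  have hαWZ : ∀ u ∈ W, α' u ∈ Z := by
    intro u hu
    rw [hαW u hu]; exact hfw i u hu
  have hαZW : ∀ x ∈ Z, α'.symm x ∈ W := by
    intro x hx
    have hx' : (h (i, false)).symm x ∈ T := by
      rw [hZ, (hh (i, false)).2] at hx; exact hx
    have hu : h (i, true) ((h (i, false)).symm x) ∈ W := by
      rw [hW, (hh (i, true)).2]
      change (h (i, true)).symm _ ∈ T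
      rw [Equiv.symm_apply_apply]; exact hx'
    have e : α' (h (i, true) ((h (i, false)).symm x)) = x := by
      rw [hαW _ hu]
      change h (i, false) ((h (i, true)).symm (h (i, true) ((h (i, false)).symm x))) = x
      rw [Equiv.symm_apply_apply, Equiv.apply_symm_apply]
    have e2 : α'.symm x = h (i, true) ((h (i, false)).symm x) := by
      rw [Equiv.symm_apply_eq]; exact e.symm
    rw [e2]; exact hu
  set w' : Perm X := α' * w * α'⁻¹ with hw'
  have w'a : ∀ x, w' x = α' (w (α'.symm x)) := fun _ => rfl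
  have hw'H : w' ∈ H := H.mul_mem (H.mul_mem hα'H (hcH _)) (H.inv_mem hα'H)
  have hmoved : ∀ v, ∀ x, c v x ≠ x → ∃ s < NN n b v, ∃ x0 ∈ V v, (c v ^ s) x0 = x := by
    intro v x hx
    by_contra hc
    push Not at hc
    exact hx ((hcyc v).fix x hc)
  have hA : ∀ x ∈ Z, w' x ∉ Z := by
    intro x hx hc
    have h1 := hαZW _ hc
    rw [w'a, Equiv.symm_apply_apply] at h1
    have h2 := (hcyc (some (some (i, true)))).disj 1 (by omega)
      (by have := hN0 (some (some (i, true))); omega) _ (hαZW x hx)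
    rw [pow_one] at h2
    exact h2 h1
  have hB : ∀ x, z x ≠ x → w' x ≠ x → x ∈ Z := by
    intro x hzx hwx
    obtain ⟨s, hs1, x0, hx0, hxe⟩ := hmoved _ x hzx
    by_cases hs0 : s = 0
    · subst hs0
      have : x0 = x := hxe
      rw [← this]; exact hx0
    have hwu : w (α'.symm x) ≠ α'.symm x := by
      intro he
      apply hwx
      rw [w'a, he, Equiv.apply_symm_apply]
    obtain ⟨s', hs1', u0, hu0, hue⟩ := hmoved _ _ hwu
    by_cases hs0' : s' = 0
    · subst hs0'
      have hu : u0 = α'.symm x := hue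
      have := hαWZ _ hu0
      rw [hu, Equiv.apply_symm_apply] at this
      exact this
    exfalso
    have lx : lab x = ⟨some (some (i, false)), ⟨s, hs1⟩⟩ := by
      rw [← hxe]; exact labeq _ s hs1 x0 hx0
    have lu : lab (α'.symm x) = ⟨some (some (i, true)), ⟨s', hs1'⟩⟩ := by
      rw [← hue]; exact labeq _ s' hs1' u0 hu0
    have hPu : α'.symm x ∈ P (Sum.inl (lab (α'.symm x))) := by
      change src n b m L0 (lab (α'.symm x)) = _
      exact src_wpos (i := i) (by rw [lu]) (by rw [lu]; exact hs0')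
    obtain ⟨a, ha1, ha2⟩ := src_zpos (m := m) (L0 := L0) (l := lab x) (i := i) (by rw [lx])
      (by rw [lx]; exact hs0)
    have hPx : x ∈ P a := ha1
    have hne2 : Sum.inl (lab (α'.symm x)) ≠ a := by
      intro e
      exact ha2 (lab (α'.symm x)) (by rw [lu]) e.symm
    apply E2 i _ _ hne2 _ hPu
    rw [← α'a, Equiv.apply_symm_apply]
    exact hPx
  -- the generators of the alternating group of the copy
  have hgens : ∀ j : Fin m, bb j * t * (bb j)⁻¹ ∈ H := by
    intro j
    have hj := j.2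
    have hNz := hN0 (some (some (i, false)))
    obtain ⟨d, hdH, d1, d2, d3, d4⟩ := cyc_tri (hcyc (some (some (i, false)))) (hcH _) hw'H hA hB
      (s := 3 * j.1 + 1) (by omega)
    have hhZ : ∀ u ∈ T, h (i, false) u ∈ Z := by
      intro u hu
      rw [hZ, (hh (i, false)).2]
      change (h (i, false)).symm (h (i, false) u) ∈ T
      rw [Equiv.symm_apply_apply]; exact hu
    have hZh : ∀ x ∈ Z, ∃ u ∈ T, h (i, false) u = x := by
      intro x hx
      rw [hZ, (hh (i, false)).2] at hx
      exact ⟨_, hx, Equiv.apply_symm_apply _ _⟩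
    have hval : ∀ r < 3, ∀ u ∈ T, α' ((z ^ (3 * j.1 + 1 + r)) (h (i, false) u)) =
        (c none ^ (1 + i.1 * m + j.1)) (bb j ((t ^ r) u)) := by
      intro r hr u hu
      have hlt2 : 3 * j.1 + 1 + r < NN n b (some (some (i, false))) := by omega
      have hx : (z ^ (3 * j.1 + 1 + r)) (h (i, false) u) ∈ P (Sum.inr (Sum.inr (i, j))) := by
        change src n b m L0 (lab _) = _
        rw [labeq _ _ hlt2 _ (hhZ u hu)]
        exact src_zj rfl (by change 3 * j.1 + 1 ≤ 3 * j.1 + 1 + r; omega)
          (by change 3 * j.1 + 1 + r ≤ 3 * j.1 + 3; omega)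
      rw [val _ rfl _ hx]
      exact hfz i j r hr u hu
    have htr := transport_tri (z := z) (d := d) (α := α')
      (g := c none ^ (1 + i.1 * m + j.1) * bb j) (h := h (i, false)) (s := 3 * j.1 + 1) ht
      (fun u hu => d1 _ (hhZ u hu)) (fun u hu => d2 _ (hhZ u hu)) (fun u hu => d3 _ (hhZ u hu))
      (fun y h1 h2 h3 => d4 y
        (fun x hx => by obtain ⟨u, hu, rfl⟩ := hZh x hx; exact h1 u hu)
        (fun x hx => by obtain ⟨u, hu, rfl⟩ := hZh x hx; exact h2 u hu)
        (fun x hx => by obtain ⟨u, hu, rfl⟩ := hZh x hx; exact h3 u hu))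
      (fun u hu => hval 0 (by omega) u hu) (fun u hu => hval 1 (by omega) u hu)
      (fun u hu => hval 2 (by omega) u hu)
    have hmem : (c none ^ (1 + i.1 * m + j.1) * bb j) * t *
        (c none ^ (1 + i.1 * m + j.1) * bb j)⁻¹ ∈ H := by
      rw [← htr]
      exact H.mul_mem (H.mul_mem hα'H hdH) (H.inv_mem hα'H)
    have hcp : c none ^ (1 + i.1 * m + j.1) ∈ H := H.pow_mem (hcH _) _
    have e : bb j * t * (bb j)⁻¹ = (c none ^ (1 + i.1 * m + j.1))⁻¹ *
        ((c none ^ (1 + i.1 * m + j.1) * bb j) * t *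
        (c none ^ (1 + i.1 * m + j.1) * bb j)⁻¹) * c none ^ (1 + i.1 * m + j.1) := by group
    rw [e]
    exact H.mul_mem (H.mul_mem (H.inv_mem hcp) hmem) hcp
  have hgood : Good G H D' := by
    refine ⟨hD'c, hTGD'.trans ?_⟩
    rw [Subgroup.closure_le]
    rintro _ ⟨j, rfl⟩
    exact hgens j
  refine hG.grow hs (NN n b) c V hcG hVne hcyc huniq hcov hcH hα'G hα'H hgood (r := L0 + i.1)
    (fun v => by have := hN0 v; have := i.2; omega) ?_
  intro v x hx
  have hi := i.2
  have hlt3 : L0 + i.1 < NN n b v := by have := hN0 v; omega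
  have hl := labeq v _ hlt3 x hx
  have hmemP : (c v ^ (L0 + i.1)) x ∈ P (Sum.inl (lab ((c v ^ (L0 + i.1)) x))) := by
    change src n b m L0 (lab _) = _
    apply src_conn hL3
    · rw [hl]; change L0 ≤ L0 + i.1; omega
    · rw [hl]; change L0 + i.1 < L0 + k; omega
  rw [val _ (own_conn hk (by rw [hl])) _ hmemP]
  exact S3 _ (hfs _ _ rfl)

end Pool.Agent.Helper91
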