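import Pool.Agent.Helper91.V12

set_option linter.unusedSectionVars false

namespace Pool.Agent.Helper91

open Set Topology Equiv Filter

/-- the Cantor space has the properties used above -/
instance cantorCLike : CLike (ℕ → Bool) where
  inf := by
    intro U hU ⟨x, hx⟩
    -- a finite set of coordinates controls membership in `U` near `x`
    obtain ⟨I, u, hu, hsub⟩ := isOpen_pi_iff.1 hU x hx
    obtain ⟨N, hN⟩ : ∃ N, ∀ i ∈ I, i < N := ⟨I.sup id + 1, fun i hi => by
      have := Finset.le_sup (f := id) hi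
      simp only [id] at this
      omega⟩
    have hmem : ∀ n, Function.update x (N + n) (!x (N + n)) ∈ U := by
      intro n
      apply hsub
      intro i hi
      have hi' := hN i hi
      rw [Function.update_of_ne (by omega)]
      exact (hu i hi).2
    refine Set.infinite_of_injective_forall_mem (f := fun n => Function.update x (N + n)
      (!x (N + n))) ?_ hmem
    intro n m hnm
    by_contra hne
    have h1 := congrFun hnm (N + n)
    simp only [Function.update_self] at h1
    rw [Function.update_of_ne (by omega)] at h1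
    simp at h1

variable {X : Type*} [TopologicalSpace X]

/-- homeomorphisms as permutations -/
def permHom (X : Type*) [TopologicalSpace X] : (X ≃ₜ X) →* Perm X where
  toFun h := h.toEquiv
  map_one' := rfl
  map_mul' _ _ := rfl

lemma permHom_injective : Function.Injective (permHom X) := Homeomorph.toEquiv_injective

theorem uniform_homeo [CLike X] (G : Subgroup (X ≃ₜ X))
    (hv : ∀ A B C : Set X, IsClopen A → IsClopen B → IsClopen C → B.Nonempty → C.Nonempty →
      B ⊂ A → C ⊂ A → ∃ γ ∈ G, γ '' B ⊆ C ∧ ∀ x ∉ A, γ x = x)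
    (hs : IsSimpleGroup G) (hfg : Group.FG G) (k : ℕ) :
    ∃ σ : G, ∀ α : Fin k → G, (∀ i, α i ≠ 1) →
      ∃ β : G, IsConj σ β ∧ ∀ i, Subgroup.closure {α i, β} = ⊤ := by
  classical
  rcases Nat.eq_zero_or_pos k with rfl | hk
  · exact ⟨1, fun α _ => ⟨1, IsConj.refl 1, fun i => i.elim0⟩⟩
  set φ := permHom X with hφ
  have hφi : Function.Injective φ := permHom_injective
  set G' : Subgroup (Perm X) := G.map φ with hG'
  have hvig : Vig G' := by
    constructor
    · rintro g ⟨γ, -, rfl⟩
      exact γ.continuous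
    · intro A B C hA hB hC hBne hCne hBA hCA
      obtain ⟨γ, hγ, h1, h2⟩ := hv A B C hA hB hC hBne hCne hBA hCA
      exact ⟨φ γ, ⟨γ, hγ, rfl⟩, fun x hx => h1 ⟨x, hx, rfl⟩, fun x hx => h2 x hx⟩
  have hs' : IsSimpleGroup G' := by
    have e := G.equivMapOfInjective φ hφi
    exact e.symm.isSimpleGroup
  have hfg' : G'.FG := by
    obtain ⟨S, hS⟩ := (Group.fg_iff_subgroup_fg G).1 hfg
    refine ⟨S.image φ, ?_⟩
    rw [Finset.coe_image, ← MonoidHom.map_closure, hS]
  obtain ⟨σ', ⟨s, hs1, rfl⟩, hσ⟩ := hvig.uniform hs' hfg' hk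
  refine ⟨⟨s, hs1⟩, fun α hα => ?_⟩
  obtain ⟨ε', ⟨e, he1, rfl⟩, hε⟩ := hσ (fun i => φ (α i))
    (fun i => ⟨α i, (α i).2, rfl⟩)
    (fun i h => hα i (Subtype.ext (hφi (by rw [h]; rfl))))
  set E : G := ⟨e, he1⟩ with hE
  set S : G := ⟨s, hs1⟩ with hS
  refine ⟨E * S * E⁻¹, isConj_iff.2 ⟨E, rfl⟩, fun i => ?_⟩
  -- first the conjugated statement
  have key : Subgroup.closure {E⁻¹ * α i * E, S} = ⊤ := by
    rw [eq_top_iff]
    intro x _
    have h1 : φ x ∈ Subgroup.closure {(φ e)⁻¹ * φ (α i) * φ e, φ s} := hε i ⟨x, x.2, rfl⟩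
    have h2 : ({(φ e)⁻¹ * φ (α i) * φ e, φ s} : Set (Perm X)) =
        (φ.comp G.subtype) '' {E⁻¹ * α i * E, S} := by
      rw [Set.image_pair]
      rfl
    rw [h2, ← MonoidHom.map_closure] at h1
    obtain ⟨y, hy, hyx⟩ := h1
    have : y = x := Subtype.ext (hφi hyx)
    rw [← this]; exact hy
  have h3 : (Subgroup.closure {E⁻¹ * α i * E, S}).map (MulAut.conj E).toMonoidHom =
      Subgroup.closure {α i, E * S * E⁻¹} := by
    rw [MonoidHom.map_closure, Set.image_pair]
    have e1 : (MulAut.conj E).toMonoidHom (E⁻¹ * α i * E) = α i := by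
      change E * (E⁻¹ * α i * E) * E⁻¹ = α i
      group
    have e2 : (MulAut.conj E).toMonoidHom S = E * S * E⁻¹ := rfl
    rw [e1, e2]
  rw [← h3, key, ← MonoidHom.range_eq_map, MonoidHom.range_eq_top]
  exact (MulAut.conj E).surjective

end Pool.Agent.Helper91
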