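import Pool.Agent.Helper91.V1

set_option linter.unusedSectionVars false

namespace Pool.Agent.Helper91

open Set Topology Equiv Filter

variable {X : Type*} [TopologicalSpace X] [CLike X]

/-- small clopen neighbourhood of a moved point, displaced by `s` -/
lemma Vig.displace {G : Subgroup (Perm X)} (hG : Vig G) {s : Perm X} (hs : s ∈ G) {x : X}
    (hx : s x ≠ x) {F : Set X} (hF : F.Finite) (h1 : x ∉ F) (h2 : s x ∉ F) :
    ∃ I, IsClopen I ∧ x ∈ I ∧ (∀ z ∈ I, s z ∉ I) ∧ ∀ y ∈ F, y ∉ I ∧ s.symm y ∉ I := by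
  obtain ⟨V, hV, hxV, -, hsV⟩ := exists_clopen_avoid (X := X) isOpen_univ (mem_univ x)
    (Set.finite_singleton (s x)) (by simpa using fun h => hx h.symm)
  have hsV' : s x ∉ V := hsV _ rfl
  have hF2 : (F ∪ s.symm '' F).Finite := hF.union (hF.image _)
  have hxF2 : x ∉ F ∪ s.symm '' F := by
    rintro (h | ⟨y, hy, hyx⟩)
    · exact h1 h
    · apply h2; rw [← hyx]; simpa using hy
  obtain ⟨I, hI, hxI, hIU, hav⟩ := exists_clopen_avoid (X := X)
    (U := V ∩ {z | s z ∈ Vᶜ}) (hV.isOpen.inter (hG.clopen_pre hs hV.compl).isOpen)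
    ⟨hxV, hsV'⟩ hF2 hxF2
  refine ⟨I, hI, hxI, fun z hz hsz => (hIU hz).2 (hIU hsz).1, fun y hy => ⟨?_, ?_⟩⟩
  · exact hav y (Or.inl hy)
  · exact hav _ (Or.inr ⟨y, hy, rfl⟩)

lemma Vig.germ_moved {G : Subgroup (Perm X)} (hG : Vig G) {s : Perm X} (hs : s ∈ G)
    {F : Set X} (hF : IsClopen F) (hFne : F.Nonempty) (hsF : ∀ x ∈ F, s x = x)
    {x y : X} (hx : s x ≠ x) (hyx : y ≠ x) (hysx : y ≠ s x) :
    ∃ s' ∈ G, (∀ᶠ z in 𝓝 x, s' z = s z) ∧ (∀ᶠ z in 𝓝 y, s' z = z) := by
  obtain ⟨e, -, he⟩ := exists_mem_avoid (X := X) isOpen_univ ⟨x, mem_univ x⟩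
    (F := {x, s x, y}) (by simp)
  simp only [mem_insert_iff, mem_singleton_iff, not_or] at he
  obtain ⟨hex, hesx, hey⟩ := he
  obtain ⟨I, hI, hxI, hIs, hav⟩ := hG.displace hs hx (F := {y, e}) (by simp)
    (by simp [Ne.symm hyx, Ne.symm hex]) (by simp [Ne.symm hysx, Ne.symm hesx])
  have hy := hav y (by simp)
  have he := hav e (by simp)
  obtain ⟨E, hE, heE, hEU, hyE⟩ := exists_clopen_avoid (X := X)
    (U := Iᶜ ∩ {z | s.symm z ∈ Iᶜ}) (hI.compl.isOpen.inter (hG.clopen_inv hs hI.compl).isOpen)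
    ⟨he.1, he.2⟩ (Set.finite_singleton y) (by simpa using hey)
  have hyE' : y ∉ E := hyE y rfl
  obtain ⟨g', hg', h1, h2⟩ := hG.cut hs hI hF hE hIs hFne hsF ⟨e, heE⟩
    (fun z hz => (hEU hz).1) (fun z hz => (hEU hz).2)
  refine ⟨g', hg', ?_, ?_⟩
  · filter_upwards [hI.isOpen.mem_nhds hxI] with z hz using h1 z hz
  · filter_upwards [(hI.compl.isOpen).mem_nhds hy.1,
      (hG.clopen_inv hs hI.compl).isOpen.mem_nhds hy.2,
      hE.compl.isOpen.mem_nhds hyE'] with z hz1 hz2 hz3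
    exact h2 z hz1 hz2 hz3

lemma Vig.germ_step {G : Subgroup (Perm X)} (hG : Vig G) {s : Perm X} (hs : s ∈ G)
    {F : Set X} (hF : IsClopen F) (hFne : F.Nonempty) (hsF : ∀ x ∈ F, s x = x)
    {x y : X} (hyx : y ≠ x) (hysx : y ≠ s x) :
    ∃ s' ∈ G, (∀ᶠ z in 𝓝 x, s' z = s z) ∧ (∀ᶠ z in 𝓝 y, s' z = z) := by
  by_cases hx : s x = x
  · -- choose a point of `F` different from `x`, and a small set around `x` missing it
    obtain ⟨f, hf, hfx⟩ := exists_mem_avoid hF.isOpen hFne (Set.finite_singleton x)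
    have hfx' : f ≠ x := fun h => hfx (by simp [h])
    obtain ⟨A, hA, hxA, -, hav⟩ := exists_clopen_avoid (X := X) isOpen_univ (mem_univ x)
      (F := {y, f}) (by simp) (by simp [Ne.symm hyx, Ne.symm hfx'])
    have hyA : y ∉ A := hav y (by simp)
    have hfA : f ∉ A := hav f (by simp)
    obtain ⟨w, hwA, hwx⟩ := exists_mem_avoid hA.isOpen ⟨x, hxA⟩ (Set.finite_singleton x)
    have hwx' : w ≠ x := fun h => hwx (by simp [h])
    obtain ⟨B, hB, hxB, hBA, hwB⟩ := exists_clopen_avoid hA.isOpen hxA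
      (Set.finite_singleton w) (by simpa using Ne.symm hwx')
    have hwB' : w ∉ B := hwB w rfl
    obtain ⟨h, hh, hm, hfix⟩ := hG.move (D := A) (A := B) (E := A \ B) hA hB (hA.diff hB) hBA
      sdiff_subset ⟨w, hwA, hwB'⟩ ⟨w, hwA, hwB'⟩
    have hhx : h x ≠ x := fun e => (hm x hxB).2 (e.symm ▸ hxB)
    have hhxA : h x ∈ A := (hm x hxB).1
    -- the element `s * h⁻¹`
    have hs2 : s * h⁻¹ ∈ G := G.mul_mem hs (G.inv_mem hh)
    have hval : (s * h⁻¹) (h x) = x := by
      change s (h.symm (h x)) = x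
      rw [Equiv.symm_apply_apply, hx]
    obtain ⟨s2, hs2G, h1, h2⟩ := hG.germ_moved hs2 (F := F \ A) (hF.diff hA) ⟨f, hf, hfA⟩
      (by
        intro z hz
        change s (h.symm z) = z
        rw [symm_fix (hfix z hz.2), hsF z hz.1])
      (x := h x) (y := y) (by rw [hval]; exact Ne.symm hhx)
      (fun e => hyA (e ▸ hhxA)) (by rw [hval]; exact hyx)
    refine ⟨s2 * h, G.mul_mem hs2G hh, ?_, ?_⟩
    · have hc : Tendsto h (𝓝 x) (𝓝 (h x)) := (hG.cont h hh).continuousAt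
      filter_upwards [hc.eventually h1] with z hz
      change s2 (h z) = s z
      rw [hz]
      change s (h.symm (h z)) = s z
      simp
    · have hyA' : ∀ᶠ z in 𝓝 y, z ∉ A := hA.compl.isOpen.mem_nhds hyA
      filter_upwards [h2, hyA'] with z hz hzA
      change s2 (h z) = z
      rw [hfix z hzA, hz]
  · exact hG.germ_moved hs hF hFne hsF hx hyx hysx

/-- the elements of `G` fixing a nonempty clopen set pointwise -/
def SFix (G : Subgroup (Perm X)) : Set (Perm X) :=
  {g | g ∈ G ∧ ∃ F, IsClopen F ∧ F.Nonempty ∧ ∀ x ∈ F, g x = x}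

/-- Every germ of an element of `G` is the germ of an element that is trivial near `y`. -/
lemma Vig.germ {G : Subgroup (Perm X)} (hG : Vig G) (hgen : G ≤ Subgroup.closure (SFix G))
    {g : Perm X} (hg : g ∈ G) (x : X) : ∃ P : Set X, P.Finite ∧ ∀ y ∉ P,
      ∃ g' ∈ G, (∀ᶠ z in 𝓝 x, g' z = g z) ∧ (∀ᶠ z in 𝓝 y, g' z = z) := by
  have hg' := hgen hg
  revert x
  clear hg
  induction hg' using Subgroup.closure_induction with
  | mem s hs =>
    intro x
    obtain ⟨hsG, F, hF, hFne, hsF⟩ := hs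
    refine ⟨{x, s x}, by simp, fun y hy => ?_⟩
    simp only [mem_insert_iff, mem_singleton_iff, not_or] at hy
    exact hG.germ_step hsG hF hFne hsF hy.1 hy.2
  | one =>
    intro x
    exact ⟨∅, by simp, fun y _ => ⟨1, G.one_mem, by simp, by simp⟩⟩
  | mul a b ha hb iha ihb =>
    intro x
    obtain ⟨P, hP, h1⟩ := ihb x
    obtain ⟨Q, hQ, h2⟩ := iha (b x)
    refine ⟨P ∪ Q, hP.union hQ, fun y hy => ?_⟩
    obtain ⟨b', hb', hb1, hb2⟩ := h1 y (fun h => hy (Or.inl h))
    obtain ⟨a', ha', ha1, ha2⟩ := h2 y (fun h => hy (Or.inr h))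
    refine ⟨a' * b', G.mul_mem ha' hb', ?_, ?_⟩
    · have hbx : b' x = b x := hb1.self_of_nhds
      have hc : Tendsto b' (𝓝 x) (𝓝 (b x)) := by
        rw [← hbx]; exact (hG.cont b' hb').continuousAt
      filter_upwards [hc.eventually ha1, hb1] with z hz hz2
      change a' (b' z) = a (b z)
      rw [hz, hz2]
    · have hby : b' y = y := hb2.self_of_nhds
      have hc : Tendsto b' (𝓝 y) (𝓝 y) := by
        nth_rewrite 2 [← hby]; exact (hG.cont b' hb').continuousAt
      filter_upwards [hc.eventually ha2, hb2] with z hz hz2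
      change a' (b' z) = z
      rw [hz, hz2]
  | inv a ha iha =>
    intro x
    obtain ⟨P, hP, h1⟩ := iha (a.symm x)
    refine ⟨P, hP, fun y hy => ?_⟩
    obtain ⟨a', ha', ha1, ha2⟩ := h1 y hy
    refine ⟨a'⁻¹, G.inv_mem ha', ?_, ?_⟩
    · -- near `x`
      have hax : a' (a.symm x) = x := by
        rw [ha1.self_of_nhds]; simp
      have hax' : a'.symm x = a.symm x := by
        rw [Equiv.symm_apply_eq]; exact hax.symm
      have hc : Tendsto a'.symm (𝓝 x) (𝓝 (a.symm x)) := by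
        rw [← hax']; exact (hG.cont _ (mem_symm ha')).continuousAt
      filter_upwards [hc.eventually ha1] with z hz
      change a'.symm z = a.symm z
      rw [Equiv.apply_symm_apply] at hz
      rw [Equiv.eq_symm_apply]; exact hz.symm
    · have hay : a' y = y := ha2.self_of_nhds
      have hay' : a'.symm y = y := symm_fix hay
      have hc : Tendsto a'.symm (𝓝 y) (𝓝 y) := by
        nth_rewrite 2 [← hay']; exact (hG.cont _ (mem_symm ha')).continuousAt
      filter_upwards [hc.eventually ha2] with z hz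
      change a'.symm z = z
      rw [Equiv.apply_symm_apply] at hz
      exact hz.symm

end Pool.Agent.Helper91
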