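import Pool.Agent.Helper91.V2

set_option linter.unusedSectionVars false

namespace Pool.Agent.Helper91

open Set Topology Equiv Filter

variable {X : Type*} [TopologicalSpace X] [CLike X]

lemma exists_clopen_of_eventually {x : X} {p : X → Prop} (h : ∀ᶠ z in 𝓝 x, p z) :
    ∃ V, IsClopen V ∧ x ∈ V ∧ ∀ z ∈ V, p z := by
  obtain ⟨U, hU, hUo, hxU⟩ := mem_nhds_iff.1 h
  obtain ⟨V, hV, hxV, hVU⟩ := compact_exists_isClopen_in_isOpen hUo hxU
  exact ⟨V, hV, hxV, fun z hz => hU (hVU hz)⟩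

/-- near a moved point `x` an element of `G` may be cut down to a small neighbourhood
together with a prescribed extra set `E`. -/
lemma Vig.localCut {G : Subgroup (Perm X)} (hG : Vig G) (hgen : G ≤ Subgroup.closure (SFix G))
    {g : Perm X} (hg : g ∈ G) {x : X} (hx : g x ≠ x) {E : Set X} (hE : IsClopen E)
    (hEne : E.Nonempty) (hxE : x ∉ E) (hgxE : g x ∉ E) :
    ∃ N, IsClopen N ∧ x ∈ N ∧ ∀ I, IsClopen I → I ⊆ N →
      ∃ g' ∈ G, (∀ z ∈ I, g' z = g z) ∧ (∀ z, z ∉ I → g.symm z ∉ I → z ∉ E → g' z = z) := by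
  obtain ⟨P, hP, hPy⟩ := hG.germ hgen hg x
  obtain ⟨y, -, hy⟩ := exists_mem_avoid (X := X) isOpen_univ ⟨x, mem_univ x⟩ hP
  obtain ⟨g2, hg2, h1, h2⟩ := hPy y hy
  obtain ⟨F, hF, hyF, hFfix⟩ := exists_clopen_of_eventually h2
  obtain ⟨N1, hN1, hxN1, hN1eq⟩ := exists_clopen_of_eventually h1
  obtain ⟨N2, hN2, hxN2, hN2d, -⟩ := hG.displace hg hx (F := ∅) (by simp) (by simp) (by simp)
  refine ⟨N1 ∩ N2 ∩ (Eᶜ ∩ {z | g z ∈ Eᶜ}), (hN1.inter hN2).inter
    (hE.compl.inter (hG.clopen_pre hg hE.compl)), ⟨⟨hxN1, hxN2⟩, hxE, hgxE⟩, ?_⟩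
  intro I hI hIN
  have hIeq : ∀ z ∈ I, g2 z = g z := fun z hz => hN1eq z (hIN hz).1.1
  have hiff : ∀ z, g2.symm z ∈ I → g.symm z ∈ I := by
    intro z hz
    have h3 := hIeq _ hz
    rw [Equiv.apply_symm_apply] at h3
    rw [h3, Equiv.symm_apply_apply]; exact hz
  obtain ⟨g', hg', ha, hb⟩ := hG.cut hg2 hI hF hE
    (fun z hz hz2 => by
      rw [hIeq z hz] at hz2
      exact hN2d z (hIN hz).1.2 (hIN hz2).1.2)
    ⟨y, hyF⟩ hFfix hEne (fun z hz hzI => (hIN hzI).2.1 hz)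
    (fun z hz hzI => by
      have h3 := hiff z hzI
      have h4 := (hIN h3).2.2
      simp only [mem_ofPred_eq, Equiv.apply_symm_apply] at h4
      exact h4 hz)
  refine ⟨g', hg', fun z hz => by rw [ha z hz, hIeq z hz], fun z hz1 hz2 hz3 => ?_⟩
  exact hb z hz1 (fun h => hz2 (hiff z h)) hz3

/-- the commutator of two permutations whose supports meet in `I` is a `3`-cycle of sets -/
lemma comm_tri {a b : Perm X} {I : Set X} (ha : ∀ x ∈ I, a x ∉ I) (hb : ∀ x ∈ I, b x ∉ I)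
    (hab : ∀ x, a x ≠ x → b x ≠ x → x ∈ I) :
    (∀ x ∈ I, (a * b * a⁻¹ * b⁻¹) x = a x) ∧ (∀ x ∈ I, (a * b * a⁻¹ * b⁻¹) (a x) = b x) ∧
    (∀ x ∈ I, (a * b * a⁻¹ * b⁻¹) (b x) = x) ∧
    (∀ x, x ∉ I → a.symm x ∉ I → b.symm x ∉ I → (a * b * a⁻¹ * b⁻¹) x = x) := by
  have hap : ∀ x, (a * b * a⁻¹ * b⁻¹) x = a (b (a.symm (b.symm x))) := fun x => rfl
  have h1 : ∀ x, x ∉ I → b x ≠ x → a x = x := fun x hx h => by
    by_contra h2; exact hx (hab x h2 h)
  have h2 : ∀ x, x ∉ I → a x ≠ x → b x = x := fun x hx h => by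
    by_contra h2; exact hx (hab x h h2)
  have hI1 : ∀ x ∈ I, b (a x) = a x := fun x hx => by
    apply h2 _ (ha x hx)
    intro h
    have := a.injective h
    exact ha x hx (this.symm ▸ hx)
  have hI2 : ∀ x ∈ I, a (b x) = b x := fun x hx => by
    apply h1 _ (hb x hx)
    intro h
    have := b.injective h
    exact hb x hx (this.symm ▸ hx)
  have hI3 : ∀ x ∈ I, b (a.symm x) = a.symm x := fun x hx => by
    apply h2
    · intro h; apply ha _ h; simpa using hx
    · rw [Equiv.apply_symm_apply]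
      intro h
      exact ha x hx (by rw [Equiv.eq_symm_apply] at h; rw [h]; exact hx)
  have hI4 : ∀ x ∈ I, a (b.symm x) = b.symm x := fun x hx => by
    apply h1
    · intro h; apply hb _ h; simpa using hx
    · rw [Equiv.apply_symm_apply]
      intro h
      exact hb x hx (by rw [Equiv.eq_symm_apply] at h; rw [h]; exact hx)
  refine ⟨fun x hx => ?_, fun x hx => ?_, fun x hx => ?_, fun x hx hxa hxb => ?_⟩
  · rw [hap, symm_fix (hI4 x hx), Equiv.apply_symm_apply]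
  · rw [hap, symm_fix (hI1 x hx), Equiv.symm_apply_apply, hI2 x hx]
  · rw [hap, Equiv.symm_apply_apply, hI3 x hx, Equiv.apply_symm_apply]
  · rw [hap]
    by_cases hbx : b x = x
    · rw [symm_fix hbx]
      by_cases hax : a x = x
      · rw [symm_fix hax, hbx, hax]
      · have h3 : b (a.symm x) = a.symm x := by
          apply h2 _ hxa
          rw [Equiv.apply_symm_apply]
          intro h
          apply hax
          rw [Equiv.eq_symm_apply] at h; exact h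
        rw [h3, Equiv.apply_symm_apply]
    · have hax : a x = x := h1 x hx hbx
      have h3 : a (b.symm x) = b.symm x := by
        apply h1 _ hxb
        rw [Equiv.apply_symm_apply]
        intro h
        apply hbx
        rw [Equiv.eq_symm_apply] at h; exact h
      rw [symm_fix h3, Equiv.apply_symm_apply, hax]

/-- locally in `G` -/
def LocG (G : Subgroup (Perm X)) (f : X → X) : Prop :=
  ∀ x, ∃ g ∈ G, ∀ᶠ z in 𝓝 x, f z = g z

/-- `t` is a `3`-cycle of clopen sets with base `I`, locally in `G` -/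
structure IsTri (G : Subgroup (Perm X)) (t : Perm X) (I : Set X) : Prop where
  loc : LocG G t
  clopen : IsClopen I
  d1 : ∀ x ∈ I, t x ∉ I
  d2 : ∀ x ∈ I, t (t x) ∉ I
  cube : ∀ x, t (t (t x)) = x
  fix : ∀ x, x ∉ I → t x ∉ I → t (t x) ∉ I → t x = x

/-- the `3`-cycle `t` cut down to the subset `J` of its base belongs to `H` -/
def CutIn (H : Subgroup (Perm X)) (t : Perm X) (J : Set X) : Prop :=
  ∃ c ∈ H, (∀ x, (x ∈ J ∨ t x ∈ J ∨ t (t x) ∈ J) → c x = t x) ∧
    (∀ x, x ∉ J → t x ∉ J → t (t x) ∉ J → c x = x)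

lemma CutIn.union {G H : Subgroup (Perm X)} {t : Perm X} {I : Set X} (ht : IsTri G t I)
    {J K : Set X} (hJI : J ⊆ I) (hKI : K ⊆ I) (hJK : ∀ x ∈ J, x ∉ K)
    (hJ : CutIn H t J) (hK : CutIn H t K) : CutIn H t (J ∪ K) := by
  obtain ⟨c, hc, hc1, hc2⟩ := hJ
  obtain ⟨d, hd, hd1, hd2⟩ := hK
  -- if an orbit meets `J` it does not meet `K`
  have key : ∀ x, (x ∈ J ∨ t x ∈ J ∨ t (t x) ∈ J) → ¬ (x ∈ K ∨ t x ∈ K ∨ t (t x) ∈ K) := by
    intro x hx hk
    have e := ht.cube x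
    rcases hx with h | h | h <;> rcases hk with k | k | k
    · exact hJK _ h k
    · exact ht.d1 _ (hJI h) (hKI k)
    · exact ht.d2 _ (hJI h) (hKI k)
    · exact ht.d1 _ (hKI k) (hJI h)
    · exact hJK _ h k
    · exact ht.d1 _ (hJI h) (hKI k)
    · exact ht.d2 _ (hKI k) (hJI h)
    · exact ht.d1 _ (hKI k) (hJI h)
    · exact hJK _ h k
  refine ⟨c * d, H.mul_mem hc hd, ?_, ?_⟩
  · intro x hx
    change c (d x) = t x
    by_cases hxJ : x ∈ J ∨ t x ∈ J ∨ t (t x) ∈ J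
    · have hk := key x hxJ
      simp only [not_or] at hk
      rw [hd2 x hk.1 hk.2.1 hk.2.2, hc1 x hxJ]
    · have hxK : x ∈ K ∨ t x ∈ K ∨ t (t x) ∈ K := by
        rcases hx with (h | h) | (h | h) | (h | h) <;> tauto
      rw [hd1 x hxK]
      have hnot : ¬ (t x ∈ J ∨ t (t x) ∈ J ∨ t (t (t x)) ∈ J) := by
        rw [ht.cube x]; tauto
      simp only [not_or] at hnot
      exact hc2 _ hnot.1 hnot.2.1 hnot.2.2
  · intro x h1 h2 h3
    simp only [mem_union, not_or] at h1 h2 h3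
    change c (d x) = x
    rw [hd2 x h1.2 h2.2 h3.2, hc2 x h1.1 h2.1 h3.1]

/-- localisation principle for `3`-cycles -/
lemma IsTri.mem_of_local {G H : Subgroup (Perm X)} {t : Perm X} {I : Set X} (ht : IsTri G t I)
    (hloc : ∀ x ∈ I, ∃ N, IsClopen N ∧ x ∈ N ∧ ∀ J, IsClopen J → J ⊆ N → J ⊆ I → CutIn H t J) :
    t ∈ H := by
  have hIc : IsCompact I := ht.clopen.isClosed.isCompact
  have main : ∃ N, IsClopen N ∧ I ⊆ N ∧ ∀ J, IsClopen J → J ⊆ N → J ⊆ I → CutIn H t J := by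
    refine hIc.induction_on (p := fun S => ∃ N, IsClopen N ∧ S ⊆ N ∧
      ∀ J, IsClopen J → J ⊆ N → J ⊆ I → CutIn H t J) ?_ ?_ ?_ ?_
    · refine ⟨∅, isClopen_empty, Subset.rfl, fun J _ hJ _ => ?_⟩
      have hJ0 : J = ∅ := subset_empty_iff.1 hJ
      subst hJ0
      exact ⟨1, H.one_mem, by simp, by simp⟩
    · intro S T hST ⟨N, hN, hTN, h⟩
      exact ⟨N, hN, hST.trans hTN, h⟩
    · intro S T ⟨N, hN, hSN, h⟩ ⟨M, hM, hTM, h'⟩
      refine ⟨N ∪ M, hN.union hM, union_subset_union hSN hTM, fun J hJ hJN hJI => ?_⟩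
      have e : J = (J ∩ N) ∪ (J \ N) := (inter_union_sdiff J N).symm
      rw [e]
      refine CutIn.union ht (inter_subset_left.trans hJI) (sdiff_subset.trans hJI)
        (fun x hx hx2 => hx2.2 hx.2) (h _ (hJ.inter hN) inter_subset_right
          (inter_subset_left.trans hJI)) (h' _ (hJ.diff hN) ?_ (sdiff_subset.trans hJI))
      intro x hx
      rcases hJN hx.1 with h1 | h1
      · exact absurd h1 hx.2
      · exact h1
    · intro x hx
      obtain ⟨N, hN, hxN, h⟩ := hloc x hx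
      exact ⟨N, mem_nhdsWithin_of_mem_nhds (hN.isOpen.mem_nhds hxN), N, hN, Subset.rfl, h⟩
  obtain ⟨N, hN, hIN, h⟩ := main
  obtain ⟨c, hc, hc1, hc2⟩ := h I ht.clopen hIN Subset.rfl
  have : c = t := by
    ext x
    by_cases hx : x ∈ I ∨ t x ∈ I ∨ t (t x) ∈ I
    · exact hc1 x hx
    · simp only [not_or] at hx
      rw [hc2 x hx.1 hx.2.1 hx.2.2, ht.fix x hx.1 hx.2.1 hx.2.2]
  exact this ▸ hc

/-- **Theorem 1.** All `3`-cycles of the pseudogroup of `G` belong to `G`. -/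
theorem Vig.tri_mem {G : Subgroup (Perm X)} (hG : Vig G) (hgen : G ≤ Subgroup.closure (SFix G))
    {t : Perm X} {I : Set X} (ht : IsTri G t I) : t ∈ G := by
  refine ht.mem_of_local (fun x hxI => ?_)
  obtain ⟨g, hg, hgt⟩ := ht.loc x
  obtain ⟨h, hh, hht⟩ := ht.loc (t x)
  set k := h * g with hk
  have hkG : k ∈ G := G.mul_mem hh hg
  have hgx : g x = t x := hgt.self_of_nhds.symm
  have htc : Tendsto t (𝓝 x) (𝓝 (t x)) := by
    have h1 : Tendsto g (𝓝 x) (𝓝 (t x)) := by rw [← hgx]; exact (hG.cont g hg).continuousAt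
    exact h1.congr' (by filter_upwards [hgt] with z hz using hz.symm)
  have hkt : ∀ᶠ z in 𝓝 x, t (t z) = k z := by
    filter_upwards [htc.eventually hht, hgt] with z hz hz2
    rw [hz, hz2]; rfl
  have hkx : k x = t (t x) := hkt.self_of_nhds.symm
  have n1 : t x ≠ x := fun e => ht.d1 x hxI (e.symm ▸ hxI)
  have n2 : t (t x) ≠ x := fun e => ht.d2 x hxI (e.symm ▸ hxI)
  have n3 : t (t x) ≠ t x := fun e => n1 (t.injective e)
  -- two extra points
  obtain ⟨e1, -, he1⟩ := exists_mem_avoid (X := X) isOpen_univ ⟨x, mem_univ x⟩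
    (F := {x, t x, t (t x)}) (by simp)
  obtain ⟨e2, -, he2⟩ := exists_mem_avoid (X := X) isOpen_univ ⟨x, mem_univ x⟩
    (F := {x, t x, t (t x), e1}) (by simp)
  obtain ⟨E1, hE1, he1E1, -, hav1⟩ := exists_clopen_avoid (X := X) isOpen_univ (mem_univ e1)
    (F := {x, t x, t (t x), e2}) (by simp) (by
      simp only [mem_insert_iff, mem_singleton_iff, not_or] at he1 he2 ⊢
      exact ⟨he1.1, he1.2.1, he1.2.2, Ne.symm he2.2.2.2⟩)
  obtain ⟨E2, hE2, he2E2, hE2sub, hav2⟩ := exists_clopen_avoid (X := X) (U := E1ᶜ)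
    hE1.compl.isOpen (hav1 e2 (by simp)) (F := {x, t x, t (t x)}) (by simp) (by
      simp only [mem_insert_iff, mem_singleton_iff, not_or] at he2 ⊢
      exact ⟨he2.1, he2.2.1, he2.2.2.1⟩)
  obtain ⟨N1, hN1, hxN1, hcut1⟩ := hG.localCut hgen hg (x := x) (by rw [hgx]; exact n1) hE1
    ⟨e1, he1E1⟩ (hav1 _ (by simp)) (by rw [hgx]; exact hav1 _ (by simp))
  obtain ⟨N2, hN2, hxN2, hcut2⟩ := hG.localCut hgen hkG (x := x) (by rw [hkx]; exact n2) hE2
    ⟨e2, he2E2⟩ (hav2 _ (by simp)) (by rw [hkx]; exact hav2 _ (by simp))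
  -- neighbourhood where everything holds
  have hev : ∀ᶠ z in 𝓝 x, t z = g z ∧ t (t z) = k z ∧ t z ∉ E2 ∧ t (t z) ∉ E1 ∧
      z ∉ E1 ∧ z ∉ E2 := by
    have a1 : ∀ᶠ z in 𝓝 x, t z ∉ E2 :=
      htc.eventually (hE2.compl.isOpen.mem_nhds (hav2 _ (by simp)))
    have a2 : ∀ᶠ z in 𝓝 x, k z ∉ E1 := by
      have hc : Tendsto k (𝓝 x) (𝓝 (t (t x))) := by
        rw [← hkx]; exact (hG.cont k hkG).continuousAt
      exact hc.eventually (hE1.compl.isOpen.mem_nhds (hav1 _ (by simp)))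
    have a3 : ∀ᶠ z in 𝓝 x, z ∉ E1 := hE1.compl.isOpen.mem_nhds (hav1 _ (by simp))
    have a4 : ∀ᶠ z in 𝓝 x, z ∉ E2 := hE2.compl.isOpen.mem_nhds (hav2 _ (by simp))
    filter_upwards [hgt, hkt, a1, a2, a3, a4] with z b1 b2 b3 b4 b5 b6
    exact ⟨b1, b2, b3, by rw [b2]; exact b4, b5, b6⟩
  obtain ⟨N3, hN3, hxN3, hN3p⟩ := exists_clopen_of_eventually hev
  refine ⟨N1 ∩ N2 ∩ N3, (hN1.inter hN2).inter hN3, ⟨⟨hxN1, hxN2⟩, hxN3⟩, fun J hJ hJN hJI => ?_⟩
  obtain ⟨a, haG, ha1, ha2⟩ := hcut1 J hJ (fun z hz => (hJN hz).1.1)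
  obtain ⟨b, hbG, hb1, hb2⟩ := hcut2 J hJ (fun z hz => (hJN hz).1.2)
  have hp : ∀ z ∈ J, t z = g z ∧ t (t z) = k z ∧ t z ∉ E2 ∧ t (t z) ∉ E1 ∧
      z ∉ E1 ∧ z ∉ E2 := fun z hz => hN3p z (hJN hz).2
  have hat : ∀ z ∈ J, a z = t z := fun z hz => by rw [ha1 z hz, (hp z hz).1]
  have hbt : ∀ z ∈ J, b z = t (t z) := fun z hz => by rw [hb1 z hz, (hp z hz).2.1]
  -- supports of a and b
  have hsa : ∀ z, a z ≠ z → z ∈ J ∨ t (t z) ∈ J ∨ z ∈ E1 := by
    intro z hz
    by_contra hcon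
    simp only [not_or] at hcon
    apply hz
    apply ha2 z hcon.1 _ hcon.2.2
    intro hgz
    apply hcon.2.1
    have := (hp _ hgz).1
    rw [Equiv.apply_symm_apply] at this
    rw [← this, ht.cube]; exact hgz
  have hsb : ∀ z, b z ≠ z → z ∈ J ∨ t z ∈ J ∨ z ∈ E2 := by
    intro z hz
    by_contra hcon
    simp only [not_or] at hcon
    apply hz
    apply hb2 z hcon.1 _ hcon.2.2
    intro hgz
    apply hcon.2.1
    have := (hp _ hgz).2.1
    rw [Equiv.apply_symm_apply] at this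
    rw [← this, ht.cube]; exact hgz
  obtain ⟨c1, c2, c3, c4⟩ := comm_tri (a := a) (b := b) (I := J)
    (fun z hz hz2 => ht.d1 z (hJI hz) (hJI (by rw [hat z hz] at hz2; exact hz2)))
    (fun z hz hz2 => ht.d2 z (hJI hz) (hJI (by rw [hbt z hz] at hz2; exact hz2)))
    (by
      intro z hza hzb
      rcases hsa z hza with h | h | h
      · exact h
      · -- `z = t u` with `u = t (t z)` in `J`
        exfalso
        have hz' : t (t (t z)) = z := ht.cube z
        rcases hsb z hzb with h' | h' | h'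
        · exact ht.d2 _ (hJI h') (hJI h)
        · exact ht.d1 _ (hJI h') (hJI h)
        · have := (hp _ h).2.2.1
          rw [hz'] at this
          exact this h'
      · exfalso
        rcases hsb z hzb with h' | h' | h'
        · exact (hp z h').2.2.2.2.1 h
        · have := (hp _ h').2.2.2.1
          rw [ht.cube] at this
          exact this h
        · exact hE2sub h' h)
  refine ⟨a * b * a⁻¹ * b⁻¹, G.mul_mem (G.mul_mem (G.mul_mem haG hbG) (G.inv_mem haG))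
    (G.inv_mem hbG), ?_, ?_⟩
  · intro z hz
    rcases hz with h | h | h
    · rw [c1 z h, hat z h]
    · have e : z = b (t z) := by rw [hbt _ h, ht.cube]
      calc (a * b * a⁻¹ * b⁻¹) z = (a * b * a⁻¹ * b⁻¹) (b (t z)) := by rw [← e]
        _ = t z := c3 _ h
    · have e : z = a (t (t z)) := by rw [hat _ h, ht.cube]
      calc (a * b * a⁻¹ * b⁻¹) z = (a * b * a⁻¹ * b⁻¹) (a (t (t z))) := by rw [← e]
        _ = b (t (t z)) := c2 _ h
        _ = t z := by rw [hbt _ h, ht.cube]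
  · intro z h1 h2 h3
    apply c4 z h1
    · intro h
      apply h3
      have e := hat _ h
      rw [Equiv.apply_symm_apply] at e
      rw [e, ht.cube]; exact h
    · intro h
      apply h2
      have e := hbt _ h
      rw [Equiv.apply_symm_apply] at e
      rw [e, ht.cube]; exact h

end Pool.Agent.Helper91
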