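import Pool.Agent.Helper91.V3

set_option linter.unusedSectionVars false

namespace Pool.Agent.Helper91

open Set Topology Equiv Filter

variable {X : Type*} [TopologicalSpace X] [CLike X]

section tri
open Classical in
/-- the underlying map of the `3`-cycle `A → f A → k A → A` -/
noncomputable def triFun (f k : Perm X) (A : Set X) (x : X) : X :=
  if x ∈ A then f x else if f.symm x ∈ A then k (f.symm x) else
    if k.symm x ∈ A then k.symm x else x

variable {f k : Perm X} {A : Set X}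

lemma triFun_mem {x : X} (hx : x ∈ A) : triFun f k A x = f x := if_pos hx

lemma triFun_f (hf : ∀ x ∈ A, f x ∉ A) {x : X} (hx : x ∈ A) : triFun f k A (f x) = k x := by
  rw [triFun, if_neg (hf x hx), Equiv.symm_apply_apply, if_pos hx]

lemma triFun_k (hk : ∀ x ∈ A, k x ∉ A) (hfk : ∀ x ∈ A, f.symm (k x) ∉ A) {x : X} (hx : x ∈ A) :
    triFun f k A (k x) = x := by
  rw [triFun, if_neg (hk x hx), if_neg (hfk x hx), Equiv.symm_apply_apply, if_pos hx]

lemma triFun_other {x : X} (h1 : x ∉ A) (h2 : f.symm x ∉ A) (h3 : k.symm x ∉ A) :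
    triFun f k A x = x := by
  rw [triFun, if_neg h1, if_neg h2, if_neg h3]

lemma triFun_inv (hf : ∀ x ∈ A, f x ∉ A) (hk : ∀ x ∈ A, k x ∉ A)
    (hfk : ∀ x ∈ A, f.symm (k x) ∉ A) (hkf : ∀ x ∈ A, k.symm (f x) ∉ A) (x : X) :
    triFun k f A (triFun f k A x) = x := by
  by_cases h1 : x ∈ A
  · rw [triFun_mem h1, triFun_k hf hkf h1]
  · by_cases h2 : f.symm x ∈ A
    · have e : x = f (f.symm x) := (f.apply_symm_apply x).symm
      rw [e, triFun_f hf h2, triFun_f hk h2]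
    · by_cases h3 : k.symm x ∈ A
      · have e : x = k (k.symm x) := (k.apply_symm_apply x).symm
        rw [e, triFun_k hk hfk h3, triFun_mem h3]
      · rw [triFun_other h1 h2 h3, triFun_other h1 h3 h2]

lemma swap_cond (h : ∀ x ∈ A, f.symm (k x) ∉ A) : ∀ x ∈ A, k.symm (f x) ∉ A := by
  intro x hx hc
  have := h _ hc
  rw [Equiv.apply_symm_apply, Equiv.symm_apply_apply] at this
  exact this hx

/-- the `3`-cycle `A → f A → k A → A` -/
noncomputable def tri (f k : Perm X) (A : Set X) (hf : ∀ x ∈ A, f x ∉ A)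
    (hk : ∀ x ∈ A, k x ∉ A) (hfk : ∀ x ∈ A, f.symm (k x) ∉ A) : Perm X where
  toFun := triFun f k A
  invFun := triFun k f A
  left_inv := triFun_inv hf hk hfk (swap_cond hfk)
  right_inv := triFun_inv hk hf (swap_cond hfk) hfk

lemma exists_tri {G : Subgroup (Perm X)} (hG : Vig G) (hfG : f ∈ G) (hkG : k ∈ G)
    (hA : IsClopen A) (hf : ∀ x ∈ A, f x ∉ A) (hk : ∀ x ∈ A, k x ∉ A)
    (hfk : ∀ x ∈ A, f.symm (k x) ∉ A) :
    ∃ t : Perm X, IsTri G t A ∧ (∀ x ∈ A, t x = f x) ∧ (∀ x ∈ A, t (f x) = k x) ∧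
      (∀ x ∈ A, t (k x) = x) ∧ (∀ x, x ∉ A → f.symm x ∉ A → k.symm x ∉ A → t x = x) := by
  set t := tri f k A hf hk hfk with ht
  have t1 : ∀ x ∈ A, t x = f x := fun x hx => triFun_mem hx
  have t2 : ∀ x ∈ A, t (f x) = k x := fun x hx => triFun_f hf hx
  have t3 : ∀ x ∈ A, t (k x) = x := fun x hx => triFun_k hk hfk hx
  have t4 : ∀ x, x ∉ A → f.symm x ∉ A → k.symm x ∉ A → t x = x :=
    fun x h1 h2 h3 => triFun_other h1 h2 h3
  have cases : ∀ x, x ∈ A ∨ (∃ u ∈ A, x = f u) ∨ (∃ u ∈ A, x = k u) ∨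
      (x ∉ A ∧ f.symm x ∉ A ∧ k.symm x ∉ A) := by
    intro x
    by_cases h1 : x ∈ A
    · exact Or.inl h1
    · by_cases h2 : f.symm x ∈ A
      · exact Or.inr (Or.inl ⟨_, h2, (f.apply_symm_apply x).symm⟩)
      · by_cases h3 : k.symm x ∈ A
        · exact Or.inr (Or.inr (Or.inl ⟨_, h3, (k.apply_symm_apply x).symm⟩))
        · exact Or.inr (Or.inr (Or.inr ⟨h1, h2, h3⟩))
  refine ⟨t, ⟨?_, hA, ?_, ?_, ?_, ?_⟩, t1, t2, t3, t4⟩
  · intro x
    have cA := hA
    have cf := hG.clopen_inv hfG hA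
    have ck := hG.clopen_inv hkG hA
    by_cases h1 : x ∈ A
    · exact ⟨f, hfG, by filter_upwards [hA.isOpen.mem_nhds h1] with z hz using t1 z hz⟩
    · by_cases h2 : f.symm x ∈ A
      · refine ⟨k * f⁻¹, G.mul_mem hkG (G.inv_mem hfG), ?_⟩
        filter_upwards [cf.isOpen.mem_nhds h2] with z hz
        have e : z = f (f.symm z) := (f.apply_symm_apply z).symm
        change t z = k (f.symm z)
        nth_rewrite 1 [e]
        exact t2 _ hz
      · by_cases h3 : k.symm x ∈ A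
        · refine ⟨k⁻¹, G.inv_mem hkG, ?_⟩
          filter_upwards [ck.isOpen.mem_nhds h3] with z hz
          have e : z = k (k.symm z) := (k.apply_symm_apply z).symm
          change t z = k.symm z
          nth_rewrite 1 [e]
          exact t3 _ hz
        · refine ⟨1, G.one_mem, ?_⟩
          filter_upwards [cA.compl.isOpen.mem_nhds h1, cf.compl.isOpen.mem_nhds h2,
            ck.compl.isOpen.mem_nhds h3] with z hz1 hz2 hz3
          exact t4 z hz1 hz2 hz3
  · intro x hx; rw [t1 x hx]; exact hf x hx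
  · intro x hx; rw [t1 x hx, t2 x hx]; exact hk x hx
  · intro x
    rcases cases x with h | ⟨u, hu, rfl⟩ | ⟨u, hu, rfl⟩ | ⟨h1, h2, h3⟩
    · rw [t1 x h, t2 x h, t3 x h]
    · rw [t2 u hu, t3 u hu, t1 u hu]
    · rw [t3 u hu, t1 u hu, t2 u hu]
    · rw [t4 x h1 h2 h3, t4 x h1 h2 h3, t4 x h1 h2 h3]
  · intro x hx h1 h2
    rcases cases x with h | ⟨u, hu, rfl⟩ | ⟨u, hu, rfl⟩ | ⟨h1, h2, h3⟩
    · exact absurd h hx
    · rw [t2 u hu, t3 u hu] at h2; exact absurd hu h2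
    · rw [t3 u hu] at h1; exact absurd hu h1
    · exact t4 x h1 h2 h3

end tri

/-- subgroup generated by the `3`-cycles supported in `D` -/
def TG (G : Subgroup (Perm X)) (D : Set X) : Subgroup (Perm X) :=
  Subgroup.closure {t | (∃ I, IsTri G t I) ∧ ∀ x ∉ D, t x = x}

lemma TG_mono (G : Subgroup (Perm X)) {D E : Set X} (h : D ⊆ E) : TG G D ≤ TG G E :=
  Subgroup.closure_mono fun _ ht => ⟨ht.1, fun x hx => ht.2 x fun hd => hx (h hd)⟩

lemma TG_fix {G : Subgroup (Perm X)} {D : Set X} {g : Perm X} (hg : g ∈ TG G D) :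
    ∀ x ∉ D, g x = x := by
  induction hg using Subgroup.closure_induction with
  | mem s hs => exact hs.2
  | one => exact fun x _ => rfl
  | mul a b _ _ iha ihb => intro x hx; change a (b x) = x; rw [ihb x hx, iha x hx]
  | inv a _ iha => intro x hx; exact symm_fix (iha x hx)

lemma TG_mapsTo {G : Subgroup (Perm X)} {D : Set X} {g : Perm X} (hg : g ∈ TG G D) :
    ∀ x ∈ D, g x ∈ D := by
  intro x hx
  by_contra h
  have h1 := TG_fix hg _ h
  have := g.injective h1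
  rw [this] at h
  exact h hx

lemma Vig.TG_le {G : Subgroup (Perm X)} (hG : Vig G) (hgen : G ≤ Subgroup.closure (SFix G))
    (D : Set X) : TG G D ≤ G := by
  rw [TG, Subgroup.closure_le]
  rintro t ⟨⟨I, hI⟩, -⟩
  exact hG.tri_mem hgen hI

lemma mem_TG {G : Subgroup (Perm X)} {D : Set X} {t : Perm X} {I : Set X} (ht : IsTri G t I)
    (h : ∀ x ∉ D, t x = x) : t ∈ TG G D := Subgroup.subset_closure ⟨⟨I, ht⟩, h⟩

/-- one step of the extension lemma -/
lemma Vig.ext1 {G : Subgroup (Perm X)} (hG : Vig G) {D A : Set X} {f : Perm X} (hD : IsClopen D)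
    (hA : IsClopen A) (hAD : A ⊆ D) (hf : f ∈ G) (hfD : ∀ x ∈ A, f x ∈ D)
    (hfA : ∀ x ∈ A, f x ∉ A) (hr : ∃ y ∈ D, y ∉ A ∧ f.symm y ∉ A) :
    ∃ g ∈ TG G D, ∀ x ∈ A, g x = f x := by
  obtain ⟨y, hyD, hyA, hyf⟩ := hr
  obtain ⟨k, hk, hk1, hk2⟩ := hG.move (D := D) (A := A) (E := D ∩ {z | z ∉ A ∧ f.symm z ∉ A})
    hD hA (hD.inter (hA.compl.inter (hG.clopen_inv hf hA).compl)) hAD inter_subset_left
    ⟨y, hyD, hyA, hyf⟩ ⟨y, hyD, hyA⟩
  obtain ⟨t, ht, h1, h2, h3, h4⟩ := exists_tri hG hf hk hA hfA (fun x hx => (hk1 x hx).2.1)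
    (fun x hx => (hk1 x hx).2.2)
  refine ⟨t, mem_TG ht (fun x hx => ?_), h1⟩
  apply h4
  · exact fun h => hx (hAD h)
  · intro h; apply hx; simpa using hfD _ h
  · intro h; apply hx; simpa using (hk1 _ h).1

/-- extension lemma, with room -/
lemma Vig.ext2 {G : Subgroup (Perm X)} (hG : Vig G) {D A : Set X} {f : Perm X} (hD : IsClopen D)
    (hA : IsClopen A) (hAD : A ⊆ D) (hf : f ∈ G) (hfD : ∀ x ∈ A, f x ∈ D)
    (hr : ∃ y ∈ D, y ∉ A ∧ f.symm y ∉ A) :
    ∃ g ∈ TG G D, ∀ x ∈ A, g x = f x := by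
  obtain ⟨y, hyD, hyA, hyf⟩ := hr
  have hR : IsClopen (D ∩ {z | z ∉ A ∧ f.symm z ∉ A}) :=
    hD.inter (hA.compl.inter (hG.clopen_inv hf hA).compl)
  obtain ⟨K, hK, hKne, hKR, y', hy', hy'K⟩ := exists_clopen_proper hR.isOpen
    ⟨y, hyD, hyA, hyf⟩
  obtain ⟨g0, hg0, hg1, -⟩ := hG.move (D := D) (A := A) (E := K) hD hA hK hAD
    (fun z hz => (hKR hz).1) hKne ⟨y, hyD, hyA⟩
  obtain ⟨t1, ht1, h1⟩ := hG.ext1 hD hA hAD hg0 (fun x hx => (hKR (hg1 x hx)).1)
    (fun x hx => (hKR (hg1 x hx)).2.1)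
    ⟨y', hy'.1, hy'.2.1, fun h => hy'K (by simpa using hg1 _ h)⟩
  obtain ⟨t2, ht2, h2⟩ := hG.ext1 (A := {z | g0.symm z ∈ A}) (f := f * g0⁻¹) hD
    (hG.clopen_inv hg0 hA)
    (fun z hz => by
      have := (hKR (hg1 _ hz)).1
      simpa using this)
    (G.mul_mem hf (G.inv_mem hg0))
    (fun z hz => hfD _ hz)
    (fun z hz => by
      change g0.symm (f (g0.symm z)) ∉ A
      intro hc
      have h3 := (hKR (hg1 _ hc)).2.2
      rw [Equiv.apply_symm_apply, Equiv.symm_apply_apply] at h3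
      exact h3 hz)
    ⟨y', hy'.1, fun h => hy'K (by simpa using hg1 _ h), by
      change g0.symm (g0 (f.symm y')) ∉ A
      rw [Equiv.symm_apply_apply]
      exact hy'.2.2⟩
  refine ⟨t2 * t1, (TG G D).mul_mem ht2 ht1, fun x hx => ?_⟩
  change t2 (t1 x) = f x
  rw [h1 x hx, h2 (g0 x) (by simpa using hx)]
  change f (g0.symm (g0 x)) = f x
  simp

/-- **Extension lemma**: every element of `G` mapping a proper clopen subset `A` of `D` onto a
proper subset of `D` agrees on `A` with a product of `3`-cycles supported in `D`. -/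
lemma Vig.ext {G : Subgroup (Perm X)} (hG : Vig G) {D A : Set X} {f : Perm X} (hD : IsClopen D)
    (hA : IsClopen A) (hAD : A ⊆ D) (hf : f ∈ G) (hfD : ∀ x ∈ A, f x ∈ D)
    (hr1 : ∃ y ∈ D, y ∉ A) (hr2 : ∃ y ∈ D, f.symm y ∉ A) :
    ∃ g ∈ TG G D, ∀ x ∈ A, g x = f x := by
  by_cases hr : ∃ y ∈ D, y ∉ A ∧ f.symm y ∉ A
  · exact hG.ext2 hD hA hAD hf hfD hr
  push Not at hr
  obtain ⟨y, hyD, hyA⟩ := hr1
  obtain ⟨K, hK, hKne, hKR, y', hy', hy'K⟩ := exists_clopen_proper (hD.diff hA).isOpen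
    ⟨y, hyD, hyA⟩
  obtain ⟨g0, hg0, hg1, -⟩ := hG.move (D := D) (A := A) (E := K) hD hA hK hAD
    (fun z hz => (hKR hz).1) hKne ⟨y, hyD, hyA⟩
  obtain ⟨t1, ht1, h1⟩ := hG.ext1 hD hA hAD hg0 (fun x hx => (hKR (hg1 x hx)).1)
    (fun x hx => (hKR (hg1 x hx)).2)
    ⟨y', hy'.1, hy'.2, fun h => hy'K (by simpa using hg1 _ h)⟩
  obtain ⟨z, hzD, hzf⟩ := hr2
  have hzA : z ∈ A := by
    by_contra h
    exact hzf (hr z hzD h)
  obtain ⟨t2, ht2, h2⟩ := hG.ext2 (A := {z | g0.symm z ∈ A}) (f := f * g0⁻¹) hD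
    (hG.clopen_inv hg0 hA)
    (fun z hz => by
      have := (hKR (hg1 _ hz)).1
      simpa using this)
    (G.mul_mem hf (G.inv_mem hg0))
    (fun z hz => hfD _ hz)
    ⟨z, hzD, fun h => by
      have h3 := (hKR (hg1 _ h)).2
      rw [Equiv.apply_symm_apply] at h3
      exact h3 hzA, by
      change g0.symm (g0 (f.symm z)) ∉ A
      rw [Equiv.symm_apply_apply]
      exact hzf⟩
  refine ⟨t2 * t1, (TG G D).mul_mem ht2 ht1, fun x hx => ?_⟩
  change t2 (t1 x) = f x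
  rw [h1 x hx, h2 (g0 x) (by simpa using hx)]
  change f (g0.symm (g0 x)) = f x
  simp

/-- **Extension lemma**, several pieces. -/
lemma Vig.extMulti {G : Subgroup (Perm X)} (hG : Vig G) (hgen : G ≤ Subgroup.closure (SFix G))
    {D : Set X} (hD : IsClopen D) {κ : Type*} (s : Finset κ) (A : κ → Set X) (f : κ → Perm X)
    (hA : ∀ a ∈ s, IsClopen (A a)) (hAD : ∀ a ∈ s, A a ⊆ D) (hf : ∀ a ∈ s, f a ∈ G)
    (hfD : ∀ a ∈ s, ∀ x ∈ A a, f a x ∈ D)
    (hd1 : ∀ a ∈ s, ∀ b ∈ s, a ≠ b → ∀ x ∈ A a, x ∉ A b)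
    (hd2 : ∀ a ∈ s, ∀ b ∈ s, a ≠ b → ∀ x ∈ A a, ∀ y ∈ A b, f a x ≠ f b y)
    (hr1 : ∃ y ∈ D, ∀ a ∈ s, y ∉ A a) (hr2 : ∃ y ∈ D, ∀ a ∈ s, (f a).symm y ∉ A a) :
    ∃ g ∈ TG G D, ∀ a ∈ s, ∀ x ∈ A a, g x = f a x := by
  classical
  induction s using Finset.induction_on with
  | empty => exact ⟨1, (TG G D).one_mem, by simp⟩
  | insert b s hb ih =>
    obtain ⟨g, hg, hgs⟩ := ih
      (fun a ha => hA a (Finset.mem_insert_of_mem ha))
      (fun a ha => hAD a (Finset.mem_insert_of_mem ha))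
      (fun a ha => hf a (Finset.mem_insert_of_mem ha))
      (fun a ha => hfD a (Finset.mem_insert_of_mem ha))
      (fun a ha b hb => hd1 a (Finset.mem_insert_of_mem ha) b (Finset.mem_insert_of_mem hb))
      (fun a ha b hb => hd2 a (Finset.mem_insert_of_mem ha) b (Finset.mem_insert_of_mem hb))
      (by obtain ⟨y, hy, h⟩ := hr1
          exact ⟨y, hy, fun a ha => h a (Finset.mem_insert_of_mem ha)⟩)
      (by obtain ⟨y, hy, h⟩ := hr2
          exact ⟨y, hy, fun a ha => h a (Finset.mem_insert_of_mem ha)⟩)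
    have hgG : g ∈ G := hG.TG_le hgen D hg
    have hbs : b ∈ insert b s := Finset.mem_insert_self b s
    -- the set which is still available
    set Ds : Set X := D ∩ ⋂ a ∈ s, {z | (f a).symm z ∉ A a} with hDs
    have hDsc : IsClopen Ds := by
      refine hD.inter ?_
      exact isClopen_biInter_finset fun a ha =>
        (hG.clopen_inv (hf a (Finset.mem_insert_of_mem ha))
          (hA a (Finset.mem_insert_of_mem ha))).compl
    have memDs : ∀ z, z ∈ Ds ↔ z ∈ D ∧ ∀ a ∈ s, (f a).symm z ∉ A a := by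
      intro z; simp [hDs]
    obtain ⟨y1, hy1D, hy1⟩ := hr1
    obtain ⟨y2, hy2D, hy2⟩ := hr2
    have key : ∀ z, g.symm z ∈ A b → z ∈ Ds := by
      intro z hz
      rw [memDs]
      refine ⟨?_, fun a ha hza => ?_⟩
      · have := TG_mapsTo hg _ (hAD b hbs hz)
        simpa using this
      · have h1 := hgs a ha _ hza
        rw [Equiv.apply_symm_apply] at h1
        have h2 : g.symm z = (f a).symm z := by rw [Equiv.symm_apply_eq]; exact h1.symm
        rw [h2] at hz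
        exact hd1 b hbs a (Finset.mem_insert_of_mem ha) (fun e => hb (e ▸ ha)) _ hz hza
    obtain ⟨h, hh, hh1⟩ := hG.ext (D := Ds) (A := {z | g.symm z ∈ A b}) (f := f b * g⁻¹) hDsc
      (hG.clopen_inv hgG (hA b hbs)) key
      (G.mul_mem (hf b hbs) (G.inv_mem hgG))
      (fun z hz => by
        rw [memDs]
        change f b (g.symm z) ∈ D ∧ ∀ a ∈ s, (f a).symm (f b (g.symm z)) ∉ A a
        refine ⟨hfD b hbs _ hz, fun a ha hc => ?_⟩
        apply hd2 a (Finset.mem_insert_of_mem ha) b hbs (fun e => hb (e ▸ ha)) _ hc _ hz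
        simp)
      ⟨g y1, by
        rw [memDs]
        refine ⟨TG_mapsTo hg _ hy1D, fun a ha hc => ?_⟩
        have h1 := hgs a ha _ hc
        rw [Equiv.apply_symm_apply] at h1
        rw [g.injective h1] at hc
        exact hy1 a (Finset.mem_insert_of_mem ha) hc, by
        simpa using hy1 b hbs⟩
      ⟨y2, by
        rw [memDs]
        exact ⟨hy2D, fun a ha => hy2 a (Finset.mem_insert_of_mem ha)⟩, by
        change g.symm (g ((f b).symm y2)) ∉ A b
        simpa using hy2 b hbs⟩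
    refine ⟨h * g, (TG G D).mul_mem (TG_mono G (fun z hz => ((memDs z).1 hz).1) hh) hg, ?_⟩
    intro a ha x hx
    change h (g x) = f a x
    rcases Finset.mem_insert.1 ha with rfl | ha'
    · have h2 := hh1 (g x) (by simpa using hx)
      rw [h2]
      change f a (g.symm (g x)) = f a x
      simp
    · rw [hgs a ha' x hx]
      apply TG_fix hh
      intro hc
      exact ((memDs _).1 hc).2 a ha' (by simpa using hx)

end Pool.Agent.Helper91
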