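import Pool.Agent.Helper91.V4

set_option linter.unusedSectionVars false

namespace Pool.Agent.Helper91

open Set Topology Equiv Filter

variable {X : Type*} [TopologicalSpace X] [CLike X]

lemma conj_closure {G : Subgroup (Perm X)} {S : Set (Perm X)}
    (h : ∀ g ∈ G, ∀ s ∈ S, g * s * g⁻¹ ∈ S) {g k : Perm X} (hg : g ∈ G)
    (hk : k ∈ Subgroup.closure S) : g * k * g⁻¹ ∈ Subgroup.closure S := by
  induction hk using Subgroup.closure_induction with
  | mem s hs => exact Subgroup.subset_closure (h g hg s hs)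
  | one => simp
  | mul a b _ _ iha ihb =>
    have : g * (a * b) * g⁻¹ = (g * a * g⁻¹) * (g * b * g⁻¹) := by group
    rw [this]; exact Subgroup.mul_mem _ iha ihb
  | inv a _ iha =>
    have : g * a⁻¹ * g⁻¹ = (g * a * g⁻¹)⁻¹ := by group
    rw [this]; exact Subgroup.inv_mem _ iha

lemma simple_le {G K : Subgroup (Perm X)} (hs : IsSimpleGroup G)
    (hn : ∀ g ∈ G, ∀ k ∈ K, g * k * g⁻¹ ∈ K) (hK : ∃ k ∈ K, k ∈ G ∧ k ≠ 1) : G ≤ K := by
  have hnorm : (K.subgroupOf G).Normal := by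
    constructor
    intro n hn' g
    rw [Subgroup.mem_subgroupOf] at hn' ⊢
    exact hn g g.2 n hn'
  rcases hs.eq_bot_or_eq_top_of_normal _ hnorm with h | h
  · obtain ⟨k, hkK, hkG, hk1⟩ := hK
    exfalso
    have : (⟨k, hkG⟩ : G) ∈ K.subgroupOf G := by rw [Subgroup.mem_subgroupOf]; exact hkK
    rw [h, Subgroup.mem_bot] at this
    exact hk1 (congrArg Subtype.val this)
  · intro g hg
    have : (⟨g, hg⟩ : G) ∈ K.subgroupOf G := by rw [h]; exact Subgroup.mem_top _
    rw [Subgroup.mem_subgroupOf] at this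
    exact this

/-- there is a nontrivial 3-cycle, with a base inside any given nonempty clopen set `D` and
support inside `D`. -/
lemma Vig.exists_tri_in {G : Subgroup (Perm X)} (hG : Vig G) {D : Set X} (hD : IsClopen D)
    (hDne : D.Nonempty) : ∃ t : Perm X, ∃ I, IsTri G t I ∧ I.Nonempty ∧ I ⊆ D ∧
      (∀ x ∉ D, t x = x) ∧ ∃ f ∈ G, ∃ k ∈ G, (∀ x ∈ I, t x = f x) ∧ (∀ x ∈ I, t (t x) = k x) := by
  obtain ⟨I, hI, hIne, hID, y, hyD, hyI⟩ := exists_clopen_proper hD.isOpen hDne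
  obtain ⟨J, hJ, hJne, hJD, z, hzD, hzJ⟩ := exists_clopen_proper (hD.diff hI).isOpen
    ⟨y, hyD, hyI⟩
  obtain ⟨f, hf, hf1, -⟩ := hG.move hD hI hJ hID (fun x hx => (hJD hx).1) hJne ⟨y, hyD, hyI⟩
  obtain ⟨k, hk, hk1, -⟩ := hG.move (E := (D \ I) \ J) hD hI ((hD.diff hI).diff hJ) hID
    (fun x hx => hx.1.1) ⟨z, hzD, hzJ⟩ ⟨y, hyD, hyI⟩
  obtain ⟨t, ht, h1, h2, h3, h4⟩ := exists_tri hG hf hk hI
    (fun x hx => (hJD (hf1 x hx)).2) (fun x hx => (hk1 x hx).1.2)
    (fun x hx hc => by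
      have := hf1 _ hc
      rw [Equiv.apply_symm_apply] at this
      exact (hk1 x hx).2 this)
  refine ⟨t, I, ht, hIne, hID, fun x hx => ?_, f, hf, k, hk, h1, fun x hx => ?_⟩
  · apply h4 x (fun h => hx (hID h))
    · intro h; apply hx
      have := (hJD (hf1 _ h)).1
      simpa using this
    · intro h; apply hx
      have := (hk1 _ h).1.1
      simpa using this
  · rw [h1 x hx, h2 x hx]

lemma IsTri.ne_one {G : Subgroup (Perm X)} {t : Perm X} {I : Set X} (ht : IsTri G t I)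
    (hne : I.Nonempty) : t ≠ 1 := by
  rintro rfl
  obtain ⟨x, hx⟩ := hne
  exact ht.d1 x hx hx

lemma LocG.conj {G : Subgroup (Perm X)} (hG : Vig G) {t g : Perm X} (hg : g ∈ G)
    (ht : LocG G t) : LocG G (g * t * g⁻¹ : Perm X) := by
  intro x
  obtain ⟨h, hh, he⟩ := ht (g.symm x)
  refine ⟨g * h * g⁻¹, G.mul_mem (G.mul_mem hg hh) (G.inv_mem hg), ?_⟩
  have hc : Tendsto g.symm (𝓝 x) (𝓝 (g.symm x)) := (hG.cont _ (mem_symm hg)).continuousAt
  filter_upwards [hc.eventually he] with z hz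
  change g (t (g.symm z)) = g (h (g.symm z))
  rw [hz]

lemma IsTri.conj {G : Subgroup (Perm X)} (hG : Vig G) {t g : Perm X} {I : Set X} (hg : g ∈ G)
    (ht : IsTri G t I) : IsTri G (g * t * g⁻¹) {x | g.symm x ∈ I} := by
  have ap : ∀ x, (g * t * g⁻¹) x = g (t (g.symm x)) := fun _ => rfl
  refine ⟨ht.loc.conj hG hg, hG.clopen_inv hg ht.clopen, ?_, ?_, ?_, ?_⟩
  · intro x hx
    simp only [ap, mem_ofPred_eq, Equiv.symm_apply_apply]
    exact ht.d1 _ hx
  · intro x hx
    simp only [ap, mem_ofPred_eq, Equiv.symm_apply_apply]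
    exact ht.d2 _ hx
  · intro x
    simp only [ap, Equiv.symm_apply_apply]
    rw [ht.cube, Equiv.apply_symm_apply]
  · intro x h1 h2 h3
    simp only [ap, mem_ofPred_eq, Equiv.symm_apply_apply] at h1 h2 h3 ⊢
    rw [ht.fix _ h1 h2 h3, Equiv.apply_symm_apply]

lemma TG_conj {G : Subgroup (Perm X)} (hG : Vig G) {D E : Set X} {g t : Perm X} (hg : g ∈ G)
    (hDE : ∀ x, x ∉ E → g.symm x ∉ D) (ht : t ∈ TG G D) : g * t * g⁻¹ ∈ TG G E := by
  induction ht using Subgroup.closure_induction with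
  | mem s hs =>
    obtain ⟨⟨I, hI⟩, hfix⟩ := hs
    refine mem_TG (hI.conj hG hg) (fun x hx => ?_)
    change g (s (g.symm x)) = x
    rw [hfix _ (hDE x hx), Equiv.apply_symm_apply]
  | one => simp
  | mul a b _ _ iha ihb =>
    have : g * (a * b) * g⁻¹ = (g * a * g⁻¹) * (g * b * g⁻¹) := by group
    rw [this]; exact Subgroup.mul_mem _ iha ihb
  | inv a _ iha =>
    have : g * a⁻¹ * g⁻¹ = (g * a * g⁻¹)⁻¹ := by group
    rw [this]; exact Subgroup.inv_mem _ iha

/-- simple vigorous groups are generated by the elements fixing a nonempty clopen set -/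
lemma Vig.gen {G : Subgroup (Perm X)} (hG : Vig G) (hs : IsSimpleGroup G) :
    G ≤ Subgroup.closure (SFix G) := by
  apply simple_le hs
  · intro g hg k hk
    refine conj_closure (G := G) ?_ hg hk
    rintro g hg s ⟨hsG, F, hF, hFne, hsF⟩
    refine ⟨G.mul_mem (G.mul_mem hg hsG) (G.inv_mem hg), {x | g.symm x ∈ F},
      hG.clopen_inv hg hF, ?_, ?_⟩
    · obtain ⟨x, hx⟩ := hFne
      exact ⟨g x, by simpa using hx⟩
    · intro x hx
      change g (s (g.symm x)) = x
      rw [hsF _ hx, Equiv.apply_symm_apply]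
  · -- a nontrivial element with small support
    have hne : (univ : Set X).Nonempty := by
      haveI := hs.toNontrivial
      by_contra h
      rw [Set.not_nonempty_iff_eq_empty, Set.univ_eq_empty_iff] at h
      obtain ⟨a, b, hab⟩ := exists_pair_ne G
      apply hab
      apply Subtype.ext
      ext x
      exact (h.false x).elim
    obtain ⟨D, hD, hDne, -, y, -, hyD⟩ := exists_clopen_proper (X := X) isOpen_univ hne
    obtain ⟨B, hB, hBne, hBD, z, hzD, hzB⟩ := exists_clopen_proper hD.isOpen hDne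
    obtain ⟨g, hg, hg1, hg2⟩ := hG.move (E := D \ B) hD hB (hD.diff hB) hBD sdiff_subset
      ⟨z, hzD, hzB⟩ ⟨z, hzD, hzB⟩
    refine ⟨g, Subgroup.subset_closure ⟨hg, Dᶜ, hD.compl, ⟨y, hyD⟩, fun x hx => hg2 x hx⟩,
      hg, ?_⟩
    rintro rfl
    obtain ⟨x, hx⟩ := hBne
    exact (hg1 x hx).2 hx

/-- a simple vigorous group is generated by its `3`-cycles -/
lemma Vig.le_TG {G : Subgroup (Perm X)} (hG : Vig G) (hs : IsSimpleGroup G) :
    G ≤ TG G univ := by
  apply simple_le hs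
  · intro g hg k hk
    exact TG_conj hG hg (fun x hx => absurd (mem_univ x) hx) hk
  · have hne : (univ : Set X).Nonempty := by
      haveI := hs.toNontrivial
      by_contra h
      rw [Set.not_nonempty_iff_eq_empty, Set.univ_eq_empty_iff] at h
      obtain ⟨a, b, hab⟩ := exists_pair_ne G
      apply hab
      apply Subtype.ext
      ext x
      exact (h.false x).elim
    obtain ⟨t, I, ht, hIne, -, htf, -⟩ := hG.exists_tri_in isClopen_univ hne
    exact ⟨t, mem_TG ht htf, hG.tri_mem (hG.gen hs) ht, ht.ne_one hIne⟩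

/-- finitely many points of `D` may be moved into `E ⊆ D` by a product of 3-cycles in `D`. -/
lemma Vig.compress {G : Subgroup (Perm X)} (hG : Vig G) {D E : Set X} (hD : IsClopen D)
    (hE : IsClopen E) (hED : E ⊆ D) (hEne : E.Nonempty) {Z : Set X} (hZ : Z.Finite)
    (hZD : Z ⊆ D) : ∃ h ∈ TG G D, ∀ z ∈ Z, h z ∈ E := by
  by_cases hc : ∀ z ∈ Z, z ∈ E
  · exact ⟨1, (TG G D).one_mem, hc⟩
  push Not at hc
  obtain ⟨w, hwZ, hwE⟩ := hc
  obtain ⟨y, hyD, hyZ⟩ := exists_mem_avoid hD.isOpen ⟨w, hZD hwZ⟩ hZ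
  obtain ⟨V, hV, hyV, hVD, hav⟩ := exists_clopen_avoid hD.isOpen hyD hZ hyZ
  obtain ⟨g, hg, hg1, hg2⟩ := hG.move (A := D \ V) hD (hD.diff hV) hE sdiff_subset hED hEne
    ⟨y, hyD, fun h => h.2 hyV⟩
  obtain ⟨h, hh, hh1⟩ := hG.ext (A := D \ V) hD (hD.diff hV) sdiff_subset hg
    (fun x hx => hED (hg1 x hx)) ⟨y, hyD, fun h => h.2 hyV⟩
    ⟨w, hZD hwZ, fun hc => hwE (by simpa using hg1 _ hc)⟩
  refine ⟨h, hh, fun z hz => ?_⟩
  rw [hh1 z ⟨hZD hz, hav z hz⟩]
  exact hg1 z ⟨hZD hz, hav z hz⟩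

/-- **Union lemma** -/
lemma Vig.union_le {G H : Subgroup (Perm X)} (hG : Vig G) (hgen : G ≤ Subgroup.closure (SFix G))
    {D1 D2 : Set X} (hD1 : IsClopen D1) (hD2 : IsClopen D2) (hne : (D1 ∩ D2).Nonempty)
    (h1 : TG G D1 ≤ H) (h2 : TG G D2 ≤ H) : TG G (D1 ∪ D2) ≤ H := by
  rw [TG, Subgroup.closure_le]
  rintro t ⟨⟨I, ht⟩, hfix⟩
  have htG : t ∈ G := hG.tri_mem hgen ht
  refine ht.mem_of_local (fun x hxI => ?_)
  have n1 : t x ≠ x := fun e => ht.d1 x hxI (e.symm ▸ hxI)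
  have n3 : t (t x) ≠ t x := fun e => n1 (t.injective e)
  have n2 : t (t (t x)) ≠ t (t x) := fun e => n3 (t.injective e)
  have p0 : x ∈ D1 ∪ D2 := by by_contra h; exact n1 (hfix x h)
  have p1 : t x ∈ D1 ∪ D2 := by by_contra h; exact n3 (hfix _ h)
  have p2 : t (t x) ∈ D1 ∪ D2 := by by_contra h; exact n2 (hfix _ h)
  obtain ⟨h, hh, hh1⟩ := hG.compress (E := D1 ∩ D2) hD2 (hD1.inter hD2) inter_subset_right hne
    (Z := {x, t x, t (t x)} ∩ D2) (Set.Finite.inter_of_left (by simp) _) inter_subset_right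
  have hmem : ∀ z ∈ ({x, t x, t (t x)} : Set X), z ∈ D1 ∪ D2 → h z ∈ D1 := by
    intro z hz hz2
    by_cases hzD : z ∈ D2
    · exact (hh1 z ⟨hz, hzD⟩).1
    · rw [TG_fix hh z hzD]
      exact hz2.resolve_right hzD
  have q0 := hmem x (by simp) p0
  have q1 := hmem (t x) (by simp) p1
  have q2 := hmem (t (t x)) (by simp) p2
  have hhG : h ∈ G := hG.TG_le hgen _ hh
  have c0 := hG.clopen_pre hhG hD1
  have c1 : IsClopen {z | h (t z) ∈ D1} := hG.clopen_pre (G.mul_mem hhG htG) hD1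
  have c2 : IsClopen {z | h (t (t z)) ∈ D1} :=
    hG.clopen_pre (G.mul_mem (G.mul_mem hhG htG) htG) hD1
  refine ⟨_, c0.inter (c1.inter c2), ⟨q0, q1, q2⟩, fun J hJ hJN hJI => ?_⟩
  obtain ⟨c, hc, e1, e2, e3, e4⟩ := exists_tri hG htG (G.mul_mem htG htG) hJ
    (fun z hz hc => ht.d1 z (hJI hz) (hJI hc))
    (fun z hz hc => ht.d2 z (hJI hz) (hJI hc))
    (fun z hz hc => by
      change t.symm (t (t z)) ∈ J at hc
      rw [Equiv.symm_apply_apply] at hc
      exact ht.d1 z (hJI hz) (hJI hc))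
  have e4' : ∀ x, x ∉ J → t x ∉ J → t (t x) ∉ J → c x = x := by
    intro z h1 h2 h3
    apply e4 z h1
    · intro h; apply h3
      have := ht.cube (t.symm z)
      rw [Equiv.apply_symm_apply] at this
      rw [this]; exact h
    · intro h; apply h2
      change t.symm (t.symm z) ∈ J at h
      have := ht.cube (t.symm (t.symm z))
      rw [Equiv.apply_symm_apply, Equiv.apply_symm_apply] at this
      rw [this]; exact h
  refine ⟨c, ?_, ?_, e4'⟩
  · have hcj : h * c * h⁻¹ ∈ TG G D1 := by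
      refine mem_TG (hc.conj hG hhG) (fun z hz => ?_)
      change h (c (h.symm z)) = z
      rw [e4', Equiv.apply_symm_apply]
      · intro hc; apply hz; simpa using (hJN hc).1
      · intro hc; apply hz
        have := (hJN hc).2.2
        simp only [mem_ofPred_eq] at this
        rw [ht.cube, Equiv.apply_symm_apply] at this
        exact this
      · intro hc; apply hz
        have := (hJN hc).2.1
        simp only [mem_ofPred_eq] at this
        rw [ht.cube, Equiv.apply_symm_apply] at this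
        exact this
    have h3 := H.mul_mem (H.mul_mem (H.inv_mem (h2 hh)) (h1 hcj)) (h2 hh)
    have h4 : h⁻¹ * (h * c * h⁻¹) * h = c := by group
    rw [h4] at h3; exact h3
  · intro z hz
    rcases hz with hz | hz | hz
    · exact e1 z hz
    · have := e3 _ hz
      change c (t (t (t z))) = t z at this
      rw [ht.cube] at this; exact this
    · have := e2 _ hz
      rw [ht.cube] at this
      rw [this]
      change t (t (t (t z))) = t z
      rw [ht.cube]

end Pool.Agent.Helper91
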