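import Pool.Agent.Helper91.V5

set_option linter.unusedSectionVars false

namespace Pool.Agent.Helper91

open Set Topology Equiv Filter

variable {X : Type*} [TopologicalSpace X] [CLike X]

lemma exists_kap (ι : X → X) (hι : Function.Injective ι) : ∃ κ : Perm X →* Perm X,
    (∀ f x, κ f (ι x) = ι (f x)) ∧ (∀ f y, y ∉ range ι → κ f y = y) := by
  classical
  refine ⟨Perm.extendDomainHom (Equiv.ofInjective ι hι), fun f x => ?_, fun f y hy => ?_⟩
  · have := Perm.extendDomain_apply_image f (Equiv.ofInjective ι hι) x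
    simpa using this
  · exact Perm.extendDomain_apply_not_subtype f (Equiv.ofInjective ι hι) hy

/-- pull back of a permutation preserving the range of `ι` -/
lemma exists_pull (ι : X → X) (hι : Function.Injective ι) (t : Perm X)
    (h : ∀ x ∉ range ι, t x = x) : ∃ t' : Perm X, ∀ x, ι (t' x) = t (ι x) := by
  have h' : ∀ x, t x ∈ range ι ↔ x ∈ range ι := by
    intro x
    constructor
    · intro hx
      by_contra hc
      rw [h x hc] at hx
      exact hc hx
    · intro hx
      by_contra hc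
      have := t.injective (h _ hc)
      rw [this] at hc
      exact hc hx
  let e := Equiv.ofInjective ι hι
  let s : Perm (range ι) := t.subtypePerm (p := fun x => x ∈ range ι) h'
  refine ⟨(e.trans s).trans e.symm, fun x => ?_⟩
  change ι (e.symm (s (e x))) = t (ι x)
  rw [Equiv.apply_ofInjective_symm hι]
  rfl

/-- a copy of the whole space inside `D`, built from elements of `G` -/
structure Emb (G : Subgroup (Perm X)) (D : Set X) where
  ι : X → X
  inj : Function.Injective ι
  clopen : IsClopen (range ι)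
  sub : range ι ⊆ D
  C1 : Set X
  hC1 : IsClopen C1
  q1 : Perm X
  q2 : Perm X
  hq1 : q1 ∈ G
  hq2 : q2 ∈ G
  e1 : ∀ x ∈ C1, ι x = q1 x
  e2 : ∀ x ∉ C1, ι x = q2 x
  d : X
  hd : d ∉ range ι

lemma Vig.exists_emb {G : Subgroup (Perm X)} (hG : Vig G) {D : Set X} (hD : IsClopen D)
    (hDne : D.Nonempty) : Nonempty (Emb G D) := by
  classical
  have hne : (univ : Set X).Nonempty := ⟨hDne.some, trivial⟩
  obtain ⟨C1, hC1, hC1ne, -, c, -, hc⟩ := exists_clopen_proper (X := X) isOpen_univ hne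
  obtain ⟨D1, hD1, hD1ne, hD1D, y, hyD, hyD1⟩ := exists_clopen_proper hD.isOpen hDne
  obtain ⟨D2, hD2, hD2ne, hD2D, d, hd, hdD2⟩ := exists_clopen_proper (hD.diff hD1).isOpen
    ⟨y, hyD, hyD1⟩
  obtain ⟨q1, hq1, h1, -⟩ := hG.move isClopen_univ hC1 hD1 (subset_univ _) (subset_univ _)
    hD1ne ⟨c, trivial, hc⟩
  obtain ⟨x0, hx0⟩ := hC1ne
  obtain ⟨q2, hq2, h2, -⟩ := hG.move isClopen_univ hC1.compl hD2 (subset_univ _) (subset_univ _)
    hD2ne ⟨x0, trivial, fun h => h hx0⟩
  set ι : X → X := fun x => if x ∈ C1 then q1 x else q2 x with hι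
  have e1 : ∀ x ∈ C1, ι x = q1 x := fun x hx => if_pos hx
  have e2 : ∀ x ∉ C1, ι x = q2 x := fun x hx => if_neg hx
  have hr : range ι = {y | q1.symm y ∈ C1} ∪ {y | q2.symm y ∈ C1ᶜ} := by
    ext y
    constructor
    · rintro ⟨x, rfl⟩
      by_cases hx : x ∈ C1
      · left; simp only [mem_ofPred_eq]; rw [e1 x hx]; simpa using hx
      · right; simp only [mem_ofPred_eq]; rw [e2 x hx]; simpa using hx
    · rintro (hy | hy)
      · exact ⟨q1.symm y, by rw [e1 _ hy]; simp⟩
      · exact ⟨q2.symm y, by rw [e2 _ hy]; simp⟩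
  refine ⟨⟨ι, ?_, ?_, ?_, C1, hC1, q1, q2, hq1, hq2, e1, e2, d, ?_⟩⟩
  · intro x y hxy
    by_cases hx : x ∈ C1 <;> by_cases hy : y ∈ C1
    · rw [e1 x hx, e1 y hy] at hxy; exact q1.injective hxy
    · rw [e1 x hx, e2 y hy] at hxy
      exfalso
      have := (hD2D (h2 y hy)).2
      rw [← hxy] at this
      exact this (h1 x hx)
    · rw [e2 x hx, e1 y hy] at hxy
      exfalso
      have := (hD2D (h2 x hx)).2
      rw [hxy] at this
      exact this (h1 y hy)
    · rw [e2 x hx, e2 y hy] at hxy; exact q2.injective hxy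
  · rw [hr]
    exact (hG.clopen_inv hq1 hC1).union (hG.clopen_inv hq2 hC1.compl)
  · rintro y ⟨x, rfl⟩
    by_cases hx : x ∈ C1
    · rw [e1 x hx]; exact hD1D (h1 x hx)
    · rw [e2 x hx]; exact (hD2D (h2 x hx)).1
  · rintro ⟨x, hx⟩
    by_cases hx' : x ∈ C1
    · rw [e1 x hx'] at hx
      exact hd.2 (hx ▸ h1 x hx')
    · rw [e2 x hx'] at hx
      exact hdD2 (hx ▸ h2 x hx')

lemma Emb.loc {G : Subgroup (Perm X)} {D : Set X} (E : Emb G D) : LocG G E.ι := by
  intro x
  by_cases hx : x ∈ E.C1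
  · exact ⟨E.q1, E.hq1, by filter_upwards [E.hC1.isOpen.mem_nhds hx] with z hz using E.e1 z hz⟩
  · exact ⟨E.q2, E.hq2, by
      filter_upwards [E.hC1.compl.isOpen.mem_nhds hx] with z hz using E.e2 z hz⟩

/-- a `3`-cycle supported in the copy is the image of a `3`-cycle -/
lemma Emb.tri_pull {G : Subgroup (Perm X)} (hG : Vig G) {D : Set X} (E : Emb G D)
    {t t' : Perm X} {I : Set X} (ht : IsTri G t I) (h : ∀ x, E.ι (t' x) = t (E.ι x)) :
    IsTri G t' {x | E.ι x ∈ I} := by
  have cont : Continuous E.ι := by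
    rw [continuous_iff_continuousAt]
    intro x
    obtain ⟨g, hg, he⟩ := E.loc x
    have : ContinuousAt g x := (hG.cont g hg).continuousAt
    exact this.congr (by filter_upwards [he] with z hz using hz.symm)
  refine ⟨?_, ht.clopen.preimage cont, ?_, ?_, ?_, ?_⟩
  · intro x
    obtain ⟨g1, hg1, h1⟩ := E.loc x
    obtain ⟨g2, hg2, h2⟩ := ht.loc (E.ι x)
    obtain ⟨g3, hg3, h3⟩ := E.loc (t' x)
    refine ⟨g3⁻¹ * g2 * g1, G.mul_mem (G.mul_mem (G.inv_mem hg3) hg2) hg1, ?_⟩
    have hx1 : g1 x = E.ι x := h1.self_of_nhds.symm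
    have c1 : Tendsto g1 (𝓝 x) (𝓝 (E.ι x)) := by
      rw [← hx1]; exact (hG.cont g1 hg1).continuousAt
    have hx2 : g2 (E.ι x) = t (E.ι x) := h2.self_of_nhds.symm
    have hx3 : g3 (t' x) = E.ι (t' x) := h3.self_of_nhds.symm
    set m : Perm X := g3⁻¹ * g2 * g1 with hm
    have hmz : ∀ z, m z = g3.symm (g2 (g1 z)) := fun _ => rfl
    have hmx : m x = t' x := by
      rw [hmz, hx1, hx2, ← h x, ← hx3, Equiv.symm_apply_apply]
    have cm : Tendsto m (𝓝 x) (𝓝 (t' x)) := by
      rw [← hmx]
      exact (hG.cont m (G.mul_mem (G.mul_mem (G.inv_mem hg3) hg2) hg1)).continuousAt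
    filter_upwards [h1, c1.eventually h2, cm.eventually h3] with z z1 z2 z3
    apply E.inj
    rw [z3, hmz, Equiv.apply_symm_apply, h z, z1, z2]
  · intro x hx
    simp only [mem_ofPred_eq, h]
    exact ht.d1 _ hx
  · intro x hx
    simp only [mem_ofPred_eq, h]
    exact ht.d2 _ hx
  · intro x
    apply E.inj
    rw [h, h, h, ht.cube]
  · intro x h1 h2 h3
    simp only [mem_ofPred_eq, h] at h1 h2 h3
    apply E.inj
    rw [h, ht.fix _ h1 h2 h3]

/-- finitely many elements suffice -/
lemma exists_finite_subset_closure {M : Type*} [Group M] {S : Set M} {x : M}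
    (hx : x ∈ Subgroup.closure S) : ∃ T ⊆ S, T.Finite ∧ x ∈ Subgroup.closure T := by
  induction hx using Subgroup.closure_induction with
  | mem s hs => exact ⟨{s}, by simpa using hs, by simp, Subgroup.subset_closure rfl⟩
  | one => exact ⟨∅, by simp, by simp, Subgroup.one_mem _⟩
  | mul a b _ _ iha ihb =>
    obtain ⟨T, hT, hTf, haT⟩ := iha
    obtain ⟨U, hU, hUf, hbU⟩ := ihb
    exact ⟨T ∪ U, union_subset hT hU, hTf.union hUf, Subgroup.mul_mem _
      (Subgroup.closure_mono subset_union_left haT) (Subgroup.closure_mono subset_union_right hbU)⟩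
  | inv a _ iha =>
    obtain ⟨T, hT, hTf, haT⟩ := iha
    exact ⟨T, hT, hTf, Subgroup.inv_mem _ haT⟩

lemma fg_le_closure {M : Type*} [Group M] {G : Subgroup M} (hG : G.FG) {S : Set M}
    (hGS : G ≤ Subgroup.closure S) : ∃ T ⊆ S, T.Finite ∧ G ≤ Subgroup.closure T := by
  obtain ⟨F, hF⟩ := hG
  have hF' : ∀ f ∈ F, ∃ T ⊆ S, T.Finite ∧ f ∈ Subgroup.closure T := by
    intro f hf
    apply exists_finite_subset_closure
    apply hGS
    rw [← hF]
    exact Subgroup.subset_closure hf
  choose! T hT1 hT2 hT3 using hF'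
  refine ⟨⋃ f ∈ F, T f, ?_, ?_, ?_⟩
  · exact iUnion₂_subset hT1
  · exact F.finite_toSet.biUnion hT2
  · rw [← hF, Subgroup.closure_le]
    intro f hf
    exact Subgroup.closure_mono (subset_iUnion₂ (s := fun f _ => T f) f hf) (hT3 f hf)

/-- `G` is generated by finitely many conjugates of a given nontrivial element. -/
lemma exists_conj_gen {G : Subgroup (Perm X)} (hs : IsSimpleGroup G) (hfg : G.FG)
    {t : Perm X} (ht : t ∈ G) (ht1 : t ≠ 1) :
    ∃ (m : ℕ) (g : Fin m → Perm X), (∀ j, g j ∈ G) ∧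
      G ≤ Subgroup.closure (range fun j => g j * t * (g j)⁻¹) := by
  set S : Set (Perm X) := {x | ∃ g ∈ G, x = g * t * g⁻¹} with hS
  have h1 : G ≤ Subgroup.closure S := by
    apply simple_le hs
    · intro g hg k hk
      refine conj_closure (G := G) ?_ hg hk
      rintro g hg s ⟨h, hh, rfl⟩
      exact ⟨g * h, G.mul_mem hg hh, by group⟩
    · exact ⟨t, Subgroup.subset_closure ⟨1, G.one_mem, by simp⟩, ht, ht1⟩
  obtain ⟨T, hTS, hTf, hT⟩ := fg_le_closure hfg h1
  obtain ⟨m, f, hf⟩ := hTf.fin_embedding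
  have hmem : ∀ j, f j ∈ S := fun j => hTS (by rw [← hf]; exact ⟨j, rfl⟩)
  choose g hg1 hg2 using hmem
  refine ⟨m, g, hg1, ?_⟩
  have : (range fun j => g j * t * (g j)⁻¹) = T := by
    rw [← hf]
    congr 1
    funext j
    exact (hg2 j).symm
  rw [this]; exact hT

/-- support of a `3`-cycle -/
def triSupp (t : Perm X) (I : Set X) : Set X := {x | x ∈ I ∨ t x ∈ I ∨ t (t x) ∈ I}

/-- **Copies.** Inside every nonempty clopen set there is a clopen copy `D'` of the space such
that `TG G D'` is generated by conjugates of `t₀` by prescribed number of elements. -/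
lemma Vig.exists_copy {G : Subgroup (Perm X)} (hG : Vig G) (hgen : G ≤ Subgroup.closure (SFix G))
    {t : Perm X} {T : Set X} (ht : IsTri G t T) (hT : ∃ y, y ∉ triSupp t T)
    {m : ℕ} (g : Fin m → Perm X) (hg : ∀ j, g j ∈ G)
    (hGg : G ≤ Subgroup.closure (range fun j => g j * t * (g j)⁻¹))
    {D : Set X} (hD : IsClopen D) (hDne : D.Nonempty) :
    ∃ D' ⊆ D, IsClopen D' ∧ D'.Nonempty ∧ ∃ b : Fin m → Perm X, (∀ j, b j ∈ G) ∧
      (∀ j, ∀ x ∈ triSupp t T, b j x ∈ D') ∧
      TG G D' ≤ Subgroup.closure (range fun j => b j * t * (b j)⁻¹) := by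
  classical
  obtain ⟨E⟩ := hG.exists_emb hD hDne
  obtain ⟨κ, hκ1, hκ2⟩ := exists_kap E.ι E.inj
  have htG : t ∈ G := hG.tri_mem hgen ht
  have hSc : IsClopen (triSupp t T) :=
    ht.clopen.union ((hG.clopen_pre htG ht.clopen).union
      (hG.clopen_pre (G.mul_mem htG htG) ht.clopen))
  have hSt : ∀ x, x ∉ triSupp t T → t x = x := by
    intro x hx
    simp only [triSupp, mem_ofPred_eq, not_or] at hx
    exact ht.fix x hx.1 hx.2.1 hx.2.2
  have hSt2 : ∀ x, x ∈ triSupp t T → t x ∈ triSupp t T := by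
    intro x hx
    simp only [triSupp, mem_ofPred_eq] at hx ⊢
    rw [ht.cube]; tauto
  have hb : ∀ j, ∃ b ∈ G, ∀ x ∈ triSupp t T, b x = E.ι (g j x) := by
    intro j
    obtain ⟨b, hb, hb1⟩ := hG.extMulti hgen (D := univ) isClopen_univ
      (Finset.univ : Finset Bool)
      (fun a => if a then triSupp t T ∩ {x | g j x ∈ E.C1} else triSupp t T ∩ {x | g j x ∈ E.C1ᶜ})
      (fun a => if a then E.q1 * g j else E.q2 * g j)
      (by
        intro a _
        cases a
        · exact hSc.inter (hG.clopen_pre (hg j) E.hC1.compl)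
        · exact hSc.inter (hG.clopen_pre (hg j) E.hC1))
      (fun a _ => subset_univ _)
      (by
        intro a _
        cases a
        · exact G.mul_mem E.hq2 (hg j)
        · exact G.mul_mem E.hq1 (hg j))
      (fun _ _ _ _ => trivial)
      (by
        intro a _ b _ hab
        cases a <;> cases b <;> simp at hab ⊢
        · intro x _ h1 _; exact h1
        · intro x _ h1 _; exact h1)
      (by
        intro a _ b _ hab x hx y hy
        cases a <;> cases b <;> simp at hab
        · change E.q2 (g j x) ≠ E.q1 (g j y)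
          intro h
          have h1 := E.e2 _ hx.2
          have h2 := E.e1 _ hy.2
          rw [← h1, ← h2] at h
          have := E.inj h
          exact hx.2 (this ▸ hy.2)
        · change E.q1 (g j x) ≠ E.q2 (g j y)
          intro h
          have h1 := E.e1 _ hx.2
          have h2 := E.e2 _ hy.2
          rw [← h1, ← h2] at h
          have := E.inj h
          exact hy.2 (this ▸ hx.2))
      (by
        obtain ⟨y, hy⟩ := hT
        refine ⟨y, trivial, fun a _ => ?_⟩
        cases a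
        · exact fun h => hy h.1
        · exact fun h => hy h.1)
      (by
        refine ⟨E.d, trivial, fun a _ => ?_⟩
        cases a
        · intro h
          apply E.hd
          refine ⟨E.q2.symm E.d, ?_⟩
          have h2 : g j ((g j).symm (E.q2.symm E.d)) ∈ E.C1ᶜ := h.2
          rw [Equiv.apply_symm_apply] at h2
          rw [E.e2 _ h2, Equiv.apply_symm_apply]
        · intro h
          apply E.hd
          refine ⟨E.q1.symm E.d, ?_⟩
          have h2 : g j ((g j).symm (E.q1.symm E.d)) ∈ E.C1 := h.2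
          rw [Equiv.apply_symm_apply] at h2
          rw [E.e1 _ h2, Equiv.apply_symm_apply])
    refine ⟨b, hG.TG_le hgen _ hb, fun x hx => ?_⟩
    by_cases hx1 : g j x ∈ E.C1
    · have := hb1 true (Finset.mem_univ _) x ⟨hx, hx1⟩
      rw [this, E.e1 _ hx1]; rfl
    · have := hb1 false (Finset.mem_univ _) x ⟨hx, hx1⟩
      rw [this, E.e2 _ hx1]; rfl
  choose b hb1 hb2 using hb
  refine ⟨range E.ι, E.sub, E.clopen, ⟨_, mem_range_self E.d⟩, b, hb1,
    fun j x hx => by rw [hb2 j x hx]; exact mem_range_self _, ?_⟩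
  -- `κ` sends the generators to the generators
  have hκb : ∀ j, κ (g j * t * (g j)⁻¹) = b j * t * (b j)⁻¹ := by
    intro j
    ext y
    change _ = b j (t ((b j).symm y))
    by_cases hy : y ∈ range E.ι
    · obtain ⟨x, rfl⟩ := hy
      rw [hκ1]
      change E.ι (g j (t ((g j).symm x))) = _
      by_cases hu : (g j).symm x ∈ triSupp t T
      · have h1 := hb2 j _ hu
        rw [Equiv.apply_symm_apply] at h1
        rw [← h1, Equiv.symm_apply_apply, hb2 j _ (hSt2 _ hu)]
      · rw [hSt _ hu, Equiv.apply_symm_apply]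
        have hv : (b j).symm (E.ι x) ∉ triSupp t T := by
          intro hv
          have h1 := hb2 j _ hv
          rw [Equiv.apply_symm_apply] at h1
          have h2 := E.inj h1
          apply hu
          rw [h2, Equiv.symm_apply_apply]; exact hv
        rw [hSt _ hv, Equiv.apply_symm_apply]
    · rw [hκ2 _ _ hy]
      have hv : (b j).symm y ∉ triSupp t T := by
        intro hv
        have h1 := hb2 j _ hv
        rw [Equiv.apply_symm_apply] at h1
        exact hy ⟨_, h1.symm⟩
      rw [hSt _ hv, Equiv.apply_symm_apply]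
  rw [TG, Subgroup.closure_le]
  rintro s ⟨⟨I, hI⟩, hfix⟩
  obtain ⟨s', hs'⟩ := exists_pull E.ι E.inj s hfix
  have hs'G : s' ∈ G := hG.tri_mem hgen (E.tri_pull hG hI hs')
  have hκs : κ s' = s := by
    ext y
    by_cases hy : y ∈ range E.ι
    · obtain ⟨x, rfl⟩ := hy
      rw [hκ1, hs']
    · rw [hκ2 _ _ hy, hfix y hy]
  have h1 : κ s' ∈ (Subgroup.closure (range fun j => g j * t * (g j)⁻¹)).map κ :=
    Subgroup.mem_map_of_mem κ (hGg hs'G)
  rw [hκs, MonoidHom.map_closure] at h1
  refine Subgroup.closure_mono ?_ h1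
  rintro _ ⟨_, ⟨j, rfl⟩, rfl⟩
  exact ⟨j, (hκb j).symm⟩

end Pool.Agent.Helper91
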