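import Pool.Agent.Helper91.V6

set_option linter.unusedSectionVars false

namespace Pool.Agent.Helper91

open Set Topology Equiv Filter

variable {X : Type*} [TopologicalSpace X] [CLike X]

/-- a choice of points avoiding a relation with finite fibres -/
lemma exists_generic {ι : Type*} [Finite ι] (O : ι → Set X) (hO : ∀ a, IsOpen (O a))
    (hne : ∀ a, (O a).Nonempty) (R : ι → ι → X → X → Prop)
    (h1 : ∀ a b x, {y | R a b x y}.Finite) (h2 : ∀ a b y, {x | R a b x y}.Finite) :
    ∃ x : ι → X, (∀ a, x a ∈ O a) ∧ ∀ a b, a ≠ b → ¬ R a b (x a) (x b) := by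
  classical
  have := Fintype.ofFinite ι
  have key : ∀ s : Finset ι, ∃ x : ι → X, (∀ a ∈ s, x a ∈ O a) ∧
      ∀ a ∈ s, ∀ b ∈ s, a ≠ b → ¬ R a b (x a) (x b) := by
    intro s
    induction s using Finset.induction_on with
    | empty => exact ⟨fun a => (hne a).some, by simp, by simp⟩
    | insert c s hc ih =>
      obtain ⟨x, hx1, hx2⟩ := ih
      have hF : (⋃ a ∈ s, ({y | R a c (x a) y} ∪ {y | R c a y (x a)})).Finite :=
        s.finite_toSet.biUnion fun a _ => (h1 a c (x a)).union (h2 c a (x a))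
      obtain ⟨y, hyO, hyF⟩ := exists_mem_avoid (hO c) (hne c) hF
      have hy : ∀ a ∈ s, ¬ R a c (x a) y ∧ ¬ R c a y (x a) := by
        intro a ha
        simp only [mem_iUnion, mem_union, mem_ofPred_eq, not_exists, not_or] at hyF
        exact hyF a ha
      refine ⟨Function.update x c y, ?_, ?_⟩
      · intro a ha
        rcases Finset.mem_insert.1 ha with rfl | ha'
        · simpa using hyO
        · rw [Function.update_of_ne (show a ≠ c from fun e => hc (e ▸ ha'))]
          exact hx1 a ha'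
      · intro a ha b hb hab
        rcases Finset.mem_insert.1 ha with rfl | ha' <;>
          rcases Finset.mem_insert.1 hb with rfl | hb'
        · exact absurd rfl hab
        · rw [Function.update_self, Function.update_of_ne (Ne.symm hab)]
          exact (hy b hb').2
        · rw [Function.update_self, Function.update_of_ne hab]
          exact (hy a ha').1
        · rw [Function.update_of_ne (show a ≠ c from fun e => hc (e ▸ ha')),
            Function.update_of_ne (show b ≠ c from fun e => hc (e ▸ hb'))]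
          exact hx2 a ha' b hb' hab
  obtain ⟨x, hx1, hx2⟩ := key Finset.univ
  exact ⟨x, fun a => hx1 a (Finset.mem_univ a),
    fun a b hab => hx2 a (Finset.mem_univ a) b (Finset.mem_univ b) hab⟩

/-- **Placing lemma.** Conjugating simultaneously, nontrivial elements can be made to agree with
prescribed maps on prescribed pieces, in general position. -/
lemma Vig.place {G : Subgroup (Perm X)} (hG : Vig G) (hgen : G ≤ Subgroup.closure (SFix G))
    {k : ℕ} {ι : Type*} [Finite ι] (P : ι → Set X) (f : ι → Perm X) (o : ι → Fin k)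
    (hP : ∀ a, IsClopen (P a)) (hf : ∀ a, f a ∈ G)
    (d1 : ∀ a b, a ≠ b → ∀ x ∈ P a, x ∉ P b)
    (d2 : ∀ a b, a ≠ b → ∀ x ∈ P a, ∀ y ∈ P b, f a x ≠ f b y)
    (d3 : ∀ a b, ∀ x ∈ P a, f a x ∉ P b)
    (hr : ∃ y, (∀ a, y ∉ P a) ∧ ∀ a, (f a).symm y ∉ P a)
    (α : Fin k → Perm X) (hα : ∀ i, α i ∈ G) (hα1 : ∀ i, α i ≠ 1) :
    ∃ ε ∈ G, (∀ a, ∀ x ∈ P a, ε.symm (α (o a) (ε x)) = f a x) ∧
      (∀ i, ∀ a b, a ≠ b → ∀ x ∈ P a, ε.symm (α i (ε x)) ∉ P b) := by
  classical
  have := Fintype.ofFinite ι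
  obtain ⟨y0, hy0P, hy0f⟩ := hr
  -- generic points
  obtain ⟨x, hx1, hx2⟩ := exists_generic (ι := ι) (fun a => {x | α (o a) x ≠ x})
    (fun a => by
      have hc : Continuous (α (o a)) := hG.cont _ (hα _)
      exact (isClosed_eq hc continuous_id).isOpen_compl)
    (fun a => by
      by_contra h
      rw [Set.not_nonempty_iff_eq_empty] at h
      apply hα1 (o a)
      ext z
      by_contra hz
      have : z ∈ ({x | α (o a) x ≠ x} : Set X) := hz
      rw [h] at this
      exact this)
    (fun a b u v => u = v ∨ (∃ i, α i u = v) ∨ α (o a) u = α (o b) v)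
    (fun a b u => by
      refine Set.Finite.subset (s := {u} ∪ (range fun i => α i u) ∪
        {(α (o b)).symm (α (o a) u)}) (((finite_singleton u).union (finite_range _)).union
          (finite_singleton _)) ?_
      rintro v (h | ⟨i, h⟩ | h)
      · left; left; exact h.symm
      · left; right; exact ⟨i, h⟩
      · right; rw [mem_singleton_iff, Equiv.eq_symm_apply]; exact h.symm)
    (fun a b v => by
      refine Set.Finite.subset (s := {v} ∪ (range fun i => (α i).symm v) ∪
        {(α (o a)).symm (α (o b) v)}) (((finite_singleton v).union (finite_range _)).union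
          (finite_singleton _)) ?_
      rintro u (h | ⟨i, h⟩ | h)
      · left; left; exact h
      · left; right; exact ⟨i, by change (α i).symm v = u; rw [Equiv.symm_apply_eq]; exact h.symm⟩
      · right; rw [mem_singleton_iff, Equiv.eq_symm_apply]; exact h)
  simp only [mem_ofPred_eq] at hx1
  have hx3 : ∀ a b, a ≠ b → x a ≠ x b ∧ (∀ i, α i (x a) ≠ x b) ∧
      α (o a) (x a) ≠ α (o b) (x b) := by
    intro a b hab
    have := hx2 a b hab
    simp only [not_or, not_exists] at this
    exact this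
  -- leftover point
  set Q0 : Set X := range x ∪ ⋃ i, range fun a => α i (x a) with hQ0
  have hQ0f : Q0.Finite := (finite_range _).union (Set.finite_iUnion fun i => finite_range _)
  obtain ⟨y1, -, hy1⟩ := exists_mem_avoid (X := X) isOpen_univ ⟨y0, trivial⟩ hQ0f
  set Q : Set X := insert y1 Q0 with hQ
  have hQf : Q.Finite := hQ0f.insert y1
  obtain ⟨U, hU, hUd⟩ := hQf.t2_separation
  have mx : ∀ a, x a ∈ Q := fun a => Or.inr (Or.inl ⟨a, rfl⟩)
  have mα : ∀ i a, α i (x a) ∈ Q := fun i a =>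
    Or.inr (Or.inr (mem_iUnion.2 ⟨i, a, rfl⟩))
  have my : y1 ∈ Q := Or.inl rfl
  have hsep : ∀ p ∈ Q, ∀ q ∈ Q, p ≠ q → ∀ z ∈ U p, z ∉ U q := by
    intro p hp q hq hpq z hz hz2
    exact (Set.disjoint_left.1 (hUd hp hq hpq)) hz hz2
  -- small neighbourhoods
  have hD : ∀ a, ∃ D, IsClopen D ∧ x a ∈ D ∧ D ⊆ U (x a) ∧ ∀ i, ∀ z ∈ D, α i z ∈ U (α i (x a)) := by
    intro a
    have ho : IsOpen (U (x a) ∩ ⋂ i, {z | α i z ∈ U (α i (x a))}) := by
      refine (hU _).2.inter (isOpen_iInter_of_finite fun i => ?_)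
      exact (hU _).2.preimage (hG.cont _ (hα i))
    obtain ⟨D, hD, hxD, hDU⟩ := compact_exists_isClopen_in_isOpen ho
      ⟨(hU _).1, mem_iInter.2 fun i => (hU _).1⟩
    exact ⟨D, hD, hxD, fun z hz => (hDU hz).1, fun i z hz => mem_iInter.1 (hDU hz).2 i⟩
  choose D hD1 hD2 hD3 hD4 using hD
  have s1 : ∀ a b, a ≠ b → ∀ z ∈ D a, z ∉ D b := fun a b hab z hz hz2 =>
    hsep _ (mx a) _ (mx b) (hx3 a b hab).1 z (hD3 a hz) (hD3 b hz2)
  have s2 : ∀ i a b, a ≠ b → ∀ z ∈ D a, α i z ∉ D b := fun i a b hab z hz hz2 =>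
    hsep _ (mα i a) _ (mx b) ((hx3 a b hab).2.1 i) _ (hD4 a i z hz) (hD3 b hz2)
  have s3 : ∀ a, ∀ z ∈ D a, α (o a) z ∉ D a := fun a z hz hz2 =>
    hsep _ (mα _ a) _ (mx a) (hx1 a) _ (hD4 a _ z hz) (hD3 a hz2)
  have s4 : ∀ a b, a ≠ b → ∀ z ∈ D a, ∀ w ∈ D b, α (o a) z ≠ α (o b) w := by
    intro a b hab z hz w hw h
    exact hsep _ (mα _ a) _ (mα _ b) (hx3 a b hab).2.2 _ (hD4 a _ z hz) (h ▸ hD4 b _ w hw)
  have s5 : ∀ a, y1 ∉ D a := by
    intro a h
    refine hsep _ my _ (mx a) ?_ y1 (hU y1).1 (hD3 a h)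
    rintro e
    exact hy1 (Or.inl ⟨a, e.symm⟩)
  have s6 : ∀ a, (α (o a)).symm y1 ∉ D a := by
    intro a h
    have h2 := hD4 a (o a) _ h
    rw [Equiv.apply_symm_apply] at h2
    refine hsep _ my _ (mα (o a) a) ?_ y1 (hU y1).1 h2
    rintro e
    exact hy1 (Or.inr (mem_iUnion.2 ⟨o a, a, e.symm⟩))
  -- maps into the neighbourhoods
  have hφ : ∀ a, ∃ φ ∈ G, ∀ z ∈ P a, φ z ∈ D a := by
    intro a
    obtain ⟨φ, h1, h2, -⟩ := hG.move isClopen_univ (hP a) (hD1 a) (subset_univ _)
      (subset_univ _) ⟨x a, hD2 a⟩ ⟨y0, trivial, hy0P a⟩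
    exact ⟨φ, h1, h2⟩
  choose φ hφG hφ using hφ
  have hFG : ∀ a, α (o a) * φ a * (f a)⁻¹ ∈ G := fun a =>
    G.mul_mem (G.mul_mem (hα _) (hφG a)) (G.inv_mem (hf a))
  obtain ⟨ε, hε, hε1⟩ := hG.extMulti hgen (D := univ) isClopen_univ
    (Finset.univ : Finset (ι × Bool))
    (fun p => if p.2 then P p.1 else {z | (f p.1).symm z ∈ P p.1})
    (fun p => if p.2 then φ p.1 else α (o p.1) * φ p.1 * (f p.1)⁻¹)
    (by
      rintro ⟨a, c⟩ _
      cases c
      · exact hG.clopen_inv (hf a) (hP a)
      · exact hP a)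
    (fun _ _ => subset_univ _)
    (by
      rintro ⟨a, c⟩ _
      cases c
      · exact hFG a
      · exact hφG a)
    (fun _ _ _ _ => trivial)
    (by
      rintro ⟨a, c⟩ _ ⟨b, d⟩ _ hab z hz hz2
      cases c <;> cases d
      · have hz' : (f a).symm z ∈ P a := hz
        have hz2' : (f b).symm z ∈ P b := hz2
        have hne : a ≠ b := fun e => hab (by rw [e])
        apply d2 a b hne _ hz' _ hz2'
        rw [Equiv.apply_symm_apply, Equiv.apply_symm_apply]
      · have hz' : (f a).symm z ∈ P a := hz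
        have hz2' : z ∈ P b := hz2
        apply d3 a b _ hz'
        rw [Equiv.apply_symm_apply]; exact hz2'
      · have hz' : z ∈ P a := hz
        have hz2' : (f b).symm z ∈ P b := hz2
        apply d3 b a _ hz2'
        rw [Equiv.apply_symm_apply]; exact hz'
      · have hz' : z ∈ P a := hz
        have hz2' : z ∈ P b := hz2
        have hne : a ≠ b := fun e => hab (by rw [e])
        exact d1 a b hne z hz' hz2')
    (by
      rintro ⟨a, c⟩ _ ⟨b, d⟩ _ hab z hz w hw
      cases c <;> cases d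
      · have hz' : (f a).symm z ∈ P a := hz
        have hw' : (f b).symm w ∈ P b := hw
        have hne : a ≠ b := fun e => hab (by rw [e])
        exact s4 a b hne _ (hφ a _ hz') _ (hφ b _ hw')
      · have hz' : (f a).symm z ∈ P a := hz
        have hw' : w ∈ P b := hw
        change α (o a) (φ a ((f a).symm z)) ≠ φ b w
        intro h
        by_cases hne : a = b
        · subst hne
          exact s3 a _ (hφ a _ hz') (h ▸ hφ a _ hw')
        · exact s2 _ a b hne _ (hφ a _ hz') (h ▸ hφ b _ hw')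
      · have hz' : z ∈ P a := hz
        have hw' : (f b).symm w ∈ P b := hw
        change φ a z ≠ α (o b) (φ b ((f b).symm w))
        intro h
        by_cases hne : a = b
        · subst hne
          exact s3 a _ (hφ a _ hw') (h ▸ hφ a _ hz')
        · exact s2 _ b a (Ne.symm hne) _ (hφ b _ hw') (h ▸ hφ a _ hz')
      · have hz' : z ∈ P a := hz
        have hw' : w ∈ P b := hw
        have hne : a ≠ b := fun e => hab (by rw [e])
        change φ a z ≠ φ b w
        intro h
        exact s1 a b hne _ (hφ a _ hz') (h ▸ hφ b _ hw'))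
    (by
      refine ⟨y0, trivial, ?_⟩
      rintro ⟨a, c⟩ _
      cases c
      · exact hy0f a
      · exact hy0P a)
    (by
      refine ⟨y1, trivial, ?_⟩
      rintro ⟨a, c⟩ _
      cases c
      · intro h
        have h' : (f a).symm ((α (o a) * φ a * (f a)⁻¹).symm y1) ∈ P a := h
        have e : (f a).symm ((α (o a) * φ a * (f a)⁻¹).symm y1) =
            (φ a).symm ((α (o a)).symm y1) := by
          change (f a).symm (((f a)⁻¹).symm ((φ a).symm ((α (o a)).symm y1))) = _
          rw [Equiv.symm_apply_eq]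
          rfl
        rw [e] at h'
        have h2 := hφ a _ h'
        rw [Equiv.apply_symm_apply] at h2
        exact s6 a h2
      · intro h
        have h' : (φ a).symm y1 ∈ P a := h
        have h2 := hφ a _ h'
        rw [Equiv.apply_symm_apply] at h2
        exact s5 a h2)
  have e1 : ∀ a, ∀ z ∈ P a, ε z = φ a z := fun a z hz =>
    hε1 (a, true) (Finset.mem_univ _) z hz
  have e2 : ∀ a, ∀ z ∈ P a, ε (f a z) = α (o a) (φ a z) := by
    intro a z hz
    have := hε1 (a, false) (Finset.mem_univ _) (f a z)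
      (by change (f a).symm (f a z) ∈ P a; simpa using hz)
    rw [this]
    change α (o a) (φ a ((f a).symm (f a z))) = _
    simp
  refine ⟨ε, hG.TG_le hgen _ hε, fun a z hz => ?_, fun i a b hab z hz hc => ?_⟩
  · rw [Equiv.symm_apply_eq, e1 a z hz, e2 a z hz]
  · have h1 := e1 b _ hc
    rw [Equiv.apply_symm_apply] at h1
    refine s2 i a b hab _ (hφ a z hz) ?_
    rw [← e1 a z hz, h1]
    exact hφ b _ hc

/-- commuting elements of pairwise coprime orders: one element whose powers give all of them -/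
lemma exists_crt {M ν : Type*} [Group M] [Finite ν] (G : Subgroup M) (c : ν → M) (n : ν → ℕ)
    (hcG : ∀ v, c v ∈ G) (hcomm : ∀ u v, Commute (c u) (c v)) (hpow : ∀ v, c v ^ n v = 1)
    (hcop : ∀ u v, u ≠ v → Nat.Coprime (n u) (n v)) :
    ∃ σ ∈ G, ∀ v, c v ∈ Subgroup.zpowers σ := by
  classical
  have := Fintype.ofFinite ν
  have two : ∀ (a b : M) (m n : ℕ), Commute a b → a ^ m = 1 → b ^ n = 1 → Nat.Coprime m n →
      a ∈ Subgroup.zpowers (a * b) := by
    intro a b m n hab ha hb hmn
    -- `(a b)^(n * u) = a^(n u) = a` with `n u = 1 + m w`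
    obtain ⟨e, he1, he2⟩ := Nat.chineseRemainder hmn 1 0
    refine ⟨(e : ℤ), ?_⟩
    change (a * b) ^ (e : ℤ) = a
    rw [zpow_natCast, hab.mul_pow]
    have h1 : a ^ e = a := by
      have := pow_eq_pow_of_modEq he1 ha
      rwa [pow_one] at this
    have h2 : b ^ e = 1 := by
      have := pow_eq_pow_of_modEq he2 hb
      rwa [pow_zero] at this
    rw [h1, h2, mul_one]
  have key : ∀ s : Finset ν, ∃ σ ∈ G, (∀ v ∈ s, c v ∈ Subgroup.zpowers σ) ∧
      σ ^ (∏ v ∈ s, n v) = 1 ∧ ∀ u, Commute (c u) σ := by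
    intro s
    induction s using Finset.induction_on with
    | empty => exact ⟨1, G.one_mem, by simp, by simp, fun u => Commute.one_right _⟩
    | insert w s hw ih =>
      obtain ⟨σ, hσ, h1, h2, h3⟩ := ih
      have hcop' : Nat.Coprime (n w) (∏ v ∈ s, n v) :=
        Nat.Coprime.prod_right fun v hv => hcop w v (fun e => hw (e ▸ hv))
      have hm1 := two (c w) σ _ _ (h3 w) (hpow w) h2 hcop'
      have hm2 := two σ (c w) _ _ (h3 w).symm h2 (hpow w) hcop'.symm
      rw [(h3 w).symm.eq] at hm2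
      refine ⟨c w * σ, G.mul_mem (hcG w) hσ, ?_, ?_, ?_⟩
      · intro v hv
        rcases Finset.mem_insert.1 hv with rfl | hv'
        · exact hm1
        · have : Subgroup.zpowers σ ≤ Subgroup.zpowers (c w * σ) := by
            rw [Subgroup.zpowers_le]; exact hm2
          exact this (h1 v hv')
      · rw [Finset.prod_insert hw, (h3 w).mul_pow, pow_mul, hpow, one_pow, one_mul,
          mul_comm, pow_mul, h2, one_pow]
      · intro u
        exact (hcomm u w).mul_right (h3 u)
  obtain ⟨σ, hσ, h1, -, -⟩ := key Finset.univ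
  exact ⟨σ, hσ, fun v => h1 v (Finset.mem_univ v)⟩

end Pool.Agent.Helper91
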