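import Pool.Agent.Helper91.V7

set_option linter.unusedSectionVars false

namespace Pool.Agent.Helper91

open Set Topology Equiv Filter

variable {X : Type*} [TopologicalSpace X] [CLike X]

/-- cyclic permutation of `n` disjoint sets `V, cV, …, c^(n-1) V` -/
structure IsCyc (c : Perm X) (n : ℕ) (V : Set X) : Prop where
  pos : 0 < n
  disj : ∀ s, 0 < s → s < n → ∀ x ∈ V, (c ^ s) x ∉ V
  pow : c ^ n = 1
  fix : ∀ y, (∀ s < n, ∀ x ∈ V, (c ^ s) x ≠ y) → c y = y

lemma pow_add_apply (c : Perm X) (s t : ℕ) (x : X) : (c ^ (s + t)) x = (c ^ s) ((c ^ t) x) := by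
  rw [pow_add]; rfl

lemma pow_succ_apply' (c : Perm X) (s : ℕ) (x : X) : (c ^ (s + 1)) x = c ((c ^ s) x) := by
  rw [pow_succ']; rfl

lemma IsCyc.mod {c : Perm X} {n : ℕ} {V : Set X} (h : IsCyc c n V) (s : ℕ) (x : X) :
    (c ^ (s % n)) x = (c ^ s) x := by
  conv_rhs => rw [← Nat.mod_add_div s n, pow_add, pow_mul, h.pow, one_pow, mul_one]

lemma IsCyc.uniq {c : Perm X} {n : ℕ} {V : Set X} (h : IsCyc c n V) {s t : ℕ} (hs : s < n)
    (ht : t < n) {x y : X} (hx : x ∈ V) (hy : y ∈ V) (he : (c ^ s) x = (c ^ t) y) : s = t := by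
  have main : ∀ s t : ℕ, s < n → t < n → s < t → ∀ x ∈ V, ∀ y ∈ V, (c ^ s) x ≠ (c ^ t) y := by
    intro s t _ ht hst x hx y hy he
    have e : t = s + (t - s) := by omega
    rw [e, pow_add_apply] at he
    have := (c ^ s).injective he
    exact h.disj (t - s) (by omega) (by omega) y hy (this ▸ hx)
  rcases lt_trichotomy s t with hlt | heq | hgt
  · exact absurd he (main s t hs ht hlt x hx y hy)
  · exact heq
  · exact absurd he.symm (main t s ht hs hgt y hy x hx)

/-- existence of odd cycles inside `G` -/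
lemma Vig.exists_cyc_aux {G : Subgroup (Perm X)} (hG : Vig G)
    (hgen : G ≤ Subgroup.closure (SFix G)) {V : Set X} (hV : IsClopen V) (h : ℕ → Perm X)
    (m : ℕ) (hh : ∀ s < 2 * m + 1, h s ∈ G)
    (hd : ∀ s < 2 * m + 1, ∀ t < 2 * m + 1, s ≠ t → ∀ x ∈ V, ∀ y ∈ V, h s x ≠ h t y) :
    ∃ c ∈ G, (∀ s, s + 1 < 2 * m + 1 → ∀ x ∈ V, c (h s x) = h (s + 1) x) ∧
      (∀ x ∈ V, c (h (2 * m) x) = h 0 x) ∧
      (∀ y, (∀ s < 2 * m + 1, ∀ x ∈ V, h s x ≠ y) → c y = y) := by
  induction m with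
  | zero => exact ⟨1, G.one_mem, fun s hs => by omega, fun x _ => rfl, fun y _ => rfl⟩
  | succ m ih =>
    obtain ⟨c, hc, c1, c2, c3⟩ := ih (fun s hs => hh s (by omega))
      (fun s hs t ht => hd s (by omega) t (by omega))
    set f : Perm X := h (2 * m + 1) * (h (2 * m))⁻¹ with hf
    set k : Perm X := h (2 * m + 2) * (h (2 * m))⁻¹ with hk
    have h0 := hh (2 * m) (by omega)
    have h1 := hh (2 * m + 1) (by omega)
    have h2 := hh (2 * m + 2) (by omega)
    set A : Set X := {y | (h (2 * m)).symm y ∈ V} with hA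
    have fa : ∀ y, f y = h (2 * m + 1) ((h (2 * m)).symm y) := fun _ => rfl
    have ka : ∀ y, k y = h (2 * m + 2) ((h (2 * m)).symm y) := fun _ => rfl
    have mA : ∀ x ∈ V, h (2 * m) x ∈ A := fun x hx => by
      change (h (2 * m)).symm (h (2 * m) x) ∈ V
      rw [Equiv.symm_apply_apply]; exact hx
    obtain ⟨t, ht, t1, t2, t3, t4⟩ := exists_tri hG (f := f) (k := k) (A := A)
      (G.mul_mem h1 (G.inv_mem h0)) (G.mul_mem h2 (G.inv_mem h0)) (hG.clopen_inv h0 hV)
      (fun y hy hc => by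
        have hy' : (h (2 * m)).symm y ∈ V := hy
        have hc' : (h (2 * m)).symm (f y) ∈ V := hc
        apply hd (2 * m) (by omega) (2 * m + 1) (by omega) (by omega) _ hc' _ hy'
        rw [Equiv.apply_symm_apply, fa])
      (fun y hy hc => by
        have hy' : (h (2 * m)).symm y ∈ V := hy
        have hc' : (h (2 * m)).symm (k y) ∈ V := hc
        apply hd (2 * m) (by omega) (2 * m + 2) (by omega) (by omega) _ hc' _ hy'
        rw [Equiv.apply_symm_apply, ka])
      (fun y hy hc => by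
        have hy' : (h (2 * m)).symm y ∈ V := hy
        have hc' : (h (2 * m)).symm (f.symm (k y)) ∈ V := hc
        apply hd (2 * m + 1) (by omega) (2 * m + 2) (by omega) (by omega) _ hc' _ hy'
        rw [← fa, Equiv.apply_symm_apply, ka])
    have tG : t ∈ G := hG.tri_mem hgen ht
    have u1 : ∀ x ∈ V, t (h (2 * m) x) = h (2 * m + 1) x := fun x hx => by
      rw [t1 _ (mA x hx), fa, Equiv.symm_apply_apply]
    have u2 : ∀ x ∈ V, t (h (2 * m + 1) x) = h (2 * m + 2) x := fun x hx => by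
      have := t2 _ (mA x hx)
      rw [fa, ka, Equiv.symm_apply_apply] at this; exact this
    have u3 : ∀ x ∈ V, t (h (2 * m + 2) x) = h (2 * m) x := fun x hx => by
      have := t3 _ (mA x hx)
      rw [ka, Equiv.symm_apply_apply] at this; exact this
    have u4 : ∀ y, (∀ x ∈ V, h (2 * m) x ≠ y) → (∀ x ∈ V, h (2 * m + 1) x ≠ y) →
        (∀ x ∈ V, h (2 * m + 2) x ≠ y) → t y = y := by
      intro y a1 a2 a3
      apply t4
      · intro hc
        exact a1 _ hc (Equiv.apply_symm_apply _ _)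
      · intro hc
        have hc' : (h (2 * m)).symm (f.symm y) ∈ V := hc
        apply a2 _ hc'
        rw [← fa, Equiv.apply_symm_apply]
      · intro hc
        have hc' : (h (2 * m)).symm (k.symm y) ∈ V := hc
        apply a3 _ hc'
        rw [← ka, Equiv.apply_symm_apply]
    refine ⟨c * t, G.mul_mem hc tG, ?_, ?_, ?_⟩
    · intro s hs x hx
      change c (t (h s x)) = h (s + 1) x
      rcases lt_trichotomy s (2 * m) with hlt | rfl | hgt
      · rw [u4, c1 s (by omega) x hx]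
        · exact fun z hz => hd _ (by omega) _ (by omega) (by omega) z hz x hx
        · exact fun z hz => hd _ (by omega) _ (by omega) (by omega) z hz x hx
        · exact fun z hz => hd _ (by omega) _ (by omega) (by omega) z hz x hx
      · rw [u1 x hx, c3]
        exact fun s hs z hz => hd _ (by omega) _ (by omega) (by omega) z hz x hx
      · obtain rfl : s = 2 * m + 1 := by omega
        rw [u2 x hx, c3]
        exact fun s hs z hz => hd _ (by omega) _ (by omega) (by omega) z hz x hx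
    · intro x hx
      change c (t (h (2 * m + 2) x)) = h 0 x
      rw [u3 x hx, c2 x hx]
    · intro y hy
      change c (t y) = y
      rw [u4 y (fun x hx => hy _ (by omega) x hx) (fun x hx => hy _ (by omega) x hx)
        (fun x hx => hy _ (by omega) x hx)]
      exact c3 y (fun s hs x hx => hy s (by omega) x hx)

lemma Vig.exists_cyc {G : Subgroup (Perm X)} (hG : Vig G)
    (hgen : G ≤ Subgroup.closure (SFix G)) {V : Set X} (hV : IsClopen V) (h : ℕ → Perm X)
    {n : ℕ} (hn : Odd n) (hh : ∀ s < n, h s ∈ G)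
    (hd : ∀ s < n, ∀ t < n, s ≠ t → ∀ x ∈ V, ∀ y ∈ V, h s x ≠ h t y) :
    ∃ c ∈ G, IsCyc c n {y | (h 0).symm y ∈ V} ∧ (∀ s < n, ∀ x ∈ V, (c ^ s) (h 0 x) = h s x) := by
  obtain ⟨m, rfl⟩ := hn
  obtain ⟨c, hc, c1, c2, c3⟩ := hG.exists_cyc_aux hgen hV h m hh hd
  have hp : ∀ s < 2 * m + 1, ∀ x ∈ V, (c ^ s) (h 0 x) = h s x := by
    intro s
    induction s with
    | zero => intro _ x _; rfl
    | succ s ih =>
      intro hs x hx
      rw [pow_succ_apply', ih (by omega) x hx, c1 s hs x hx]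
  have hp0 : ∀ x ∈ V, (c ^ (2 * m + 1)) (h 0 x) = h 0 x := by
    intro x hx
    rw [pow_succ_apply', hp (2 * m) (by omega) x hx, c2 x hx]
  refine ⟨c, hc, ⟨by omega, ?_, ?_, ?_⟩, hp⟩
  · intro s hs0 hs x hx hc
    have hx' : (h 0).symm x ∈ V := hx
    have hc' : (h 0).symm ((c ^ s) x) ∈ V := hc
    have e : x = h 0 ((h 0).symm x) := (Equiv.apply_symm_apply _ _).symm
    have e2 : (c ^ s) x = h s ((h 0).symm x) := by
      conv_lhs => rw [e]
      exact hp s hs _ hx'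
    apply hd 0 (by omega) s hs (by omega) _ hc' _ hx'
    rw [Equiv.apply_symm_apply, e2]
  · ext y
    change (c ^ (2 * m + 1)) y = y
    by_cases hy : ∃ s < 2 * m + 1, ∃ x ∈ V, h s x = y
    · obtain ⟨s, hs, x, hx, rfl⟩ := hy
      rw [← hp s hs x hx, ← pow_add_apply, add_comm, pow_add_apply, hp0 x hx]
    · push Not at hy
      have e := c3 y hy
      have : ∀ r : ℕ, (c ^ r) y = y := by
        intro r
        induction r with
        | zero => rfl
        | succ r ih => rw [pow_succ_apply', ih, e]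
      exact this _
  · intro y hy
    apply c3
    intro s hs x hx he
    apply hy s hs (h 0 x) (by change (h 0).symm (h 0 x) ∈ V; rw [Equiv.symm_apply_apply]; exact hx)
    rw [hp s hs x hx, he]

/-- finitely many disjoint nonempty clopen subsets of a nonempty open set, and a further point -/
lemma exists_sites {κ : Type*} [Finite κ] {U : Set X} (hU : IsOpen U) (hne : U.Nonempty) :
    ∃ (S : κ → Set X) (y : X), (∀ a, IsClopen (S a)) ∧ (∀ a, (S a).Nonempty) ∧ (∀ a, S a ⊆ U) ∧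
      (∀ a b, a ≠ b → ∀ x ∈ S a, x ∉ S b) ∧ y ∈ U ∧ ∀ a, y ∉ S a := by
  classical
  obtain ⟨x, hx1, hx2⟩ := exists_generic (ι := Option κ) (fun _ => U) (fun _ => hU)
    (fun _ => hne) (fun _ _ u v => u = v)
    (fun _ _ u => (finite_singleton u).subset (fun v hv => by
      have hv' : u = v := hv
      exact hv'.symm))
    (fun _ _ v => (finite_singleton v).subset (fun u hu => by
      have hu' : u = v := hu
      exact hu'))
  obtain ⟨W, hW, hWd⟩ := (Set.finite_range x).t2_separation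
  have hS : ∀ a : κ, ∃ S, IsClopen S ∧ x (some a) ∈ S ∧ S ⊆ U ∩ W (x (some a)) := by
    intro a
    obtain ⟨S, hS, hxS, hSU⟩ := compact_exists_isClopen_in_isOpen
      (hU.inter (hW (x (some a))).2) ⟨hx1 _, (hW (x (some a))).1⟩
    exact ⟨S, hS, hxS, hSU⟩
  choose S hS1 hS2 hS3 using hS
  refine ⟨S, x none, hS1, fun a => ⟨_, hS2 a⟩, fun a z hz => (hS3 a hz).1, ?_, hx1 none, ?_⟩
  · intro a b hab z hz hz2
    have hne' : x (some a) ≠ x (some b) := hx2 _ _ (by simpa using hab)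
    exact (Set.disjoint_left.1 (hWd ⟨_, rfl⟩ ⟨_, rfl⟩ hne')) (hS3 a hz).2 (hS3 b hz2).2
  · intro a hz
    have hne' : x none ≠ x (some a) := hx2 _ _ (by simp)
    exact (Set.disjoint_left.1 (hWd ⟨_, rfl⟩ ⟨_, rfl⟩ hne')) (hW (x none)).1 (hS3 a hz).2

/-- disjoint copies of `T` -/
lemma Vig.exists_copies {G : Subgroup (Perm X)} (hG : Vig G) {κ : Type*} [Finite κ] {T : Set X}
    (hT : IsClopen T) (hT2 : ∃ y, y ∉ T) : ∃ (h : κ → Perm X) (y : X), (∀ a, h a ∈ G) ∧
      (∀ a b, a ≠ b → ∀ u ∈ T, ∀ v ∈ T, h a u ≠ h b v) ∧ ∀ a, ∀ u ∈ T, h a u ≠ y := by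
  obtain ⟨y0, hy0⟩ := hT2
  obtain ⟨S, y, h1, h2, -, h4, -, h6⟩ := exists_sites (κ := κ) (X := X) isOpen_univ ⟨y0, trivial⟩
  have hm : ∀ a, ∃ h ∈ G, ∀ u ∈ T, h u ∈ S a := by
    intro a
    obtain ⟨g, hg, hg1, -⟩ := hG.move isClopen_univ hT (h1 a) (subset_univ _) (subset_univ _)
      (h2 a) ⟨y0, trivial, hy0⟩
    exact ⟨g, hg, hg1⟩
  choose h hh1 hh2 using hm
  refine ⟨h, y, hh1, fun a b hab u hu v hv he => ?_, fun a u hu he => ?_⟩
  · exact h4 a b hab _ (hh2 a u hu) (he ▸ hh2 b v hv)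
  · exact h6 a (he ▸ hh2 a u hu)

/-- **Bulk decomposition.** A proper nonempty clopen set `P` splits into `2 b + 1` copies of
itself and `b` copies of a certain set `W`. -/
lemma Vig.bulk {G : Subgroup (Perm X)} (hG : Vig G) {P : Set X} (hP : IsClopen P)
    (hPne : P.Nonempty) (hP2 : ∃ y, y ∉ P) (b : ℕ) :
    ∃ (hA hB : ℕ → Perm X) (W : Set X), IsClopen W ∧ W.Nonempty ∧
      (∀ s, hA s ∈ G) ∧ (∀ s, hB s ∈ G) ∧
      (∀ s, ∀ x ∈ P, hA s x ∈ P) ∧ (∀ s, ∀ x ∈ W, hB s x ∈ P) ∧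
      (∀ s < 2 * b + 1, ∀ t < 2 * b + 1, s ≠ t → ∀ x ∈ P, ∀ y ∈ P, hA s x ≠ hA t y) ∧
      (∀ s < b, ∀ t < b, s ≠ t → ∀ x ∈ W, ∀ y ∈ W, hB s x ≠ hB t y) ∧
      (∀ s < 2 * b + 1, ∀ t < b, ∀ x ∈ P, ∀ y ∈ W, hA s x ≠ hB t y) ∧
      (∀ y ∈ P, (∃ s < 2 * b + 1, ∃ x ∈ P, hA s x = y) ∨ (∃ s < b, ∃ x ∈ W, hB s x = y)) := by
  classical
  obtain ⟨S, e, S1, S2, S3, S4, S5, S6⟩ := exists_sites (κ := Bool) hP.isOpen hPne
  obtain ⟨q, hq⟩ := hP2
  obtain ⟨g0, hg0, m0, -⟩ := hG.move isClopen_univ hP (S1 false) (subset_univ _) (subset_univ _)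
    (S2 false) ⟨q, trivial, hq⟩
  obtain ⟨g1, hg1, m1, -⟩ := hG.move isClopen_univ hP (S1 true) (subset_univ _) (subset_univ _)
    (S2 true) ⟨q, trivial, hq⟩
  have n0 : ∀ x ∈ P, g0 x ∈ P := fun x hx => S3 _ (m0 x hx)
  have n1 : ∀ x ∈ P, g1 x ∈ P := fun x hx => S3 _ (m1 x hx)
  have n01 : ∀ x ∈ P, ∀ y ∈ P, g1 x ≠ g0 y := fun x hx y hy h =>
    S4 true false (by simp) _ (m1 x hx) (h ▸ m0 y hy)
  have np : ∀ (s : ℕ), ∀ x ∈ P, (g0 ^ s) x ∈ P := by
    intro s x hx
    induction s with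
    | zero => exact hx
    | succ s ih => rw [pow_succ_apply']; exact n0 _ ih
  -- the set `E` of points of `P` outside `g0 P` and `g1 P`
  set E : Set X := {x | x ∈ P ∧ g0.symm x ∉ P ∧ g1.symm x ∉ P} with hE
  have hEc : IsClopen E := hP.inter ((hG.clopen_inv hg0 hP).compl.inter
    (hG.clopen_inv hg1 hP).compl)
  have heE : e ∈ E := by
    refine ⟨S5, fun h => ?_, fun h => ?_⟩
    · have := m0 _ h
      rw [Equiv.apply_symm_apply] at this
      exact S6 _ this
    · have := m1 _ h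
      rw [Equiv.apply_symm_apply] at this
      exact S6 _ this
  -- points of level zero
  have lev0 : ∀ x ∈ P, ∀ u, (u ∈ E ∨ ∃ w ∈ P, u = g1 w) → g0 x ≠ u := by
    rintro x hx u (hu | ⟨w, hw, rfl⟩) he
    · apply hu.2.1; rw [← he, Equiv.symm_apply_apply]; exact hx
    · exact n01 w hw x hx he.symm
  have lev : ∀ (s t : ℕ) (u v : X), (u ∈ E ∨ ∃ w ∈ P, u = g1 w) → (v ∈ E ∨ ∃ w ∈ P, v = g1 w) →
      (g0 ^ s) u = (g0 ^ t) v → s = t ∧ u = v := by
    have inP : ∀ u, (u ∈ E ∨ ∃ w ∈ P, u = g1 w) → u ∈ P := by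
      rintro u (hu | ⟨w, hw, rfl⟩)
      · exact hu.1
      · exact n1 w hw
    have main : ∀ (s t : ℕ) (u v : X), s < t → (u ∈ E ∨ ∃ w ∈ P, u = g1 w) →
        (v ∈ E ∨ ∃ w ∈ P, v = g1 w) → (g0 ^ s) u ≠ (g0 ^ t) v := by
      intro s t u v hst hu hv he
      obtain ⟨r, rfl⟩ : ∃ r, t = s + (r + 1) := ⟨t - s - 1, by omega⟩
      rw [pow_add_apply] at he
      have := (g0 ^ s).injective he
      rw [pow_succ_apply'] at this
      exact lev0 _ (np r v (inP v hv)) u hu this.symm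
    intro s t u v hu hv he
    rcases lt_trichotomy s t with h | rfl | h
    · exact absurd he (main s t u v h hu hv)
    · exact ⟨rfl, (g0 ^ s).injective he⟩
    · exact absurd he.symm (main t s v u h hv hu)
  have levN : ∀ (s N : ℕ), s < N → ∀ u, (u ∈ E ∨ ∃ w ∈ P, u = g1 w) → ∀ x ∈ P,
      (g0 ^ s) u ≠ (g0 ^ N) x := by
    intro s N hsN u hu x hx he
    obtain ⟨r, rfl⟩ : ∃ r, N = s + (r + 1) := ⟨N - s - 1, by omega⟩
    rw [pow_add_apply] at he
    have := (g0 ^ s).injective he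
    rw [pow_succ_apply'] at this
    exact lev0 _ (np r x hx) u hu this.symm
  set hA : ℕ → Perm X := fun s => if s < 2 * b then g0 ^ s * g1 else g0 ^ (2 * b) with hhA
  set hB : ℕ → Perm X := fun l => g0 ^ (2 * l) with hhB
  have a1 : ∀ s < 2 * b, ∀ x, hA s x = (g0 ^ s) (g1 x) := by
    intro s hs x
    simp only [hhA, if_pos hs]; rfl
  have a2 : ∀ x, hA (2 * b) x = (g0 ^ (2 * b)) x := by
    intro x
    simp only [hhA, lt_irrefl, if_false]
  set W : Set X := E ∪ {x | g0.symm x ∈ E} with hW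
  have wcase : ∀ x ∈ W, ∃ r ≤ 1, ∃ u ∈ E, x = (g0 ^ r) u := by
    rintro x (hx | hx)
    · exact ⟨0, by omega, x, hx, rfl⟩
    · refine ⟨1, le_rfl, g0.symm x, hx, ?_⟩
      rw [pow_one, Equiv.apply_symm_apply]
  have g0G : ∀ s : ℕ, g0 ^ s ∈ G := fun s => G.pow_mem hg0 s
  refine ⟨hA, hB, W, hEc.union (hG.clopen_inv hg0 hEc), ⟨e, Or.inl heE⟩, ?_, fun s => g0G _,
    ?_, ?_, ?_, ?_, ?_, ?_⟩
  · intro s
    simp only [hhA]
    split_ifs
    · exact G.mul_mem (g0G s) hg1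
    · exact g0G _
  · intro s x hx
    by_cases hs : s < 2 * b
    · rw [a1 s hs]; exact np s _ (n1 x hx)
    · simp only [hhA, if_neg hs]; exact np _ x hx
  · intro s x hx
    obtain ⟨r, -, u, hu, rfl⟩ := wcase x hx
    exact np _ _ (np _ _ hu.1)
  · intro s hs t ht hst x hx y hy he
    by_cases h1 : s < 2 * b <;> by_cases h2 : t < 2 * b
    · rw [a1 s h1, a1 t h2] at he
      exact hst (lev s t _ _ (Or.inr ⟨x, hx, rfl⟩) (Or.inr ⟨y, hy, rfl⟩) he).1
    · obtain rfl : t = 2 * b := by omega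
      rw [a1 s h1, a2] at he
      exact levN s (2 * b) h1 _ (Or.inr ⟨x, hx, rfl⟩) y hy he
    · obtain rfl : s = 2 * b := by omega
      rw [a1 t h2, a2] at he
      exact levN t (2 * b) h2 _ (Or.inr ⟨y, hy, rfl⟩) x hx he.symm
    · omega
  · intro s hs t ht hst x hx y hy he
    obtain ⟨r, hr, u, hu, rfl⟩ := wcase x hx
    obtain ⟨r', hr', v, hv, rfl⟩ := wcase y hy
    change (g0 ^ (2 * s)) ((g0 ^ r) u) = (g0 ^ (2 * t)) ((g0 ^ r') v) at he
    rw [← pow_add_apply, ← pow_add_apply] at he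
    have := (lev _ _ _ _ (Or.inl hu) (Or.inl hv) he).1
    omega
  · intro s hs t ht x hx y hy he
    obtain ⟨r, hr, v, hv, rfl⟩ := wcase y hy
    change hA s x = (g0 ^ (2 * t)) ((g0 ^ r) v) at he
    rw [← pow_add_apply] at he
    by_cases h1 : s < 2 * b
    · rw [a1 s h1] at he
      have := (lev _ _ _ _ (Or.inr ⟨x, hx, rfl⟩) (Or.inl hv) he).2
      apply hv.2.2
      rw [← this, Equiv.symm_apply_apply]; exact hx
    · obtain rfl : s = 2 * b := by omega
      rw [a2] at he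
      exact levN _ _ (by omega) _ (Or.inl hv) x hx he.symm
  · -- covering
    have cov : ∀ (N : ℕ), ∀ y ∈ P, (∃ s < N, ∃ u, (u ∈ E ∨ ∃ w ∈ P, u = g1 w) ∧ (g0 ^ s) u = y) ∨
        (∃ x ∈ P, (g0 ^ N) x = y) := by
      intro N
      induction N with
      | zero => intro y hy; exact Or.inr ⟨y, hy, rfl⟩
      | succ N ih =>
        intro y hy
        rcases ih y hy with ⟨s, hs, u, hu, he⟩ | ⟨x, hx, he⟩
        · exact Or.inl ⟨s, by omega, u, hu, he⟩
        · by_cases hx0 : g0.symm x ∈ P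
          · right
            refine ⟨g0.symm x, hx0, ?_⟩
            rw [pow_succ]
            change (g0 ^ N) (g0 (g0.symm x)) = y
            rw [Equiv.apply_symm_apply, he]
          · left
            refine ⟨N, by omega, x, ?_, he⟩
            by_cases hx1 : g1.symm x ∈ P
            · exact Or.inr ⟨_, hx1, (Equiv.apply_symm_apply _ _).symm⟩
            · exact Or.inl ⟨hx, hx0, hx1⟩
    intro y hy
    rcases cov (2 * b) y hy with ⟨s, hs, u, hu, he⟩ | ⟨x, hx, he⟩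
    · rcases hu with hu | ⟨w, hw, rfl⟩
      · right
        refine ⟨s / 2, by omega, ?_⟩
        rcases Nat.mod_two_eq_zero_or_one s with hm | hm
        · refine ⟨u, Or.inl hu, ?_⟩
          change (g0 ^ (2 * (s / 2))) u = y
          rw [show 2 * (s / 2) = s by omega, he]
        · refine ⟨g0 u, Or.inr (by change g0.symm (g0 u) ∈ E; rw [Equiv.symm_apply_apply]; exact hu),
            ?_⟩
          change (g0 ^ (2 * (s / 2))) (g0 u) = y
          have e3 : (g0 ^ (2 * (s / 2))) (g0 u) = (g0 ^ (2 * (s / 2) + 1)) u := by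
            rw [pow_succ]; rfl
          rw [e3, show 2 * (s / 2) + 1 = s by omega, he]
      · left
        exact ⟨s, by omega, w, hw, by rw [a1 s hs, he]⟩
    · left
      exact ⟨2 * b, by omega, x, hx, by rw [a2, he]⟩

end Pool.Agent.Helper91
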