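import Pool.Agent.Helper91.V8

set_option linter.unusedSectionVars false

namespace Pool.Agent.Helper91

open Set Topology Equiv Filter

variable {X : Type*} [TopologicalSpace X] [CLike X]

/-- lengths of the cycles -/
def NN {κ : Type*} (n : κ → ℕ) (b : ℕ) : Option (Option κ) → ℕ
  | none => 2 * b + 1
  | some none => b
  | some (some v) => n v

/-- **Cycle system** covering the space. -/
lemma Vig.exists_sys {G : Subgroup (Perm X)} (hG : Vig G) (hgen : G ≤ Subgroup.closure (SFix G))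
    {T : Set X} (hT : IsClopen T) (hTne : T.Nonempty) (hT2 : ∃ y, y ∉ T)
    {κ : Type*} [Finite κ] [Nonempty κ] (n : κ → ℕ) (hn : ∀ v, Odd (n v)) {b : ℕ} (hb : Odd b) :
    ∃ (c : Option (Option κ) → Perm X) (V : Option (Option κ) → Set X) (h : κ → Perm X),
      (∀ v, c v ∈ G) ∧ (∀ v, IsClopen (V v)) ∧ (∀ v, (V v).Nonempty) ∧
      (∀ v, IsCyc (c v) (NN n b v) (V v)) ∧
      (∀ v, h v ∈ G ∧ V (some (some v)) = {y | (h v).symm y ∈ T}) ∧
      (∀ u v s t, s < NN n b u → t < NN n b v → ∀ x ∈ V u, ∀ y ∈ V v,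
        (c u ^ s) x = (c v ^ t) y → u = v ∧ s = t) ∧
      (∀ y, ∃ v, ∃ s < NN n b v, ∃ x ∈ V v, (c v ^ s) x = y) := by
  classical
  obtain ⟨hh, q, hhG, hhd, hhq⟩ := hG.exists_copies (κ := Σ v : κ, Fin (n v)) hT hT2
  set P : Set X := ⋂ a, {y | (hh a).symm y ∉ T} with hP
  have hPc : IsClopen P := isClopen_iInter_of_finite fun a => (hG.clopen_inv (hhG a) hT).compl
  have hqP : q ∈ P := by
    rw [hP, mem_iInter]
    intro a hc
    exact hhq a _ hc (Equiv.apply_symm_apply _ _)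
  have hP2 : ∃ y, y ∉ P := by
    obtain ⟨v⟩ : Nonempty κ := inferInstance
    obtain ⟨x, hx⟩ := hTne
    refine ⟨hh ⟨v, ⟨0, (hn v).pos⟩⟩ x, fun hc => ?_⟩
    rw [hP, mem_iInter] at hc
    apply hc ⟨v, ⟨0, (hn v).pos⟩⟩
    rw [Equiv.symm_apply_apply]; exact hx
  obtain ⟨hA, hB, W, hWc, hWne, A1, B1, A2, B2, A3, B3, AB, cov⟩ := hG.bulk hPc ⟨q, hqP⟩ hP2 b
  -- base sets and maps
  set base : Option (Option κ) → Set X := fun v => match v with
    | none => P
    | some none => W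
    | some (some _) => T with hbase
  set HH : Option (Option κ) → ℕ → Perm X := fun v s => match v with
    | none => hA s
    | some none => hB s
    | some (some v) => if hs : s < n v then hh ⟨v, ⟨s, hs⟩⟩ else 1 with hHH
  have HH3 : ∀ v s (hs : s < n v), HH (some (some v)) s = hh ⟨v, ⟨s, hs⟩⟩ := fun v s hs => by
    simp only [hHH, dif_pos hs]
  have basec : ∀ v, IsClopen (base v) := by
    rintro (_ | _ | v)
    · exact hPc
    · exact hWc
    · exact hT
  have basene : ∀ v, (base v).Nonempty := by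
    rintro (_ | _ | v)
    · exact ⟨q, hqP⟩
    · exact hWne
    · exact hTne
  have NNodd : ∀ v, Odd (NN n b v) := by
    rintro (_ | _ | v)
    · exact ⟨b, rfl⟩
    · exact hb
    · exact hn v
  have HHG : ∀ v, ∀ s < NN n b v, HH v s ∈ G := by
    rintro (_ | _ | v) s hs
    · exact A1 s
    · exact B1 s
    · rw [HH3 v s hs]; exact hhG _
  have hPT : ∀ y ∈ P, ∀ a, ∀ x ∈ T, hh a x ≠ y := by
    intro y hy a x hx he
    rw [hP, mem_iInter] at hy
    apply hy a
    rw [← he, Equiv.symm_apply_apply]; exact hx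
  have disj : ∀ u v s t, s < NN n b u → t < NN n b v → ∀ x ∈ base u, ∀ y ∈ base v,
      HH u s x = HH v t y → u = v ∧ s = t := by
    rintro (_ | _ | u) (_ | _ | v) s t hs ht x hx y hy he
    · exact ⟨rfl, by by_contra hst; exact A3 s hs t ht hst x hx y hy he⟩
    · exact absurd he (AB s hs t ht x hx y hy)
    · rw [HH3 v t ht] at he
      exact absurd he.symm (hPT _ (A2 s x hx) _ y hy)
    · exact absurd he.symm (AB t ht s hs y hy x hx)
    · exact ⟨rfl, by by_contra hst; exact B3 s hs t ht hst x hx y hy he⟩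
    · rw [HH3 v t ht] at he
      exact absurd he.symm (hPT _ (B2 s x hx) _ y hy)
    · rw [HH3 u s hs] at he
      exact absurd he (hPT _ (A2 t y hy) _ x hx)
    · rw [HH3 u s hs] at he
      exact absurd he (hPT _ (B2 t y hy) _ x hx)
    · rw [HH3 u s hs, HH3 v t ht] at he
      by_contra hne
      apply hhd ⟨u, ⟨s, hs⟩⟩ ⟨v, ⟨t, ht⟩⟩ _ x hx y hy he
      intro e
      apply hne
      obtain ⟨rfl, e2⟩ := Sigma.mk.inj_iff.1 e
      have e3 := eq_of_heq e2
      exact ⟨rfl, congrArg Fin.val e3⟩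
  have cover : ∀ y, ∃ v, ∃ s < NN n b v, ∃ x ∈ base v, HH v s x = y := by
    intro y
    by_cases hy : y ∈ P
    · rcases cov y hy with ⟨s, hs, x, hx, he⟩ | ⟨s, hs, x, hx, he⟩
      · exact ⟨none, s, hs, x, hx, he⟩
      · exact ⟨some none, s, hs, x, hx, he⟩
    · rw [hP, mem_iInter] at hy
      simp only [not_forall] at hy
      obtain ⟨⟨v, s⟩, ha⟩ := hy
      have ha' : (hh ⟨v, s⟩).symm y ∈ T := by
        by_contra hc; exact ha hc
      refine ⟨some (some v), s, s.2, _, ha', ?_⟩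
      rw [HH3 v s s.2]
      exact Equiv.apply_symm_apply _ _
  have hc : ∀ v, ∃ c ∈ G, IsCyc c (NN n b v) {y | (HH v 0).symm y ∈ base v} ∧
      (∀ s < NN n b v, ∀ x ∈ base v, (c ^ s) (HH v 0 x) = HH v s x) := by
    intro v
    refine hG.exists_cyc hgen (basec v) (HH v) (NNodd v) (HHG v) ?_
    intro s hs t ht hst x hx y hy he
    exact hst (disj v v s t hs ht x hx y hy he).2
  choose c hcG hcyc hcp using hc
  have hV : ∀ v, ∀ s < NN n b v, ∀ x, x ∈ {y | (HH v 0).symm y ∈ base v} →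
      (c v ^ s) x = HH v s ((HH v 0).symm x) := by
    intro v s hs x hx
    have := hcp v s hs _ hx
    rwa [Equiv.apply_symm_apply] at this
  refine ⟨c, fun v => {y | (HH v 0).symm y ∈ base v}, fun v => HH (some (some v)) 0, hcG,
    fun v => hG.clopen_inv (HHG v 0 (NNodd v).pos) (basec v), ?_, hcyc,
    fun v => ⟨HHG _ 0 (NNodd (some (some v))).pos, rfl⟩, ?_, ?_⟩
  · intro v
    obtain ⟨x, hx⟩ := basene v
    exact ⟨HH v 0 x, by change (HH v 0).symm (HH v 0 x) ∈ base v; rw [Equiv.symm_apply_apply]; exact hx⟩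
  · intro u v s t hs ht x hx y hy he
    rw [hV u s hs x hx, hV v t ht y hy] at he
    exact disj u v s t hs ht _ hx _ hy he
  · intro y
    obtain ⟨v, s, hs, x, hx, he⟩ := cover y
    refine ⟨v, s, hs, HH v 0 x, ?_, ?_⟩
    · change (HH v 0).symm (HH v 0 x) ∈ base v; rw [Equiv.symm_apply_apply]; exact hx
    · rw [hcp v s hs x hx, he]

/-- cycles of a cycle system commute -/
lemma cyc_commute {c d : Perm X} {m n : ℕ} {U V : Set X} (hc : IsCyc c m U) (hd : IsCyc d n V)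
    (hdisj : ∀ s t, s < m → t < n → ∀ x ∈ U, ∀ y ∈ V, (c ^ s) x ≠ (d ^ t) y) :
    Commute c d := by
  have fc : ∀ t < n, ∀ y ∈ V, c ((d ^ t) y) = (d ^ t) y := fun t ht y hy =>
    hc.fix _ fun s hs x hx => hdisj s t hs ht x hx y hy
  have fd : ∀ s < m, ∀ x ∈ U, d ((c ^ s) x) = (c ^ s) x := fun s hs x hx =>
    hd.fix _ fun t ht y hy => Ne.symm (hdisj s t hs ht x hx y hy)
  have fc' : ∀ t, ∀ y ∈ V, c ((d ^ t) y) = (d ^ t) y := fun t y hy => by
    rw [← hd.mod t y]; exact fc _ (Nat.mod_lt _ hd.pos) y hy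
  have fd' : ∀ s, ∀ x ∈ U, d ((c ^ s) x) = (c ^ s) x := fun s x hx => by
    rw [← hc.mod s x]; exact fd _ (Nat.mod_lt _ hc.pos) x hx
  apply Equiv.ext
  intro z
  change c (d z) = d (c z)
  by_cases h1 : ∃ s < m, ∃ x ∈ U, (c ^ s) x = z
  · obtain ⟨s, hs, x, hx, rfl⟩ := h1
    rw [fd' s x hx, ← pow_succ_apply', fd' (s + 1) x hx]
  · by_cases h2 : ∃ t < n, ∃ y ∈ V, (d ^ t) y = z
    · obtain ⟨t, ht, y, hy, rfl⟩ := h2
      rw [fc' t y hy, ← pow_succ_apply', fc' (t + 1) y hy]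
    · push Not at h1 h2
      rw [hd.fix z h2, hc.fix z h1, hd.fix z h2]

end Pool.Agent.Helper91
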